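import Pool.Agent.R384.Z.Pot

/-!
# Density of a subgroup in the images of residually unipotent representations: the case of `ℚ`
-/

set_option autoImplicit false
set_option linter.unusedSectionVars false

namespace Pool.Agent.Z384

open Pool.Agent.Y715.Red Pool.Agent.Y715.Nr Pool.Agent.W237.RK
open Pool.Agent.Y715.Gi (QB KK GK i₀_mem gk_fix)
open IsLocalRing Matrix

section abs

variable {G : Type*} [Group G] [TopologicalSpace G] [IsTopologicalGroup G]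

/-- Burnside's theorem -/
theorem surjA (D : Subgroup G) {U : Subgroup G} (hUn : U.Normal) {a : ℕ} (hUi : U.index = 2 ^ a)
    (hUo : IsOpen (U : Set G))
    (hkey : ∀ h : G → ZMod 2, IsLocallyConstant h → (∀ σ τ, h (σ * τ) = h σ + h τ) →
      (∀ σ ∈ U, h σ = 0) → (∀ σ ∈ D, h σ = 0) → ∀ σ, h σ = 0) (g : G) :
    ∃ δ ∈ D, δ⁻¹ * g ∈ U := by
  classical
  have hUf : U.FiniteIndex := ⟨by rw [hUi]; positivity⟩
  have hfin : Finite (G ⧸ U) := inferInstance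
  set Q : Subgroup (G ⧸ U) := D.map (QuotientGroup.mk' U) with hQ
  by_cases h : Q = ⊤
  · have h1 : (QuotientGroup.mk' U g) ∈ Q := by rw [h]; trivial
    obtain ⟨δ, hδ, hδg⟩ := h1
    exact ⟨δ, hδ, QuotientGroup.eq.1 hδg⟩
  · exfalso
    obtain ⟨K, hK, hQK⟩ := exists_idx (P := G ⧸ U) (a := a) (by
      rw [← hUi]; rfl) h
    have hmul : ∀ x y : G ⧸ U, x * y ∈ K ↔ (x ∈ K ↔ y ∈ K) :=
      fun x y => Subgroup.mul_mem_iff_of_index_two hK
    have h2 := hkey (fun σ => if (QuotientGroup.mk' U σ) ∈ K then 0 else 1) ?_ ?_ ?_ ?_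
    · have h3 : K = ⊤ := by
        refine eq_top_iff.2 fun x _ => ?_
        obtain ⟨σ, rfl⟩ := QuotientGroup.mk'_surjective U x
        by_contra h4
        have h5 := h2 σ
        simp only [h4, if_false] at h5
        exact one_ne_zero h5
      rw [h3, Subgroup.index_top] at hK
      exact absurd hK (by decide)
    · refine IsLocallyConstant.iff_exists_open _ |>.2 fun σ => ?_
      refine ⟨(fun τ => σ⁻¹ * τ) ⁻¹' (U : Set G), hUo.preimage (continuous_const.mul continuous_id),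
        by simp, fun τ hτ => ?_⟩
      have e : QuotientGroup.mk' U τ = QuotientGroup.mk' U σ := (QuotientGroup.eq.2 hτ).symm
      show (if (QuotientGroup.mk' U τ) ∈ K then (0 : ZMod 2) else 1) = _
      rw [e]
    · intro σ τ
      show (if (QuotientGroup.mk' U (σ * τ)) ∈ K then (0 : ZMod 2) else 1) = _
      rw [map_mul]
      have h5 := hmul (QuotientGroup.mk' U σ) (QuotientGroup.mk' U τ)
      by_cases h6 : QuotientGroup.mk' U σ ∈ K <;> by_cases h7 : QuotientGroup.mk' U τ ∈ K <;>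
        simp only [h6, h7, iff_true, iff_false, not_true, if_true, if_false] at h5 ⊢ <;>
        simp only [h5, if_true, if_false] <;> rfl
    · intro σ hσ
      have e : QuotientGroup.mk' U σ = 1 := (QuotientGroup.eq_one_iff σ).2 hσ
      show (if (QuotientGroup.mk' U σ) ∈ K then (0 : ZMod 2) else 1) = 0
      rw [e, if_pos (one_mem K)]
    · intro σ hσ
      show (if (QuotientGroup.mk' U σ) ∈ K then (0 : ZMod 2) else 1) = 0
      rw [if_pos (hQK ⟨σ, hσ, rfl⟩)]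

end abs

/-! ### The rational numbers -/

/-- the decomposition group in the absolute Galois group of `ℚ` -/
def DQ (ι : QB →ₐ[ℚ] PadicAlgCl 2) : Subgroup (QB ≃ₐ[ℚ] QB) where
  carrier := {σ | ∃ τ : Au 2, ∀ x, τ (ι x) = ι (σ x)}
  mul_mem' := by
    rintro σ σ' ⟨τ, h⟩ ⟨τ', h'⟩
    refine ⟨τ * τ', fun x => ?_⟩
    rw [AlgEquiv.mul_apply, AlgEquiv.mul_apply, h', h]
  one_mem' := ⟨1, fun _ => rfl⟩
  inv_mem' := by
    rintro σ ⟨τ, h⟩
    refine ⟨τ⁻¹, fun x => ?_⟩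
    have h5 := h (σ⁻¹ x)
    rw [← AlgEquiv.mul_apply σ σ⁻¹, mul_inv_cancel, AlgEquiv.one_apply] at h5
    rw [← h5, ← AlgEquiv.mul_apply τ⁻¹ τ, inv_mul_cancel, AlgEquiv.one_apply]

lemma exists_cmpQ {p : ℕ} [Fact p.Prime] (ι : QB →ₐ[ℚ] PadicAlgCl p) (τ : Au p) :
    ∃ σ : QB ≃ₐ[ℚ] QB, ∀ x, τ (ι x) = ι (σ x) := by
  let _ : Algebra QB (PadicAlgCl p) := ι.toRingHom.toAlgebra
  have hst : IsScalarTower ℚ QB (PadicAlgCl p) :=
    IsScalarTower.of_algebraMap_eq (fun x => (ι.commutes x).symm)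
  let τ' : PadicAlgCl p ≃ₐ[ℚ] PadicAlgCl p := τ.restrictScalars ℚ
  exact ⟨τ'.restrictNormal QB, fun x => (AlgEquiv.restrictNormal_commutes τ' QB x).symm⟩

/-- **Quadratic characters of `ℚ` which are trivial at `2`.** -/
theorem keyQ (h : (QB ≃ₐ[ℚ] QB) → ZMod 2) (hc : IsLocallyConstant h)
    (hm : ∀ σ τ, h (σ * τ) = h σ + h τ) {ι : QB →ₐ[ℚ] PadicAlgCl 2}
    (h2 : ∀ σ ∈ DQ ι, h σ = 0)
    (hC : ∀ e : ℤ, Squarefree e.natAbs → e % 8 = 1 → e ≠ 1 → ∀ t : QB, t ^ 2 = e →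
      ∃ σ, h σ = 0 ∧ σ t ≠ t) : ∀ σ, h σ = 0 := by
  classical
  obtain ⟨t, a, ht0, hta, hσ⟩ := Pool.Agent.W309.TD.exists_root (K := ℚ) (Ω := QB)
    two_ne_zero (fun σ => if h σ = 0 then 1 else -1) (fun σ => by
      show (if h σ = 0 then (1 : QB) else -1) = 1 ∨ (if h σ = 0 then (1 : QB) else -1) = -1
      split_ifs
      · exact Or.inl rfl
      · exact Or.inr rfl) (fun σ τ => by
      show (if h (σ * τ) = 0 then (1 : QB) else -1) = (if h σ = 0 then (1 : QB) else -1) *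
        (if h τ = 0 then (1 : QB) else -1)
      rw [hm]
      have h01 : ∀ x : ZMod 2, x = 0 ∨ x = 1 := by decide
      rcases h01 (h σ) with e1 | e1 <;> rcases h01 (h τ) with e2 | e2 <;> rw [e1, e2] <;>
        simp <;> decide) (hc.comp (fun x : ZMod 2 => if x = 0 then (1 : QB) else -1))
  have hfix : ∀ σ, h σ = 0 → σ t = t := by
    intro σ h0
    rw [hσ]
    simp [h0]
  have hT : ∀ τ : Au 2, τ (ι t) = ι t := by
    intro τ
    obtain ⟨σ, hcmp⟩ := exists_cmpQ ι τ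
    rw [hcmp, hfix σ (h2 σ ⟨τ, hcmp⟩)]
  have hta' : t ^ 2 = (a : QB) := by rw [hta]; exact eq_ratCast _ _
  have ha0 : a ≠ 0 := by
    rintro rfl
    apply ht0
    rw [Rat.cast_zero] at hta'
    exact pow_eq_zero_iff two_ne_zero |>.1 hta'
  obtain ⟨e, f, hf, he, hre⟩ := exists_sqf ha0
  obtain ⟨z, hz⟩ := fix_mem hT
  have hfQ : (f : ℚ_[2]) ≠ 0 := by exact_mod_cast hf
  have he8 : e % 8 = 1 := by
    refine int_sq (z := z / f) he ?_
    have h1 : z ^ 2 = (a : ℚ_[2]) := by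
      apply (algebraMap ℚ_[2] (PadicAlgCl 2)).injective
      rw [map_pow, hz, ← map_pow, hta', map_ratCast, map_ratCast]
    rw [div_pow, h1, hre]
    push_cast
    field_simp
  have hfQB : (f : QB) ≠ 0 := by exact_mod_cast hf
  have h5 : (t / f) ^ 2 = (e : QB) := by
    rw [div_pow, hta', hre]
    push_cast
    field_simp
  have he1 : e = 1 := by
    by_contra hne
    obtain ⟨σ, h0, h1⟩ := hC e he he8 hne (t / f) h5
    apply h1
    rw [map_div₀, hfix σ h0, map_ratCast]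
  have htf : ∀ σ : QB ≃ₐ[ℚ] QB, σ t = t := by
    intro σ
    rw [he1, Int.cast_one] at h5
    have h6 : (t / f) ^ 2 = 1 ^ 2 := by rw [h5, one_pow]
    rcases sq_eq_sq_iff_eq_or_eq_neg.1 h6 with h7 | h7
    · rw [div_eq_iff hfQB, one_mul] at h7
      rw [h7, map_ratCast]
    · rw [div_eq_iff hfQB] at h7
      rw [h7, map_mul, map_neg, map_one, map_ratCast]
  intro σ
  by_contra hne
  have h3 := hσ σ
  rw [htf σ] at h3
  simp only [hne, if_false] at h3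
  apply ht0
  have h4 : (2 : QB) * t = 0 := by linear_combination h3
  exact (mul_eq_zero.1 h4).resolve_left two_ne_zero

variable {A : Type*} [CommRing A] [IsLocalRing A] [IsNoetherianRing A] [TopologicalSpace A] {n : ℕ}

/-- **Density over `ℚ`.** -/
theorem denseQ (hA : IsAdic (maximalIdeal A)) (hfin : Finite (ResidueField A))
    (h2 : (2 : A) ∈ maximalIdeal A)
    {ρ : (QB ≃ₐ[ℚ] QB) →* GL (Fin n) A}
    (hρ : ∀ i j, Continuous fun σ => (ρ σ : Matrix (Fin n) (Fin n) A) i j)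
    (hres : ∀ σ, ∃ M : ℕ, InI (maximalIdeal A) (((ρ σ : Matrix (Fin n) (Fin n) A) - 1) ^ M))
    (hC : ∀ e : ℤ, Squarefree e.natAbs → e % 8 = 1 → e ≠ 1 → ∀ t : QB, t ^ 2 = e →
      ∃ σ, ρ σ = 1 ∧ σ t ≠ t)
    (ι : QB →ₐ[ℚ] PadicAlgCl 2) (m : ℕ) (g : QB ≃ₐ[ℚ] QB) :
    ∃ δ ∈ DQ ι, δ⁻¹ * g ∈ cong ρ m := by
  obtain ⟨b, hb⟩ := cong_index h2 hfin ρ hres m
  refine surjA (DQ ι) (cong_normal ρ m) hb (cong_open hA hρ m) (fun h hc hm hU hD => ?_) g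
  refine keyQ h hc hm hD fun e he he8 hne t ht => ?_
  obtain ⟨σ, hσ, hσt⟩ := hC e he he8 hne t ht
  refine ⟨σ, hU σ ?_, hσt⟩
  show GeneralLinearGroup.map (n := Fin n) (Ideal.Quotient.mk (maximalIdeal A ^ m)) (ρ σ) = 1
  rw [hσ, map_one]

/-- **Irreducible representations of the Galois group of `ℚ`.** -/
theorem fmQ (hA : IsAdic (maximalIdeal A)) (hfin : Finite (ResidueField A))
    (h2 : (2 : A) ∈ maximalIdeal A)
    {F : Type*} [Field F] [Algebra A F] [IsFractionRing A F]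
    {ρ : (QB ≃ₐ[ℚ] QB) →* GL (Fin n) A}
    (hρ : ∀ i j, Continuous fun σ => (ρ σ : Matrix (Fin n) (Fin n) A) i j)
    (hres : ∀ σ, ∃ M : ℕ, InI (maximalIdeal A) (((ρ σ : Matrix (Fin n) (Fin n) A) - 1) ^ M))
    (hC : ∀ e : ℤ, Squarefree e.natAbs → e % 8 = 1 → e ≠ 1 → ∀ t : QB, t ^ 2 = e →
      ∃ σ, ρ σ = 1 ∧ σ t ≠ t)
    (ι : QB →ₐ[ℚ] PadicAlgCl 2)
    {D' : Subgroup (QB ≃ₐ[ℚ] QB)} {R : Set (QB ≃ₐ[ℚ] QB)} (hRf : R.Finite)
    (hR : ∀ δ ∈ DQ ι, ∃ r ∈ R, r⁻¹ * δ ∈ D')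
    (hirr : Irr F ρ)
    {v : Fin n → F} (hv : v ≠ 0) (hD' : ∀ δ ∈ D', ∃ c : F, act F ρ δ v = c • v) :
    ∃ S : Subgroup (QB ≃ₐ[ℚ] QB), S.Normal ∧ S.FiniteIndex ∧ IsOpen (S : Set (QB ≃ₐ[ℚ] QB)) ∧
      (∀ σ ∈ S, ∀ τ ∈ S, ρ σ * ρ τ = ρ τ * ρ σ) :=
  pot_ab hA hρ (D := DQ ι) (denseQ hA hfin h2 hρ hres hC ι) hRf hR hirr hv hD'

/-- **Irreducible two-dimensional representations of the Galois group of `ℚ`.** -/
theorem fmQ2 (hA : IsAdic (maximalIdeal A)) (hfin : Finite (ResidueField A))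
    (h2 : (2 : A) ∈ maximalIdeal A)
    {F : Type*} [Field F] [Algebra A F] [IsFractionRing A F]
    {ρ : (QB ≃ₐ[ℚ] QB) →* GL (Fin 2) A}
    (hρ : ∀ i j, Continuous fun σ => (ρ σ : Matrix (Fin 2) (Fin 2) A) i j)
    (hres : ∀ σ, ∃ M : ℕ, InI (maximalIdeal A) (((ρ σ : Matrix (Fin 2) (Fin 2) A) - 1) ^ M))
    (hC : ∀ e : ℤ, Squarefree e.natAbs → e % 8 = 1 → e ≠ 1 → ∀ t : QB, t ^ 2 = e →
      ∃ σ, ρ σ = 1 ∧ σ t ≠ t)
    (ι : QB →ₐ[ℚ] PadicAlgCl 2)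
    {D' : Subgroup (QB ≃ₐ[ℚ] QB)} {R : Set (QB ≃ₐ[ℚ] QB)} (hRf : R.Finite)
    (hR : ∀ δ ∈ DQ ι, ∃ r ∈ R, r⁻¹ * δ ∈ D')
    (hirr : Irr F ρ)
    {v : Fin 2 → F} (hv : v ≠ 0) (hD' : ∀ δ ∈ D', ∃ c : F, act F ρ δ v = c • v) :
    (∃ S : Subgroup (QB ≃ₐ[ℚ] QB), S.Normal ∧ S.FiniteIndex ∧ IsOpen (S : Set (QB ≃ₐ[ℚ] QB)) ∧
      (∀ σ ∈ S, ∃ c : F, ∀ w, act F ρ σ w = c • w)) ∨
    ∃ T : Subgroup (QB ≃ₐ[ℚ] QB), T.index = 2 ∧ IsOpen (T : Set (QB ≃ₐ[ℚ] QB)) ∧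
      ∀ σ ∈ T, ∃ c : F, act F ρ σ v = c • v :=
  dih hA hρ (D := DQ ι) (denseQ hA hfin h2 hρ hres hC ι) hRf hR hirr hv hD'

/-- the condition for representations unramified outside `2` and a prime `q = ± 3 mod 8` -/
theorem condQ {q : ℕ} (hq : q.Prime) (hq8 : q % 8 = 3 ∨ q % 8 = 5)
    {ρ : (QB ≃ₐ[ℚ] QB) →* GL (Fin n) A}
    (hu : ∀ (p : ℕ) [Fact p.Prime] (ι : QB →ₐ[ℚ] PadicAlgCl p), p ≠ 2 → p ≠ q →
      ∀ (σ : QB ≃ₐ[ℚ] QB) (τ : Au p), (∀ x, τ (ι x) = ι (σ x)) → Inert τ → ρ σ = 1)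
    (e : ℤ) (he : Squarefree e.natAbs) (he8 : e % 8 = 1) (hne : e ≠ 1) (t : QB) (ht : t ^ 2 = e) :
    ∃ σ, ρ σ = 1 ∧ σ t ≠ t := by
  -- a prime divisor of `e` other than `2` and `q`
  obtain ⟨p, hp, hpe, hp2, hpq⟩ : ∃ p : ℕ, p.Prime ∧ p ∣ e.natAbs ∧ p ≠ 2 ∧ p ≠ q := by
    by_contra hcon
    push Not at hcon
    have h2 : ¬ 2 ∣ e.natAbs := by omega
    have h3 : ∀ p : ℕ, p.Prime → p ∣ e.natAbs → p = q := by
      intro p hp hpe
      exact hcon p hp hpe (by rintro rfl; exact h2 hpe)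
    have h4 : e.natAbs ∣ q := by
      have h5 := (Nat.prod_primeFactors_of_squarefree he)
      rw [← h5]
      have h6 : e.natAbs.primeFactors ⊆ q.primeFactors := by
        intro p hp
        have hpp := Nat.prime_of_mem_primeFactors hp
        rw [h3 p hpp (Nat.dvd_of_mem_primeFactors hp)]
        exact Nat.mem_primeFactors.2 ⟨hq, dvd_rfl, hq.ne_zero⟩
      have h7 := Finset.prod_dvd_prod_of_subset _ _ (fun p : ℕ => p) h6
      rwa [Nat.prod_primeFactors_of_squarefree hq.prime.squarefree] at h7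
    rcases (Nat.dvd_prime hq).1 h4 with h5 | h5 <;> omega
  have : Fact p.Prime := ⟨hp⟩
  obtain ⟨ι⟩ : Nonempty (QB →ₐ[ℚ] PadicAlgCl p) :=
    ⟨IsAlgClosed.lift (R := ℚ) (S := QB) (M := AlgebraicClosure ℚ_[p])⟩
  by_contra hcon
  push Not at hcon
  have ht0 : t ≠ 0 := by
    rintro rfl
    have h1 : (e : QB) = 0 := by rw [← ht]; ring
    have h2 : e = 0 := by exact_mod_cast h1
    rw [h2] at he8
    omega
  have hmem : ι t ∈ kur p := mem_kur fun τ hτ => by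
    obtain ⟨σ, hσ⟩ := exists_cmpQ ι τ
    rw [hσ, hcon σ (hu p ι hp2 hpq σ τ hσ (inert_of_kur hτ))]
  obtain ⟨m, hm⟩ := norm_ne ((map_ne_zero ι).2 ht0) hmem
  have he0 : (e : ℚ) ≠ 0 := by
    intro h
    have h2 : e = 0 := by exact_mod_cast h
    rw [h2] at he8
    omega
  have h1 : Even (padicValRat p (e : ℚ)) := by
    refine val_of_norm (p := p) he0 (m := m) ?_
    have h1 : (((e : ℚ) : ℚ) : PadicAlgCl p) = (ι t) ^ 2 := by
      rw [← map_pow, ht, map_intCast, Rat.cast_intCast]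
    rw [h1, norm_pow, hm, mul_comm, _root_.zpow_mul]
    norm_cast
  exact sqf_odd (p := p) (r := (e : ℚ)) (e := e) (f := 1) one_ne_zero he (by ring) h1 hpe

end Pool.Agent.Z384
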