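import Mathlib

/-!
# Monomial representations
-/

set_option autoImplicit false
set_option linter.unusedSectionVars false

namespace Pool.Agent.Z384

section mono

variable {G : Type*} [Group G] {F : Type*} [Field F] {V : Type*} [AddCommGroup V] [Module F V]
  [FiniteDimensional F V]

/-- an eigenvector in a stable subspace -/
lemma eig_in (f : Module.End F V) (hf : f.charpoly.Splits) {U : Submodule F V} (hU0 : U ≠ ⊥)
    (hU : ∀ u ∈ U, f u ∈ U) : ∃ r : F, ∃ u ∈ U, u ≠ 0 ∧ f u = r • u := by
  have hnt : Nontrivial U := (Submodule.nontrivial_iff_ne_bot).2 hU0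
  set g : Module.End F U := f.restrict hU with hg
  have h1 : Polynomial.aeval g f.charpoly = 0 := by
    have h2 : ∀ p : Polynomial F, ∀ u : U, ((Polynomial.aeval g p) u : V) = (Polynomial.aeval f p) u := by
      intro p
      induction p using Polynomial.induction_on' with
      | add p q hp hq => intro u; simp [hp u, hq u]
      | monomial k c =>
        intro u
        rw [Polynomial.aeval_monomial, Polynomial.aeval_monomial]
        have h3 : ∀ k : ℕ, ∀ u : U, ((g ^ k) u : V) = (f ^ k) u := by
          intro k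
          induction k with
          | zero => intro u; rfl
          | succ k ih => intro u; rw [pow_succ, pow_succ, Module.End.mul_apply, Module.End.mul_apply, ih]; rfl
        simp [h3 k u, Algebra.algebraMap_eq_smul_one]
    ext u
    rw [h2, LinearMap.aeval_self_charpoly]
    rfl
  have hdvd : minpoly F g ∣ f.charpoly := minpoly.dvd F g h1
  have hs : (minpoly F g).Splits := hf.of_dvd (LinearMap.charpoly_monic f).ne_zero hdvd
  have hdeg : (minpoly F g).degree ≠ 0 := by
    have := minpoly.degree_pos (A := F) (Algebra.IsIntegral.isIntegral g)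
    exact this.ne'
  obtain ⟨r, hr⟩ := hs.exists_eval_eq_zero hdeg
  have hev := Module.End.hasEigenvalue_of_isRoot (f := g) hr
  obtain ⟨u, hu⟩ := hev.exists_hasEigenvector
  refine ⟨r, u, u.2, fun h => hu.2 (Subtype.ext h), ?_⟩
  have := congrArg (Subtype.val) hu.apply_eq_smul
  exact this

/-- independence of the eigenvectors -/
lemma indep {T : Type*} {ι : Type*} [DecidableEq ι] (f : T → Module.End F V) (χ : ι → T → F)
    (s : Finset ι) (hχ : ∀ p ∈ s, ∀ q ∈ s, χ p = χ q → p = q) :
    ∀ u : ι → V, (∀ q ∈ s, ∀ t, f t (u q) = χ q t • u q) → ∑ q ∈ s, u q = 0 → ∀ q ∈ s, u q = 0 := by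
  induction s using Finset.induction_on with
  | empty => intro u _ _ q hq; simp at hq
  | insert q₀ s hq₀ ih =>
    intro u hu hsum
    have ih' := ih fun p hp q hq => hχ p (Finset.mem_insert_of_mem hp) q (Finset.mem_insert_of_mem hq)
    rw [Finset.sum_insert hq₀] at hsum
    have h1 : ∀ q ∈ s, u q = 0 := by
      intro q hq
      by_contra hne
      apply (ne_of_mem_of_not_mem hq hq₀)
      apply hχ q (Finset.mem_insert_of_mem hq) q₀ (Finset.mem_insert_self _ _)
      funext t
      have h2 : ∑ q ∈ s, (χ q t - χ q₀ t) • u q = 0 := by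
        have h3 := congrArg (f t) hsum
        rw [map_add, map_zero, map_sum, hu q₀ (Finset.mem_insert_self _ _) t] at h3
        have h4 : ∑ q ∈ s, f t (u q) = ∑ q ∈ s, χ q t • u q :=
          Finset.sum_congr rfl fun q hq => hu q (Finset.mem_insert_of_mem hq) t
        rw [h4] at h3
        have h5 : χ q₀ t • u q₀ = - ∑ q ∈ s, χ q₀ t • u q := by
          rw [← Finset.smul_sum, ← smul_neg, eq_neg_of_add_eq_zero_left hsum]
        rw [h5] at h3
        simp only [sub_smul, Finset.sum_sub_distrib]
        rw [← h3]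
        abel
      have h6 := ih' (fun q => (χ q t - χ q₀ t) • u q) (fun q hq t' => by
        rw [map_smul, hu q (Finset.mem_insert_of_mem hq) t', smul_comm]) h2 q hq
      rcases smul_eq_zero.1 h6 with h | h
      · exact sub_eq_zero.1 h
      · exact absurd h hne
    intro q hq
    rcases Finset.mem_insert.1 hq with rfl | hq
    · rw [Finset.sum_eq_zero h1, add_zero] at hsum
      exact hsum
    · exact h1 q hq

/-- the subspace on which `T` acts by `c` -/
def wt (a : G →* Module.End F V) (T : Subgroup G) (c : G → F) (W : Submodule F V) :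
    Submodule F V where
  carrier := {w | w ∈ W ∧ ∀ t ∈ T, a t w = c t • w}
  add_mem' := by
    rintro x y ⟨hx, hx'⟩ ⟨hy, hy'⟩
    exact ⟨W.add_mem hx hy, fun t ht => by rw [map_add, hx' t ht, hy' t ht, smul_add]⟩
  zero_mem' := ⟨W.zero_mem, fun t _ => by rw [map_zero, smul_zero]⟩
  smul_mem' := by
    rintro r x ⟨hx, hx'⟩
    exact ⟨W.smul_mem r hx, fun t ht => by rw [map_smul, hx' t ht, smul_comm]⟩

lemma a_inv (a : G →* Module.End F V) (g : G) (v : V) : a g⁻¹ (a g v) = v := by
  rw [← Module.End.mul_apply, ← map_mul, inv_mul_cancel, map_one]; rfl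

lemma a_inv' (a : G →* Module.End F V) (g : G) (v : V) : a g (a g⁻¹ v) = v := by
  rw [← Module.End.mul_apply, ← map_mul, mul_inv_cancel, map_one]; rfl

lemma a_mul (a : G →* Module.End F V) (g h : G) (v : V) : a (g * h) v = a g (a h v) := by
  rw [map_mul]; rfl

/-- a common eigenvector -/
lemma common (a : G →* Module.End F V) (hs : ∀ g, (a g).charpoly.Splits) {T : Subgroup G} :
    ∀ m : ℕ, ∀ W : Submodule F V, Module.finrank F W ≤ m → W ≠ ⊥ → (∀ t ∈ T, ∀ w ∈ W, a t w ∈ W) →
      (∀ s ∈ T, ∀ t ∈ T, ∀ w ∈ W, a s (a t w) = a t (a s w)) →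
      ∃ v ∈ W, v ≠ 0 ∧ ∀ t ∈ T, ∃ c : F, a t v = c • v := by
  intro m
  induction m with
  | zero =>
    intro W hm hW0
    exact absurd (Submodule.finrank_eq_zero.1 (Nat.le_zero.1 hm)) hW0
  | succ m ih =>
    intro W hm hW0 hW hc
    by_cases hsc : ∀ t ∈ T, ∃ c : F, ∀ w ∈ W, a t w = c • w
    · obtain ⟨v, hv, hv0⟩ := (Submodule.ne_bot_iff W).1 hW0
      exact ⟨v, hv, hv0, fun t ht => let ⟨c, hc⟩ := hsc t ht; ⟨c, hc v hv⟩⟩
    · push Not at hsc
      obtain ⟨t, ht, htc⟩ := hsc
      obtain ⟨r, u, hu, hu0, hur⟩ := eig_in (a t) (hs t) hW0 (hW t ht)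
      set U : Submodule F V := W ⊓ LinearMap.ker (a t - r • LinearMap.id) with hUdef
      have hmem : ∀ w, w ∈ U ↔ w ∈ W ∧ a t w = r • w := by
        intro w
        rw [hUdef, Submodule.mem_inf, LinearMap.mem_ker, LinearMap.sub_apply, LinearMap.smul_apply,
          LinearMap.id_apply, sub_eq_zero]
      have hlt : U < W := by
        refine lt_of_le_of_ne inf_le_left fun h => ?_
        obtain ⟨w, hw, hw'⟩ := htc r
        rw [← h] at hw
        exact hw' ((hmem w).1 hw).2
      have hfin := Submodule.finrank_lt_finrank_of_lt hlt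
      obtain ⟨v, hv, hv0, hv'⟩ := ih U (by omega) ((Submodule.ne_bot_iff U).2
        ⟨u, (hmem u).2 ⟨hu, hur⟩, hu0⟩) (fun s hs w hw => by
          obtain ⟨h1, h2⟩ := (hmem w).1 hw
          exact (hmem _).2 ⟨hW s hs w h1, by rw [hc t ht s hs w h1, h2, map_smul]⟩)
        (fun s hs t ht w hw => hc s hs t ht w ((hmem w).1 hw).1)
      exact ⟨v, ((hmem v).1 hv).1, hv0, hv'⟩

/-- the number of the conjugates of a weight space -/
lemma count (a : G →* Module.End F V) {T G' G'' : Subgroup G}
    (hTn : ∀ g ∈ G', ∀ t ∈ T, g * t * g⁻¹ ∈ T) (hfin : G''.FiniteIndex)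
    {W : Submodule F V} (hW : ∀ g ∈ G', ∀ w ∈ W, a g w ∈ W) (c : G → F)
    (hG'' : ∀ g ∈ G', (∀ t ∈ T, c (g⁻¹ * t * g) = c t) → g ∈ G'') :
    G''.relIndex G' * Module.finrank F (wt a T c W) ≤ Module.finrank F W := by
  classical
  have hfin' : Finite (G' ⧸ G''.subgroupOf G') := by
    have : (G''.subgroupOf G').FiniteIndex := inferInstance
    exact Subgroup.finite_quotient_of_finiteIndex
  have : Fintype (G' ⧸ G''.subgroupOf G') := Fintype.ofFinite _
  set g : G' ⧸ G''.subgroupOf G' → G' := fun q => q.out with hg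
  set E := wt a T c W with hE
  have hTn' : ∀ g ∈ G', ∀ t ∈ T, g⁻¹ * t * g ∈ T := by
    intro g hg t ht
    have := hTn g⁻¹ (inv_mem hg) t ht
    rwa [inv_inv] at this
  let Φ : ((G' ⧸ G''.subgroupOf G') → E) →ₗ[F] W :=
    { toFun := fun u => ⟨∑ q, a (g q : G) (u q : V), W.sum_mem fun q _ =>
        hW _ (g q).2 _ (u q).2.1⟩
      map_add' := fun u v => by
        apply Subtype.ext
        simp [Finset.sum_add_distrib]
      map_smul' := fun r u => by
        apply Subtype.ext
        simp [Finset.smul_sum] }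
  have hinj : Function.Injective Φ := by
    rw [← LinearMap.ker_eq_bot, LinearMap.ker_eq_bot']
    intro u hu
    have h1 : ∑ q, a (g q : G) (u q : V) = 0 := congrArg Subtype.val hu
    have h2 := indep (T := T) (fun t => a (t : G))
      (fun (q : G' ⧸ G''.subgroupOf G') (t : T) => c ((g q : G)⁻¹ * t * (g q : G))) Finset.univ
      (fun p _ q _ hpq => by
        have h3 : (g p)⁻¹ * g q ∈ G''.subgroupOf G' := by
          rw [Subgroup.mem_subgroupOf]
          apply hG'' _ ((g p)⁻¹ * g q).2
          intro t ht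
          have h4 : c ((g p : G)⁻¹ * ((g p : G) * t * (g p : G)⁻¹) * (g p : G)) =
              c ((g q : G)⁻¹ * ((g p : G) * t * (g p : G)⁻¹) * (g q : G)) :=
            congrFun hpq ⟨(g p : G) * t * (g p : G)⁻¹, hTn _ (g p).2 t ht⟩
          have e1 : (g p : G)⁻¹ * ((g p : G) * t * (g p : G)⁻¹) * (g p : G) = t := by group
          rw [e1] at h4
          rw [h4]
          congr 1
          push_cast
          group
        have h5 := QuotientGroup.eq.2 h3
        rwa [QuotientGroup.out_eq', QuotientGroup.out_eq'] at h5)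
      (fun q => a (g q : G) (u q : V)) (fun q _ t => by
        have h3 := (u q).2.2 _ (hTn' (g q : G) (g q).2 t t.2)
        rw [← a_mul]
        have e : (t : G) * (g q : G) = (g q : G) * ((g q : G)⁻¹ * t * (g q : G)) := by group
        rw [e, a_mul, h3, map_smul]) h1
    funext q
    apply Subtype.ext
    have h3 := h2 q (Finset.mem_univ q)
    have h4 := congrArg (a (g q : G)⁻¹) h3
    rw [a_inv, map_zero] at h4
    exact h4
  have h1 := LinearMap.finrank_le_finrank_of_injective hinj
  rw [Module.finrank_pi_fintype, Finset.sum_const, Finset.card_univ, smul_eq_mul] at h1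
  rwa [Subgroup.relIndex, Subgroup.index_eq_card, Nat.card_eq_fintype_card]

/-- **Monomial representations.** -/
theorem mono (a : G →* Module.End F V) (hs : ∀ g, (a g).charpoly.Splits) :
    ∀ (m : ℕ) (T G' : Subgroup G) (W : Submodule F V), T ≤ G' → T.FiniteIndex →
      T.index + Module.finrank F W ≤ m → W ≠ ⊥ →
      (∀ g ∈ G', ∀ t ∈ T, g * t * g⁻¹ ∈ T) → (∀ g ∈ G', ∃ k : ℕ, g ^ 2 ^ k ∈ T) →
      (∀ g ∈ G', ∀ w ∈ W, a g w ∈ W) → (∀ s ∈ T, ∀ t ∈ T, ∀ w ∈ W, a s (a t w) = a t (a s w)) →
      G'.index * Module.finrank F W ≤ Module.finrank F V →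
      ∃ (L : Subgroup G) (v : V), T ≤ L ∧ v ≠ 0 ∧ (∀ g ∈ L, ∃ c : F, a g v = c • v) ∧
        L.index ≤ Module.finrank F V := by
  classical
  intro m
  induction m with
  | zero =>
    intro T G' W _ hTf hm hW0
    exact absurd (Submodule.finrank_eq_zero.1 (by omega)) hW0
  | succ m ih =>
    intro T G' W hTG hTf hm hW0 hTn h2 hW hc hdim
    have hTi : T.index ≠ 0 := hTf.index_ne_zero
    by_cases hsc : ∀ t ∈ T, ∃ c : F, ∀ w ∈ W, a t w = c • w
    · by_cases hTG' : T = G'
      · -- the group `G'` acts on `W` by scalars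
        obtain ⟨v, hv, hv0⟩ := (Submodule.ne_bot_iff W).1 hW0
        refine ⟨G', v, hTG, hv0, fun g hg => ?_, ?_⟩
        · obtain ⟨c, hc⟩ := hsc g (hTG' ▸ hg)
          exact ⟨c, hc v hv⟩
        · have h1 : 1 ≤ Module.finrank F W := Nat.one_le_iff_ne_zero.2 fun h =>
            hW0 (Submodule.finrank_eq_zero.1 h)
          calc G'.index = G'.index * 1 := (mul_one _).symm
            _ ≤ G'.index * Module.finrank F W := Nat.mul_le_mul_left _ h1
            _ ≤ _ := hdim
      · -- a central element
        set N : Subgroup G' := T.subgroupOf G' with hN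
        have hNn : N.Normal := ⟨fun n hn g => by
          rw [hN, Subgroup.mem_subgroupOf] at hn ⊢
          push_cast
          exact hTn g g.2 n hn⟩
        have hNf : N.FiniteIndex := inferInstance
        have hfinQ : Finite (G' ⧸ N) := Subgroup.finite_quotient_of_finiteIndex
        have hp : IsPGroup 2 (G' ⧸ N) := by
          intro x
          obtain ⟨g, rfl⟩ := QuotientGroup.mk_surjective x
          obtain ⟨k, hk⟩ := h2 g g.2
          refine ⟨k, ?_⟩
          rw [← QuotientGroup.mk_pow, QuotientGroup.eq_one_iff, hN, Subgroup.mem_subgroupOf]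
          exact_mod_cast hk
        have hnt : Nontrivial (G' ⧸ N) := by
          by_contra hcon
          rw [not_nontrivial_iff_subsingleton] at hcon
          apply hTG'
          apply le_antisymm hTG
          intro g hg
          have h3 : (QuotientGroup.mk (⟨g, hg⟩ : G') : G' ⧸ N) = 1 := Subsingleton.elim _ _
          rw [QuotientGroup.eq_one_iff, hN, Subgroup.mem_subgroupOf] at h3
          exact h3
        have : Fact (Nat.Prime 2) := ⟨Nat.prime_two⟩
        have hcen := hp.center_nontrivial
        obtain ⟨⟨z, hz⟩, hz1⟩ := exists_ne (1 : Subgroup.center (G' ⧸ N))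
        obtain ⟨x, rfl⟩ := QuotientGroup.mk_surjective z
        have hxT : (x : G) ∉ T := by
          intro hx
          apply hz1
          apply Subtype.ext
          show (QuotientGroup.mk x : G' ⧸ N) = 1
          rw [QuotientGroup.eq_one_iff, hN, Subgroup.mem_subgroupOf]
          exact hx
        set T' : Subgroup G := ((Subgroup.zpowers (QuotientGroup.mk x : G' ⧸ N)).comap
          (QuotientGroup.mk' N)).map G'.subtype with hT'
        have hmem : ∀ g, g ∈ T' ↔ g ∈ G' ∧ ∃ i : ℤ, ((x : G) ^ i)⁻¹ * g ∈ T := by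
          intro g
          rw [hT', Subgroup.mem_map]
          constructor
          · rintro ⟨y, hy, rfl⟩
            rw [Subgroup.mem_comap, Subgroup.mem_zpowers_iff] at hy
            obtain ⟨i, hi⟩ := hy
            refine ⟨y.2, i, ?_⟩
            rw [← QuotientGroup.mk_zpow] at hi
            have h3 := QuotientGroup.eq.1 hi
            rw [hN, Subgroup.mem_subgroupOf] at h3
            exact_mod_cast h3
          · rintro ⟨hg, i, hi⟩
            refine ⟨⟨g, hg⟩, ?_, rfl⟩
            rw [Subgroup.mem_comap, Subgroup.mem_zpowers_iff]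
            refine ⟨i, ?_⟩
            rw [← QuotientGroup.mk_zpow]
            apply QuotientGroup.eq.2
            rw [hN, Subgroup.mem_subgroupOf]
            exact_mod_cast hi
        have hTT' : T ≤ T' := fun t ht => (hmem t).2 ⟨hTG ht, 0, by simpa using ht⟩
        have hxT' : (x : G) ∈ T' := (hmem x).2 ⟨x.2, 1, by simp⟩
        have hlt : T < T' := lt_of_le_of_ne hTT' fun h => hxT (h ▸ hxT')
        have hT'f : T'.FiniteIndex := Subgroup.finiteIndex_of_le hTT'
        have hidx : T'.index < T.index := Subgroup.index_strictAnti hlt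
        have hT'G : T' ≤ G' := fun g hg => ((hmem g).1 hg).1
        obtain ⟨L, v, h3, h4⟩ := ih T' G' W hT'G hT'f (by omega) hW0 (fun g hg t ht => by
            obtain ⟨htG, i, hi⟩ := (hmem t).1 ht
            refine (hmem _).2 ⟨G'.mul_mem (G'.mul_mem hg htG) (inv_mem hg), i, ?_⟩
            -- the commutator of `g` and `x ^ i` is in `T`
            have h5 : (QuotientGroup.mk (⟨g, hg⟩ * x ^ i) : G' ⧸ N) =
                QuotientGroup.mk (x ^ i * ⟨g, hg⟩) := by
              rw [QuotientGroup.mk_mul, QuotientGroup.mk_mul, QuotientGroup.mk_zpow]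
              exact (Subgroup.mem_center_iff.1 (zpow_mem hz i) _)
            have h6 := QuotientGroup.eq.1 h5.symm
            rw [hN, Subgroup.mem_subgroupOf] at h6
            have h7 : ((x : G) ^ i * g)⁻¹ * (g * (x : G) ^ i) ∈ T := by exact_mod_cast h6
            have h8 := T.mul_mem h7 hi
            have h9 := hTn g hg _ h8
            convert h9 using 1
            group)
          (fun g hg => let ⟨k, hk⟩ := h2 g hg; ⟨k, hTT' hk⟩) hW (fun s hs t ht w hw => by
            have key : ∀ s ∈ T', ∃ (c : F) (i : ℤ), ∀ w ∈ W, a s w = c • a ((x : G) ^ i) w := by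
              intro s hs
              obtain ⟨hsG, i, hi⟩ := (hmem s).1 hs
              obtain ⟨c, hc⟩ := hsc _ hi
              refine ⟨c, i, fun w hw => ?_⟩
              have e : s = (x : G) ^ i * (((x : G) ^ i)⁻¹ * s) := by group
              conv_lhs => rw [e, a_mul, hc w hw, map_smul]
            obtain ⟨c, i, hci⟩ := key s hs
            obtain ⟨c', j, hcj⟩ := key t ht
            have hxw : ∀ i : ℤ, a ((x : G) ^ i) w ∈ W := fun i => hW _ (zpow_mem x.2 i) w hw
            rw [hcj w hw, hci w hw, map_smul, map_smul, hci _ (hxw j), hcj _ (hxw i), ← a_mul,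
              ← a_mul, ← zpow_add, ← zpow_add, add_comm i j, smul_comm]) hdim
        exact ⟨L, v, hTT'.trans h3, h4⟩
    · -- a weight space
      obtain ⟨u, hu, hu0, hut⟩ := common a hs (T := T) _ W le_rfl hW0
        (fun t ht => hW t (hTG ht)) hc
      have hc' : ∀ g : G, ∃ r : F, g ∈ T → a g u = r • u := by
        intro g
        by_cases hg : g ∈ T
        · obtain ⟨r, hr⟩ := hut g hg
          exact ⟨r, fun _ => hr⟩
        · exact ⟨0, fun h => absurd h hg⟩
      choose c hcu using hc'
      have huniq : ∀ t ∈ T, ∀ r : F, a t u = r • u → c t = r := by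
        intro t ht r hr
        have h3 : (c t - r) • u = 0 := by rw [sub_smul, ← hcu t ht, hr, sub_self]
        rcases smul_eq_zero.1 h3 with h | h
        · exact sub_eq_zero.1 h
        · exact absurd h hu0
      have hTn' : ∀ g ∈ G', ∀ t ∈ T, g⁻¹ * t * g ∈ T := by
        intro g hg t ht
        have := hTn g⁻¹ (inv_mem hg) t ht
        rwa [inv_inv] at this
      let G'' : Subgroup G :=
        { carrier := {g | g ∈ G' ∧ ∀ t ∈ T, c (g⁻¹ * t * g) = c t}
          one_mem' := ⟨one_mem _, fun t _ => by simp⟩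
          mul_mem' := by
            rintro g h ⟨hg, hg'⟩ ⟨hh, hh'⟩
            refine ⟨mul_mem hg hh, fun t ht => ?_⟩
            have e : (g * h)⁻¹ * t * (g * h) = h⁻¹ * (g⁻¹ * t * g) * h := by group
            rw [e, hh' _ (hTn' g hg t ht), hg' t ht]
          inv_mem' := by
            rintro g ⟨hg, hg'⟩
            refine ⟨inv_mem hg, fun t ht => ?_⟩
            have h3 := hg' _ (hTn g hg t ht)
            have e : g⁻¹ * (g * t * g⁻¹) * g = t := by group
            rw [e] at h3
            rw [h3, inv_inv] }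
      have hG''G : G'' ≤ G' := fun g hg => hg.1
      have hTG'' : T ≤ G'' := by
        intro s hs
        refine ⟨hTG hs, fun t ht => ?_⟩
        apply huniq _ (hTn' s (hTG hs) t ht)
        rw [a_mul, a_mul, hcu s hs, map_smul, map_smul, hcu t ht, map_smul]
        have h3 := a_inv a s u
        rw [hcu s hs, map_smul] at h3
        rw [smul_comm, h3]
      have hG''f : G''.FiniteIndex := Subgroup.finiteIndex_of_le hTG''
      set E := wt a T c W with hE
      have hE0 : E ≠ ⊥ := (Submodule.ne_bot_iff E).2 ⟨u, ⟨hu, fun t ht => hcu t ht⟩, hu0⟩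
      have hEW : E ≤ W := fun w hw => hw.1
      have hElt : E < W := by
        refine lt_of_le_of_ne hEW fun h => hsc fun t ht => ⟨c t, fun w hw => ?_⟩
        rw [← h] at hw
        exact hw.2 t ht
      have hElt' := Submodule.finrank_lt_finrank_of_lt hElt
      have hcount := count a (T := T) (G' := G') (G'' := G'') hTn hG''f hW c (fun g hg h => ⟨hg, h⟩)
      obtain ⟨L, v, h3⟩ := ih T G'' E hTG'' hTf (by omega) hE0
        (fun g hg => hTn g (hG''G hg)) (fun g hg => h2 g (hG''G hg))
        (fun g hg w hw => ⟨hW g (hG''G hg) w hw.1, fun t ht => by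
          have e : t * g = g * (g⁻¹ * t * g) := by group
          rw [← a_mul, e, a_mul, hw.2 _ (hTn' g (hG''G hg) t ht), map_smul, hg.2 t ht]⟩)
        (fun s hs t ht w hw => hc s hs t ht w hw.1)
        (by
          rw [← Subgroup.relIndex_mul_index hG''G]
          calc G''.relIndex G' * G'.index * Module.finrank F E
              = G'.index * (G''.relIndex G' * Module.finrank F E) := by ring
            _ ≤ G'.index * Module.finrank F W := Nat.mul_le_mul_left _ hcount
            _ ≤ _ := hdim)
      exact ⟨L, v, h3⟩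

end mono

end Pool.Agent.Z384
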