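import Pool.Agent.R384.Z.Fm
import Pool.Agent.R384.Z.Mono

/-!
# Monomial representations of the Galois groups of the fields in the `2`-extensions unramified
# outside `2`
-/

set_option autoImplicit false
set_option linter.unusedSectionVars false

namespace Pool.Agent.Z384

open Pool.Agent.Y715.Red Pool.Agent.Y715.Nr Pool.Agent.W237.RK
open Pool.Agent.Y715.Gi (QB KK GK i₀_mem gk_fix)
open Pool.Agent.Y715.Df (Cmp exists_cmp gh)
open IsLocalRing Matrix

section gen

variable {A : Type*} [CommRing A] [IsLocalRing A] [IsNoetherianRing A] {n : ℕ}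
variable {G : Type*} [Group G]
variable {F : Type*} [Field F] [Algebra A F] [IsFractionRing A F]

lemma pow_core (ρ : G →* GL (Fin n) A) (W : Submodule F (Fin n → F))
    (hf : (stb ρ W).FiniteIndex) (hidx : ∀ m, ∃ b : ℕ, (cong ρ m).index = 2 ^ b) (x : G) :
    ∃ k : ℕ, x ^ 2 ^ k ∈ (stb ρ W).normalCore := by
  set S := (stb ρ W).normalCore with hS
  have hSf : S.FiniteIndex := inferInstance
  have hfin : Finite (G ⧸ S) := Subgroup.finite_quotient_of_finiteIndex
  have hSn : S.Normal := (stb ρ W).normalCore_normal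
  obtain ⟨j, j', hjj, hj⟩ : ∃ j j' : ℕ, j < j' ∧
      (QuotientGroup.mk (x ^ 2 ^ j) : G ⧸ S) = QuotientGroup.mk (x ^ 2 ^ j') := by
    obtain ⟨j, j', hne, h⟩ := Finite.exists_ne_map_eq_of_infinite
      (fun j : ℕ => (QuotientGroup.mk (x ^ 2 ^ j) : G ⧸ S))
    rcases lt_or_gt_of_ne hne with h1 | h1
    · exact ⟨j, j', h1, h⟩
    · exact ⟨j', j, h1, h.symm⟩
  set z := x ^ 2 ^ j with hz
  set r := j' - j with hr
  have hr1 : 1 ≤ r := by omega
  have h1 : (QuotientGroup.mk z : G ⧸ S) ^ 2 ^ r = QuotientGroup.mk z := by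
    have e : z ^ 2 ^ r = x ^ 2 ^ j' := by
      rw [hz, ← pow_mul, ← pow_add, hr, Nat.add_sub_cancel' hjj.le]
    rw [← QuotientGroup.mk_pow, e, hj]
  have h2 : ∀ t : ℕ, (QuotientGroup.mk z : G ⧸ S) ^ 2 ^ (r * t) = QuotientGroup.mk z := by
    intro t
    induction t with
    | zero => simp
    | succ t ih => rw [mul_add, mul_one, pow_add, pow_mul, ih, h1]
  have hlim : ∀ m : ℕ, ∃ δ ∈ S, δ⁻¹ * z ∈ cong ρ m := by
    intro m
    obtain ⟨b, hb⟩ := hidx m
    have hcn := cong_normal ρ m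
    have h3 : z ^ 2 ^ b ∈ cong ρ m := by
      rw [← hb]
      exact Subgroup.pow_index_mem _ z
    have h4 : z ^ 2 ^ (r * b) ∈ cong ρ m := by
      have e : 2 ^ (r * b) = 2 ^ b * 2 ^ (r * b - b) := by
        rw [← pow_add]
        congr 1
        have : b ≤ r * b := Nat.le_mul_of_pos_left b hr1
        omega
      rw [e, pow_mul]
      exact pow_mem h3 _
    refine ⟨(z ^ 2 ^ (r * b))⁻¹ * z, ?_, ?_⟩
    · apply QuotientGroup.eq.1
      rw [QuotientGroup.mk_pow, h2]
    · have := hcn.conj_mem _ h4 z⁻¹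
      convert this using 1
      group
  refine ⟨j, ?_⟩
  show z ∈ S
  intro g
  refine stb_of_lim ρ W (D' := S) (Subgroup.normalCore_le _) fun m => ?_
  obtain ⟨δ, hδ, hδ'⟩ := hlim m
  refine ⟨g * δ * g⁻¹, hSn.conj_mem _ hδ g, ?_⟩
  have := (cong_normal ρ m).conj_mem _ hδ' g
  convert this using 1
  group

/-- the action as a homomorphism -/
noncomputable def actHom (F : Type*) [Field F] [Algebra A F] [IsFractionRing A F]
    (ρ : G →* GL (Fin n) A) : G →* Module.End F (Fin n → F) where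
  toFun g := act F ρ g
  map_one' := by
    ext1
    ext1
    simp [act_one]
  map_mul' g h := by
    refine LinearMap.ext fun v => ?_
    rw [act_mul]
    rfl

lemma actHom_apply (ρ : G →* GL (Fin n) A) (g : G) : actHom F ρ g = act F ρ g := rfl

/-- **Monomial representations.** -/
theorem mono_ab [TopologicalSpace G] [IsTopologicalGroup G] [TopologicalSpace A]
    (hA : IsAdic (maximalIdeal A)) {ρ : G →* GL (Fin n) A}
    (hρ : ∀ i j, Continuous fun σ => (ρ σ : Matrix (Fin n) (Fin n) A) i j) {D D' : Subgroup G}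
    (happ : ∀ (m : ℕ) (g : G), ∃ δ ∈ D, δ⁻¹ * g ∈ cong ρ m)
    (hidx : ∀ m, ∃ b : ℕ, (cong ρ m).index = 2 ^ b)
    {R : Set G} (hRf : R.Finite) (hR : ∀ δ ∈ D, ∃ r ∈ R, r⁻¹ * δ ∈ D')
    (hirr : Irr F ρ)
    (hsp : ∀ g, ((ρ g : Matrix (Fin n) (Fin n) A).map (algebraMap A F)).charpoly.Splits)
    {v : Fin n → F} (hv : v ≠ 0) (hD' : ∀ δ ∈ D', ∃ c : F, act F ρ δ v = c • v) :
    ∃ (T L : Subgroup G) (u : Fin n → F), T.Normal ∧ IsOpen (T : Set G) ∧ (∃ a : ℕ, T.index = 2 ^ a) ∧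
      T ≤ L ∧ L.index = n ∧ u ≠ 0 ∧ ∀ σ ∈ L, ∃ c : F, act F ρ σ u = c • u := by
  classical
  set W : Submodule F (Fin n → F) := Submodule.span F {v} with hW
  have hWf : (stb ρ W).FiniteIndex := by
    refine stab_fin ρ happ hRf hR fun δ hδ w hw => ?_
    obtain ⟨c, hc⟩ := hD' δ hδ
    obtain ⟨a, rfl⟩ := Submodule.mem_span_singleton.1 hw
    rw [map_smul, hc]
    exact W.smul_mem _ (W.smul_mem _ (Submodule.mem_span_singleton_self v))
  have hWc := stb_closed hA hρ W
  set T := (stb ρ W).normalCore with hT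
  have hTn : T.Normal := (stb ρ W).normalCore_normal
  have hTf : T.FiniteIndex := inferInstance
  have hTo : IsOpen (T : Set G) :=
    Subgroup.isOpen_of_isClosed_of_finiteIndex _ ((stb ρ W).normalCore_isClosed hWc)
  have hspan : ∀ u : Fin n → F, u ≠ 0 →
      Submodule.span F (Set.range fun g : G => act F ρ g u) = ⊤ := by
    intro u hu
    rcases hirr (Submodule.span F (Set.range fun g : G => act F ρ g u)) (fun g w hw => by
      have h1 : Submodule.span F (Set.range fun g : G => act F ρ g u) ≤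
          (Submodule.span F (Set.range fun g : G => act F ρ g u)).comap (act F ρ g) := by
        rw [Submodule.span_le]
        rintro _ ⟨h, rfl⟩
        show act F ρ g (act F ρ h u) ∈ Submodule.span F (Set.range fun g : G => act F ρ g u)
        rw [← act_mul]
        exact Submodule.subset_span ⟨g * h, rfl⟩
      exact h1 hw) with h | h
    · exfalso
      apply hu
      have h1 : act F ρ 1 u ∈ Submodule.span F (Set.range fun g : G => act F ρ g u) :=
        Submodule.subset_span ⟨1, rfl⟩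
      rw [h, act_one] at h1
      exact (Submodule.mem_bot F).1 h1
    · exact h
  have heig : ∀ σ ∈ T, ∀ g : G, ∃ c : F, act F ρ σ (act F ρ g v) = c • act F ρ g v := by
    intro σ hσ g
    have h1 : g⁻¹ * σ * g ∈ stb ρ W := by
      have := hσ g⁻¹
      rwa [inv_inv] at this
    obtain ⟨c, hc⟩ := Submodule.mem_span_singleton.1
      ((h1 v).1 (Submodule.mem_span_singleton_self v))
    refine ⟨c, ?_⟩
    rw [← act_mul]
    have e : σ * g = g * (g⁻¹ * σ * g) := by group
    rw [e, act_mul, ← hc, map_smul]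
  have hcomm : ∀ σ ∈ T, ∀ τ ∈ T, ∀ w : Fin n → F,
      act F ρ σ (act F ρ τ w) = act F ρ τ (act F ρ σ w) := by
    intro σ hσ τ hτ w
    have hcomm : (act F ρ σ) ∘ₗ (act F ρ τ) = (act F ρ τ) ∘ₗ (act F ρ σ) := by
      refine LinearMap.ext_on (hspan v hv) ?_
      rintro _ ⟨g, rfl⟩
      obtain ⟨c, hc⟩ := heig σ hσ g
      obtain ⟨c', hc'⟩ := heig τ hτ g
      rw [LinearMap.comp_apply, LinearMap.comp_apply]
      show act F ρ σ (act F ρ τ (act F ρ g v)) = act F ρ τ (act F ρ σ (act F ρ g v))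
      rw [hc, hc', map_smul, map_smul, hc, hc', smul_smul, smul_smul, mul_comm]
    exact LinearMap.congr_fun hcomm w
  have h2 : ∀ x : G, ∃ k : ℕ, x ^ 2 ^ k ∈ T := pow_core ρ W hWf hidx
  have : Fact (Nat.Prime 2) := ⟨Nat.prime_two⟩
  have hTi : ∃ a : ℕ, T.index = 2 ^ a := by
    have hfin : Finite (G ⧸ T) := Subgroup.finite_quotient_of_finiteIndex
    have hp : IsPGroup 2 (G ⧸ T) := by
      intro x
      obtain ⟨g, rfl⟩ := QuotientGroup.mk_surjective x
      obtain ⟨k, hk⟩ := h2 g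
      exact ⟨k, by rw [← QuotientGroup.mk_pow, QuotientGroup.eq_one_iff]; exact hk⟩
    exact IsPGroup.iff_card.1 hp
  have hnt : Nontrivial (Fin n → F) := ⟨v, 0, hv⟩
  obtain ⟨L, u, hTL, hu, hL, hLn⟩ := mono (actHom F ρ) (fun g => by
      rw [actHom_apply]
      have : (act F ρ g).charpoly =
          ((ρ g : Matrix (Fin n) (Fin n) A).map (algebraMap A F)).charpoly := by
        unfold act
        rw [← Matrix.toLin'_apply', Matrix.charpoly_toLin']
      rw [this]
      exact hsp g) _ T ⊤ ⊤ le_top hTf le_rfl (top_ne_bot)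
    (fun g _ t ht => hTn.conj_mem t ht g) (fun g _ => h2 g) (fun _ _ _ _ => trivial)
    (fun s hs t ht w _ => hcomm s hs t ht w) (by rw [Subgroup.index_top, one_mul, finrank_top])
  rw [Module.finrank_fin_fun] at hLn
  have hLf : L.FiniteIndex := Subgroup.finiteIndex_of_le hTL
  refine ⟨T, L, u, hTn, hTo, hTi, hTL, le_antisymm hLn ?_, hu, hL⟩
  have hfin : Finite (G ⧸ L) := Subgroup.finite_quotient_of_finiteIndex
  have : Fintype (G ⧸ L) := Fintype.ofFinite _
  have h3 : Submodule.span F (Set.range fun q : G ⧸ L => act F ρ q.out u) = ⊤ := by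
    rw [eq_top_iff, ← hspan u hu, Submodule.span_le]
    rintro _ ⟨g, rfl⟩
    have h4 : ((QuotientGroup.mk g : G ⧸ L).out)⁻¹ * g ∈ L := by
      apply QuotientGroup.eq.1
      rw [QuotientGroup.out_eq']
    obtain ⟨c, hc⟩ := hL _ h4
    have e : g = (QuotientGroup.mk g : G ⧸ L).out * (((QuotientGroup.mk g : G ⧸ L).out)⁻¹ * g) := by
      group
    show act F ρ g u ∈ Submodule.span F (Set.range fun q : G ⧸ L => act F ρ q.out u)
    have h5 : act F ρ g u = c • act F ρ (QuotientGroup.mk g : G ⧸ L).out u := by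
      conv_lhs => rw [e, act_mul]
      rw [← map_smul]
      congr 1
    rw [h5]
    exact Submodule.smul_mem _ _ (Submodule.subset_span ⟨_, rfl⟩)
  have h4 := finrank_range_le_card (R := F) (fun q : G ⧸ L => act F ρ q.out u)
  rw [Set.finrank, h3, finrank_top, Module.finrank_fin_fun] at h4
  rwa [Subgroup.index_eq_card, Nat.card_eq_fintype_card]

end gen

variable {s : QB} {d : ℕ} (hs : s ^ 2 = -(d : QB))
variable {A : Type*} [CommRing A] [IsLocalRing A] [IsNoetherianRing A] [TopologicalSpace A] {n : ℕ}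

include hs in
/-- **Irreducible representations which potentially contain a line at one place above `2`.** -/
theorem fmmono (hF : Fld d) {H N : Subgroup (GK s)} (hNH : N ≤ H) (hNn : N.Normal)
    (hNi : ∃ a : ℕ, N.index = 2 ^ a) (hNo : IsOpen (N : Set (GK s)))
    (hur : ∀ (p : ℕ) [Fact p.Prime] (ι : QB →ₐ[ℚ] PadicAlgCl p), p ≠ 2 →
      ∀ σ ∈ (II ι : Set (GK s)), σ ∈ N)
    (hA : IsAdic (maximalIdeal A)) (hfin : Finite (ResidueField A)) (h2 : (2 : A) ∈ maximalIdeal A)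
    {F : Type*} [Field F] [Algebra A F] [IsFractionRing A F]
    {ρ : H →* GL (Fin n) A}
    (hρ : ∀ i j, Continuous fun σ => (ρ σ : Matrix (Fin n) (Fin n) A) i j)
    (hres : ∀ σ, ∃ M : ℕ, InI (maximalIdeal A) (((ρ σ : Matrix (Fin n) (Fin n) A) - 1) ^ M))
    (hu : ∀ (p : ℕ) [Fact p.Prime] (ι : QB →ₐ[ℚ] PadicAlgCl p), p ≠ 2 →
      ∀ σ : H, (σ : GK s) ∈ (II ι : Set (GK s)) → ρ σ = 1)
    (ι₀ : QB →ₐ[ℚ] PadicAlgCl 2)
    {D' : Subgroup H} {R : Set H} (hRf : R.Finite)
    (hR : ∀ δ : H, (δ : GK s) ∈ (DD ι₀ : Set (GK s)) → ∃ r ∈ R, r⁻¹ * δ ∈ D')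
    (hirr : Irr F ρ)
    (hsp : ∀ g, ((ρ g : Matrix (Fin n) (Fin n) A).map (algebraMap A F)).charpoly.Splits)
    {v : Fin n → F} (hv : v ≠ 0) (hD' : ∀ δ ∈ D', ∃ c : F, act F ρ δ v = c • v) :
    ∃ (T L : Subgroup H) (u : Fin n → F), T.Normal ∧ IsOpen (T : Set H) ∧ (∃ a : ℕ, T.index = 2 ^ a) ∧
      T ≤ L ∧ L.index = n ∧ u ≠ 0 ∧ ∀ σ ∈ L, ∃ c : F, act F ρ σ u = c • u :=
  mono_ab hA hρ (D := (DDs ι₀).subgroupOf H)
    (dense hs hF hNH hNn hNi hNo hur hA hfin h2 hρ hres hu ι₀) (fun m => cong_index h2 hfin ρ hres m)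
    hRf (fun δ hδ => hR δ hδ) hirr hsp hv hD'

end Pool.Agent.Z384
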