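import Mathlib

/-!
# Rational and `2`-adic arithmetic of norms from `ℚ(√-d)`
-/

set_option autoImplicit false
set_option linter.unusedSectionVars false

namespace Pool.Agent.Z384

/-- the discriminants -/
def Fld (d : ℕ) : Prop :=
  (d.Prime ∧ d % 16 = 7) ∨ ∃ p q : ℕ, p.Prime ∧ q.Prime ∧ p % 8 = 5 ∧ q % 8 = 3 ∧ d = p * q

lemma Fld.ne_zero {d : ℕ} (h : Fld d) : d ≠ 0 := by
  rcases h with h | ⟨p, q, hp, hq, -, -, rfl⟩
  · exact h.1.ne_zero
  · exact mul_ne_zero hp.ne_zero hq.ne_zero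

lemma Fld.sqf {d : ℕ} (h : Fld d) : Squarefree d := by
  rcases h with h | ⟨p, q, hp, hq, h5, h3, rfl⟩
  · exact h.1.prime.squarefree
  · have hne : p ≠ q := by rintro rfl; omega
    exact (Nat.squarefree_mul ((Nat.coprime_primes hp hq).2 hne)).2
      ⟨hp.prime.squarefree, hq.prime.squarefree⟩

lemma Fld.mod {d : ℕ} (h : Fld d) : d % 8 = 7 := by
  rcases h with h | ⟨p, q, hp, hq, h5, h3, rfl⟩
  · have := h.2
    omega
  · rw [Nat.mul_mod, h5, h3]

lemma Fld.div {d : ℕ} (h : Fld d) {e : ℕ} (he : e ∣ d) : (e % 8 = 1 → e = 1) ∧ (e % 8 = 7 → e = d) := by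
  have hm := h.mod
  rcases h with h | ⟨p, q, hp, hq, h5, h3, rfl⟩
  · rcases (Nat.dvd_prime h.1).1 he with rfl | rfl
    · exact ⟨fun _ => rfl, fun h => by omega⟩
    · exact ⟨fun h => by omega, fun _ => rfl⟩
  · obtain ⟨a, b, ha, hb, rfl⟩ := (Nat.dvd_mul).1 he
    rcases (Nat.dvd_prime hp).1 ha with rfl | rfl <;> rcases (Nat.dvd_prime hq).1 hb with rfl | rfl
    · exact ⟨fun _ => rfl, fun h => by omega⟩
    · rw [one_mul]
      exact ⟨fun h => by omega, fun h => by omega⟩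
    · rw [mul_one]
      exact ⟨fun h => by omega, fun h => by omega⟩
    · exact ⟨fun h => by omega, fun _ => rfl⟩

/-! ### Squarefree parts -/

lemma exists_sqf {r : ℚ} (hr : r ≠ 0) : ∃ (e : ℤ) (f : ℚ), f ≠ 0 ∧ Squarefree e.natAbs ∧
    r = e * f ^ 2 := by
  set n : ℤ := r.num * r.den with hn
  have hn0 : n ≠ 0 := mul_ne_zero (Rat.num_ne_zero.2 hr) (by exact_mod_cast r.den_ne_zero)
  obtain ⟨a, b, hab, ha⟩ := Nat.sq_mul_squarefree n.natAbs
  have hb0 : b ≠ 0 := by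
    rintro rfl
    rw [pow_two, zero_mul, zero_mul] at hab
    exact hn0 (Int.natAbs_eq_zero.1 hab.symm)
  have hden : (r.den : ℚ) ≠ 0 := by exact_mod_cast r.den_ne_zero
  have hr' : r = (n : ℚ) / (r.den : ℚ) ^ 2 := by
    rw [hn]
    push_cast
    conv_lhs => rw [← Rat.num_div_den r]
    field_simp
  refine ⟨n.sign * a, (b : ℚ) / r.den, div_ne_zero (by exact_mod_cast hb0) hden, ?_, ?_⟩
  · rw [Int.natAbs_mul, Int.natAbs_sign_of_ne_zero hn0, one_mul, Int.natAbs_natCast]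
    exact ha
  · have h1 : (n : ℚ) = n.sign * ((b : ℚ) ^ 2 * a) := by
      have h2 : n = n.sign * ((b : ℤ) ^ 2 * a) := by
        conv_lhs => rw [← Int.sign_mul_natAbs n]
        rw [← hab]
        push_cast
        ring
      exact_mod_cast h2
    refine hr'.trans ?_
    rw [h1, div_pow]
    push_cast
    ring

lemma sqf_odd {p : ℕ} [Fact p.Prime] {r : ℚ} {e : ℤ} {f : ℚ} (hf : f ≠ 0)
    (he : Squarefree e.natAbs) (h : r = e * f ^ 2) (hr : Even (padicValRat p r)) :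
    ¬ p ∣ e.natAbs := by
  intro hd
  have he0 : e ≠ 0 := by
    rintro rfl
    rw [Int.natAbs_zero] at he
    exact not_squarefree_zero he
  have h1 : padicValRat p r = padicValRat p (e : ℚ) + 2 * padicValRat p f := by
    rw [h, padicValRat.mul (by exact_mod_cast he0) (pow_ne_zero _ hf), padicValRat.pow]
    push_cast
    rfl
  have h2 : padicValRat p (e : ℚ) = (padicValNat p e.natAbs : ℤ) := by
    rw [padicValRat.of_int]
    rfl
  have h3 : padicValNat p e.natAbs = 1 := by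
    have h7 : 1 ≤ padicValNat p e.natAbs :=
      one_le_padicValNat_of_dvd (Int.natAbs_ne_zero.2 he0) hd
    have h8 : padicValNat p e.natAbs < 2 := by
      by_contra h9
      push Not at h9
      have h10 : p ^ 2 ∣ e.natAbs := (pow_dvd_pow p h9).trans pow_padicValNat_dvd
      rw [pow_two] at h10
      exact (Fact.out : p.Prime).not_isUnit (he p h10)
    omega
  rw [h2, h3] at h1
  rw [h1] at hr
  obtain ⟨k, hk⟩ := hr
  push_cast at hk
  omega

/-- a positive rational number with even valuations at the odd primes -/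
lemma sq_or {N : ℚ} (hN : 0 < N) (h : ∀ (p : ℕ) [Fact p.Prime], p ≠ 2 → Even (padicValRat p N)) :
    ∃ m : ℚ, m ≠ 0 ∧ (N = m ^ 2 ∨ N = 2 * m ^ 2) := by
  obtain ⟨e, f, hf, he, hNe⟩ := exists_sqf hN.ne'
  have hf2 : 0 < f ^ 2 := by positivity
  have hepos : 0 < e := by
    have h1 : (0 : ℚ) < e := by
      by_contra hcon
      push Not at hcon
      nlinarith
    exact_mod_cast h1
  have h2 : ∀ p : ℕ, p.Prime → p ∣ e.natAbs → p = 2 := by
    intro p hp hd
    by_contra hp2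
    have : Fact p.Prime := ⟨hp⟩
    exact sqf_odd hf he hNe (h p hp2) hd
  have h3 : e.natAbs ∣ 2 := by
    have h4 : e.natAbs = ∏ p ∈ e.natAbs.primeFactors, p := (Nat.prod_primeFactors_of_squarefree he).symm
    rw [h4]
    have h5 : e.natAbs.primeFactors ⊆ {2} := by
      intro p hp
      rw [Finset.mem_singleton]
      exact h2 p (Nat.prime_of_mem_primeFactors hp) (Nat.dvd_of_mem_primeFactors hp)
    have h6 := Finset.prod_dvd_prod_of_subset _ _ (fun p : ℕ => p) h5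
    rwa [Finset.prod_singleton] at h6
  refine ⟨f, hf, ?_⟩
  rcases (Nat.dvd_prime Nat.prime_two).1 h3 with h4 | h4
  · left
    have : e = 1 := by omega
    rw [hNe, this]
    push_cast
    ring
  · right
    have : e = 2 := by omega
    rw [hNe, this]
    push_cast
    ring

/-! ### `2`-adic squares -/

lemma unit_sq (z : ℤ_[2]) (hz : IsUnit z) : PadicInt.toZModPow 3 (z ^ 2) = 1 := by
  have hu : IsUnit (PadicInt.toZModPow 3 z) := hz.map _
  have h3 : ∀ a : ZMod (2 ^ 3), IsUnit a → a ^ 2 = 1 := by decide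
  rw [map_pow]
  exact h3 _ hu

/-- squares in `ℚ_2` -/
lemma sq_two {z : ℚ_[2]} {u : ℤ_[2]} (hu : IsUnit u) (h : z ^ 2 = (u : ℚ_[2])) :
    PadicInt.toZModPow 3 u = 1 := by
  have h1 : ‖z‖ = 1 := by
    have h2 : ‖z‖ ^ 2 = 1 := by
      rw [← norm_pow, h]
      exact PadicInt.isUnit_iff.1 hu
    exact (pow_eq_one_iff_of_nonneg (norm_nonneg _) two_ne_zero).1 h2
  let z' : ℤ_[2] := ⟨z, h1.le⟩
  have h3 : u = z' ^ 2 := by
    apply Subtype.ext
    show (u : ℚ_[2]) = z ^ 2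
    exact h.symm
  rw [h3]
  exact unit_sq _ (PadicInt.isUnit_iff.2 h1)

/-- twice a unit is not a square -/
lemma not_sq_two {z : ℚ_[2]} {u : ℤ_[2]} (hu : IsUnit u) (h : z ^ 2 = 2 * (u : ℚ_[2])) : False := by
  have hu0 : (u : ℚ_[2]) ≠ 0 := by
    intro h0
    have := PadicInt.isUnit_iff.1 hu
    rw [PadicInt.norm_def, h0, norm_zero] at this
    exact zero_ne_one this
  have h1 := congrArg Padic.valuation h
  rw [Padic.valuation_pow, Padic.valuation_mul two_ne_zero hu0] at h1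
  have h2 : (2 : ℚ_[2]).valuation = 1 := by exact_mod_cast Padic.valuation_p (p := 2)
  have h3 : (u : ℚ_[2]).valuation = 0 := by
    have h4 := Padic.norm_eq_zpow_neg_valuation hu0
    have h5 : ‖(u : ℚ_[2])‖ = 1 := PadicInt.isUnit_iff.1 hu
    rw [h5] at h4
    have h6 := zpow_right_injective₀ (a := ((2 : ℕ) : ℝ)) (by norm_num) (by norm_num)
      (show ((2 : ℕ) : ℝ) ^ (0 : ℤ) = ((2 : ℕ) : ℝ) ^ (-(u : ℚ_[2]).valuation) by
        rw [zpow_zero]; exact h4)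
    omega
  rw [h2, h3] at h1
  push_cast at h1
  omega

/-- squarefree integers that are squares in `ℚ_2` -/
lemma int_sq {z : ℚ_[2]} {e : ℤ} (he : Squarefree e.natAbs) (h : z ^ 2 = (e : ℚ_[2])) :
    e % 8 = 1 := by
  have hodd : ∀ k : ℤ, k % 2 = 1 → IsUnit ((k : ℤ) : ℤ_[2]) := by
    intro k hk
    rw [PadicInt.isUnit_iff]
    by_contra hcon
    have h1 : ‖(k : ℤ_[2])‖ < 1 := lt_of_le_of_ne (PadicInt.norm_le_one _) hcon
    rw [PadicInt.norm_int_lt_one_iff_dvd] at h1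
    push_cast at h1
    omega
  by_cases h2 : e % 2 = 1
  · have h3 := sq_two (z := z) (hodd e h2) (by rw [h]; push_cast; rfl)
    rw [map_intCast] at h3
    have h4 : ((e - 1 : ℤ) : ZMod (2 ^ 3)) = 0 := by
      push_cast
      rw [h3, sub_self]
    rw [ZMod.intCast_zmod_eq_zero_iff_dvd] at h4
    push_cast at h4
    omega
  · exfalso
    obtain ⟨k, hk⟩ : ∃ k, e = 2 * k := ⟨e / 2, by omega⟩
    have hk2 : k % 2 = 1 := by
      by_contra h5
      obtain ⟨j, hj⟩ : ∃ j, k = 2 * j := ⟨k / 2, by omega⟩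
      have h6 : 2 * 2 ∣ e.natAbs := by
        rw [hk, hj]
        refine ⟨j.natAbs, ?_⟩
        rw [Int.natAbs_mul, Int.natAbs_mul]
        simp
        ring
      have := he 2 h6
      rw [Nat.isUnit_iff] at this
      omega
    exact not_sq_two (z := z) (hodd k hk2) (by rw [h, hk]; push_cast; ring)

/-! ### The norm `2` -/

/-- no solutions modulo `p = 3, 5 mod 8` -/
lemma no_two_int {p : ℕ} [Fact p.Prime] (hp : p % 8 = 3 ∨ p % 8 = 5) {d : ℕ} (hd : p ∣ d)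
    (hd2 : ¬ p ^ 2 ∣ d) : ∀ (n : ℕ) (X Y M : ℤ), M.natAbs = n → X ^ 2 + d * Y ^ 2 = 2 * M ^ 2 →
    M = 0 := by
  have hpp : Prime (p : ℤ) := Nat.prime_iff_prime_int.1 Fact.out
  have hp2 : p ≠ 2 := by rintro rfl; omega
  obtain ⟨d', rfl⟩ := hd
  have hd' : ¬ (p : ℤ) ∣ d' := by
    intro h
    apply hd2
    rw [pow_two]
    exact mul_dvd_mul_left p (Int.natCast_dvd_natCast.1 h)
  intro n
  induction n using Nat.strong_induction_on with
  | _ n ih =>
    intro X Y M hM h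
    by_contra hM0
    have hpM : (p : ℤ) ∣ M := by
      by_contra hcon
      have h1 : ((X : ℤ) : ZMod p) ^ 2 = 2 * ((M : ℤ) : ZMod p) ^ 2 := by
        have h2 := congrArg (fun a : ℤ => (a : ZMod p)) h
        push_cast at h2
        rw [ZMod.natCast_self, zero_mul, zero_mul, add_zero] at h2
        exact h2
      have h3 : ((M : ℤ) : ZMod p) ≠ 0 := by
        intro h0
        exact hcon ((ZMod.intCast_zmod_eq_zero_iff_dvd M p).1 h0)
      have h4 : IsSquare (2 : ZMod p) := by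
        refine ⟨(X : ZMod p) / (M : ZMod p), ?_⟩
        rw [div_mul_div_comm, ← pow_two, ← pow_two, h1]
        field_simp
      rw [ZMod.exists_sq_eq_two_iff hp2] at h4
      omega
    have hpX : (p : ℤ) ∣ X := by
      have h1 : (p : ℤ) ∣ X ^ 2 := by
        have h2 : X ^ 2 = 2 * M ^ 2 - (p : ℤ) * (d' * Y ^ 2) := by
          push_cast at h
          linear_combination h
        rw [h2]
        exact dvd_sub (Dvd.dvd.mul_left (dvd_pow hpM two_ne_zero) _) (dvd_mul_right _ _)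
      exact hpp.dvd_of_dvd_pow h1
    obtain ⟨M', rfl⟩ := hpM
    obtain ⟨X', rfl⟩ := hpX
    have hp0 : (p : ℤ) ≠ 0 := hpp.ne_zero
    have hpY : (p : ℤ) ∣ Y := by
      have h1 : (d' : ℤ) * Y ^ 2 = p * (2 * M' ^ 2 - X' ^ 2) := by
        apply mul_left_cancel₀ hp0
        push_cast at h
        linear_combination h
      have h2 : (p : ℤ) ∣ d' * Y ^ 2 := ⟨_, h1⟩
      exact hpp.dvd_of_dvd_pow ((hpp.dvd_or_dvd h2).resolve_left hd')
    obtain ⟨Y', rfl⟩ := hpY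
    have h5 : M' = 0 := by
      refine ih M'.natAbs ?_ X' Y' M' rfl ?_
      · rw [← hM, Int.natAbs_mul, Int.natAbs_natCast]
        have h6 : M'.natAbs ≠ 0 := by
          intro h7
          apply hM0
          rw [Int.natAbs_eq_zero.1 h7, mul_zero]
        have h7 := (Fact.out : p.Prime).one_lt
        nlinarith [Nat.pos_of_ne_zero h6]
      · have hp20 : (p : ℤ) ^ 2 ≠ 0 := pow_ne_zero 2 hp0
        apply mul_left_cancel₀ hp20
        linear_combination h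
    exact hM0 (by rw [h5, mul_zero])

lemma no_two {p : ℕ} [Fact p.Prime] (hp : p % 8 = 3 ∨ p % 8 = 5) {d : ℕ} (hd : p ∣ d)
    (hd2 : ¬ p ^ 2 ∣ d) {x y m : ℚ} (h : x ^ 2 + d * y ^ 2 = 2 * m ^ 2) : m = 0 := by
  have hx : (x.den : ℚ) ≠ 0 := by exact_mod_cast x.den_ne_zero
  have hy : (y.den : ℚ) ≠ 0 := by exact_mod_cast y.den_ne_zero
  have hm : (m.den : ℚ) ≠ 0 := by exact_mod_cast m.den_ne_zero
  have ex : x = x.num / x.den := (Rat.num_div_den x).symm
  have ey : y = y.num / y.den := (Rat.num_div_den y).symm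
  have em : m = m.num / m.den := (Rat.num_div_den m).symm
  have h1 := no_two_int hp hd hd2 _ (x.num * (y.den * m.den)) (y.num * (x.den * m.den))
    (m.num * (x.den * y.den)) rfl (by
      have h2 : ((x.num * (y.den * m.den) : ℤ) : ℚ) ^ 2 +
          d * ((y.num * (x.den * m.den) : ℤ) : ℚ) ^ 2 =
          2 * ((m.num * (x.den * y.den) : ℤ) : ℚ) ^ 2 := by
        push_cast
        have e1 : (x.num : ℚ) = x * x.den := by rw [eq_comm, ← eq_div_iff hx]; exact ex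
        have e2 : (y.num : ℚ) = y * y.den := by rw [eq_comm, ← eq_div_iff hy]; exact ey
        have e3 : (m.num : ℚ) = m * m.den := by rw [eq_comm, ← eq_div_iff hm]; exact em
        rw [e1, e2, e3]
        linear_combination ((x.den : ℚ) * y.den * m.den) ^ 2 * h
      exact_mod_cast h2)
  have h2 : m.num = 0 := by
    rcases mul_eq_zero.1 h1 with h3 | h3
    · exact h3
    · exfalso
      rcases mul_eq_zero.1 h3 with h4 | h4
      · exact x.den_ne_zero (by exact_mod_cast h4)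
      · exact y.den_ne_zero (by exact_mod_cast h4)
  exact Rat.num_eq_zero.1 h2

/-! ### The norm `2` for primes `q = 7 mod 16` -/

lemma pm_mod : ∀ n : ℕ, n ≠ 0 → (∀ l : ℕ, l.Prime → l ∣ n → l % 8 = 1 ∨ l % 8 = 7) →
    n % 8 = 1 ∨ n % 8 = 7 := by
  intro n
  induction n using Nat.recOnMul with
  | zero => exact fun h => absurd rfl h
  | one => exact fun _ _ => Or.inl rfl
  | prime p hp => exact fun _ h => h p hp (dvd_refl p)
  | mul a b iha ihb =>
    intro h0 h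
    have ha := iha (left_ne_zero_of_mul h0) fun l hl hd => h l hl (Dvd.dvd.mul_right hd _)
    have hb := ihb (right_ne_zero_of_mul h0) fun l hl hd => h l hl (Dvd.dvd.mul_left hd _)
    rw [Nat.mul_mod]
    rcases ha with ha | ha <;> rcases hb with hb | hb <;> rw [ha, hb] <;> decide

lemma sq_mod16 {a : ℤ} (h : a % 8 = 1 ∨ a % 8 = 7) : a ^ 2 % 16 = 1 := by
  obtain ⟨k, hk⟩ : ∃ k, a = 8 * k + 1 ∨ a = 8 * k + 7 := ⟨a / 8, by omega⟩
  rcases hk with rfl | rfl
  · have : (8 * k + 1) ^ 2 = 16 * (4 * k ^ 2 + k) + 1 := by ring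
    omega
  · have : (8 * k + 7) ^ 2 = 16 * (4 * k ^ 2 + 7 * k + 3) + 1 := by ring
    omega

lemma mod8_of_sq {a : ℤ} (h : a ^ 2 % 16 = 1) : a % 8 = 1 ∨ a % 8 = 7 := by
  have h1 : a % 16 = 0 ∨ a % 16 = 1 ∨ a % 16 = 2 ∨ a % 16 = 3 ∨ a % 16 = 4 ∨ a % 16 = 5 ∨
      a % 16 = 6 ∨ a % 16 = 7 ∨ a % 16 = 8 ∨ a % 16 = 9 ∨ a % 16 = 10 ∨ a % 16 = 11 ∨
      a % 16 = 12 ∨ a % 16 = 13 ∨ a % 16 = 14 ∨ a % 16 = 15 := by omega
  rw [pow_two, Int.mul_emod] at h
  rcases h1 with h1 | h1 | h1 | h1 | h1 | h1 | h1 | h1 | h1 | h1 | h1 | h1 | h1 | h1 | h1 | h1 <;>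
    rw [h1] at h <;> omega

lemma mod8_of_sq9 {a : ℤ} (h : a ^ 2 % 16 = 9) : a % 8 = 3 ∨ a % 8 = 5 := by
  have h1 : a % 16 = 0 ∨ a % 16 = 1 ∨ a % 16 = 2 ∨ a % 16 = 3 ∨ a % 16 = 4 ∨ a % 16 = 5 ∨
      a % 16 = 6 ∨ a % 16 = 7 ∨ a % 16 = 8 ∨ a % 16 = 9 ∨ a % 16 = 10 ∨ a % 16 = 11 ∨
      a % 16 = 12 ∨ a % 16 = 13 ∨ a % 16 = 14 ∨ a % 16 = 15 := by omega
  rw [pow_two, Int.mul_emod] at h
  rcases h1 with h1 | h1 | h1 | h1 | h1 | h1 | h1 | h1 | h1 | h1 | h1 | h1 | h1 | h1 | h1 | h1 <;>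
    rw [h1] at h <;> omega

lemma odd_sq_mod8 {a : ℤ} (h : a % 2 = 1) : a ^ 2 % 8 = 1 := by
  obtain ⟨k, rfl⟩ : ∃ k, a = 2 * k + 1 := ⟨a / 2, by omega⟩
  have h1 : (2 * k + 1) ^ 2 = 4 * (k * (k + 1)) + 1 := by ring
  obtain ⟨j, hj⟩ := Int.even_mul_succ_self k
  rw [h1, hj]
  omega

/-- the arithmetic of primitive solutions -/
lemma prim {q : ℕ} (h16 : q % 16 = 7) {X Y M : ℤ} (hXY : IsCoprime X Y)
    (h : X ^ 2 + q * Y ^ 2 = 2 * M ^ 2) : ∃ N : ℤ, M = 2 * N ∧ N ≠ 0 ∧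
      ((N % 2 = 1 ∧ (X % 8 = 1 ∨ X % 8 = 7)) ∨ (N % 2 = 0 ∧ (X % 8 = 3 ∨ X % 8 = 5))) := by
  have hXo : X % 2 = 1 := by
    by_contra hcon
    have hX : (2 : ℤ) ∣ X := by omega
    have hY : (2 : ℤ) ∣ Y := by
      obtain ⟨a, ha⟩ := hX
      have h1 : (2 : ℤ) ∣ q * Y ^ 2 := ⟨M ^ 2 - 2 * a ^ 2, by rw [ha] at h; linear_combination h⟩
      rcases Int.prime_two.dvd_or_dvd h1 with h2 | h2
      · omega
      · exact Int.prime_two.dvd_of_dvd_pow h2
    have := hXY.isUnit_of_dvd' hX hY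
    rw [Int.isUnit_iff] at this
    omega
  have hYo : Y % 2 = 1 := by
    by_contra hcon
    obtain ⟨b, hb⟩ : ∃ b, Y = 2 * b := ⟨Y / 2, by omega⟩
    obtain ⟨a, ha⟩ : ∃ a, X = 2 * a + 1 := ⟨X / 2, by omega⟩
    have : 2 * (2 * a ^ 2 + 2 * a + 2 * q * b ^ 2) + 1 = 2 * M ^ 2 := by
      rw [← h, ha, hb]
      ring
    omega
  have hX8 := odd_sq_mod8 hXo
  have hY8 := odd_sq_mod8 hYo
  obtain ⟨k, hk⟩ : ∃ k : ℤ, (q : ℤ) = 16 * k + 7 := ⟨q / 16, by omega⟩
  obtain ⟨N, hN⟩ : ∃ N, M = 2 * N := by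
    by_contra hcon
    have hM : M % 2 = 1 := by
      by_contra h1
      exact hcon ⟨M / 2, by omega⟩
    have hM8 := odd_sq_mod8 hM
    obtain ⟨a, ha⟩ : ∃ a, X ^ 2 = 8 * a + 1 := ⟨X ^ 2 / 8, by omega⟩
    obtain ⟨b, hb⟩ : ∃ b, Y ^ 2 = 8 * b + 1 := ⟨Y ^ 2 / 8, by omega⟩
    obtain ⟨c, hc⟩ : ∃ c, M ^ 2 = 8 * c + 1 := ⟨M ^ 2 / 8, by omega⟩
    rw [ha, hb, hc, hk] at h
    have : 8 * (a + 16 * k * b + 2 * k + 7 * b + 1) = 2 * (8 * c + 1) := by
      rw [← h]
      ring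
    omega
  have h8 : X ^ 2 + q * Y ^ 2 = 8 * N ^ 2 := by rw [h, hN]; ring
  refine ⟨N, hN, ?_, ?_⟩
  · rintro rfl
    have h1 : 0 < X ^ 2 := by
      have : X ≠ 0 := by rintro rfl; omega
      positivity
    have h2 : 0 ≤ (q : ℤ) * Y ^ 2 := by positivity
    nlinarith
  have hYm : Y.natAbs % 8 = 1 ∨ Y.natAbs % 8 = 7 := by
    apply pm_mod
    · omega
    · intro l hl hd
      have : Fact l.Prime := ⟨hl⟩
      have hl2 : l ≠ 2 := by
        rintro rfl
        omega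
      have hlY : (l : ℤ) ∣ Y := Int.natCast_dvd.2 hd
      have hlp : Prime (l : ℤ) := Nat.prime_iff_prime_int.1 hl
      have hlM : ¬ (l : ℤ) ∣ M := by
        intro h1
        have h2 : (l : ℤ) ∣ X ^ 2 := by
          have : X ^ 2 = 2 * M ^ 2 - q * Y ^ 2 := by linear_combination h
          rw [this]
          exact dvd_sub (Dvd.dvd.mul_left (dvd_pow h1 two_ne_zero) _)
            (Dvd.dvd.mul_left (dvd_pow hlY two_ne_zero) _)
        exact hlp.not_isUnit (hXY.isUnit_of_dvd' (hlp.dvd_of_dvd_pow h2) hlY)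
      have h3 : ((M : ℤ) : ZMod l) ≠ 0 := fun h0 =>
        hlM ((ZMod.intCast_zmod_eq_zero_iff_dvd M l).1 h0)
      have h5 : ((Y : ℤ) : ZMod l) = 0 := (ZMod.intCast_zmod_eq_zero_iff_dvd Y l).2 hlY
      have h4 : IsSquare (2 : ZMod l) := by
        refine ⟨(X : ZMod l) / (M : ZMod l), ?_⟩
        have h6 := congrArg (fun a : ℤ => (a : ZMod l)) h
        push_cast at h6
        rw [h5] at h6
        have h7 : (X : ZMod l) ^ 2 = 2 * (M : ZMod l) ^ 2 := by linear_combination h6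
        rw [div_mul_div_comm, ← pow_two, ← pow_two, h7]
        field_simp
      rwa [ZMod.exists_sq_eq_two_iff hl2] at h4
  have hY16 : Y ^ 2 % 16 = 1 := by
    have := sq_mod16 (a := (Y.natAbs : ℤ)) (by omega)
    rwa [Int.natAbs_sq] at this
  obtain ⟨b, hb⟩ : ∃ b, Y ^ 2 = 16 * b + 1 := ⟨Y ^ 2 / 16, by omega⟩
  rcases (by omega : N % 2 = 1 ∨ N % 2 = 0) with hN2 | hN2
  · left
    refine ⟨hN2, mod8_of_sq ?_⟩
    have hN8 := odd_sq_mod8 hN2
    obtain ⟨c, hc⟩ : ∃ c, N ^ 2 = 8 * c + 1 := ⟨N ^ 2 / 8, by omega⟩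
    have : X ^ 2 = 16 * (4 * c - 16 * k * b - k - 7 * b) + 1 := by
      rw [hb, hc, hk] at h8
      linear_combination h8
    omega
  · right
    refine ⟨hN2, mod8_of_sq9 ?_⟩
    obtain ⟨c, hc⟩ : ∃ c, N = 2 * c := ⟨N / 2, by omega⟩
    have : X ^ 2 = 16 * (2 * c ^ 2 - 16 * k * b - k - 7 * b - 1) + 9 := by
      rw [hb, hc, hk] at h8
      linear_combination h8
    omega

/-- the unit root is `±3` modulo `8` -/
lemma unit_root {X N : ℤ} (h : (N % 2 = 1 ∧ (X % 8 = 1 ∨ X % 8 = 7)) ∨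
    (N % 2 = 0 ∧ (X % 8 = 3 ∨ X % 8 = 5))) {u v : ℤ_[2]} (hu : IsUnit u)
    (h1 : u + v = X) (h2 : u * v = 2 * N ^ 2) :
    PadicInt.toZModPow 3 u = 3 ∨ PadicInt.toZModPow 3 u = 5 := by
  have hU : IsUnit (PadicInt.toZModPow 3 u) := hu.map _
  have e1 := congrArg (PadicInt.toZModPow 3) h1
  have e2 := congrArg (PadicInt.toZModPow 3) h2
  rw [map_add, map_intCast] at e1
  rw [map_mul, map_mul, map_pow, map_intCast, map_ofNat] at e2
  generalize PadicInt.toZModPow 3 u = U at *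
  generalize PadicInt.toZModPow 3 v = V at *
  have hV : V = (X : ZMod (2 ^ 3)) - U := by rw [← e1]; ring
  rw [hV] at e2
  have castX : ∀ k : ℤ, X % 8 = k → (X : ZMod (2 ^ 3)) = (k : ZMod (2 ^ 3)) := by
    intro k hk
    rw [ZMod.intCast_eq_intCast_iff]
    show X % ((2 ^ 3 : ℕ) : ℤ) = k % ((2 ^ 3 : ℕ) : ℤ)
    push_cast
    omega
  rcases h with ⟨hN, hX⟩ | ⟨hN, hX⟩
  · have hN2 : (2 : ZMod (2 ^ 3)) * (N : ZMod (2 ^ 3)) ^ 2 = 2 := by
      have h3 := odd_sq_mod8 hN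
      have h4 : ((N ^ 2 : ℤ) : ZMod (2 ^ 3)) = ((1 : ℤ) : ZMod (2 ^ 3)) := by
        rw [ZMod.intCast_eq_intCast_iff]
        show N ^ 2 % ((2 ^ 3 : ℕ) : ℤ) = 1 % ((2 ^ 3 : ℕ) : ℤ)
        push_cast
        omega
      push_cast at h4
      rw [h4, mul_one]
    rw [hN2] at e2
    rcases hX with hX | hX
    · rw [castX 1 hX] at e2
      push_cast at e2
      clear hV castX e1
      revert U
      decide
    · rw [castX 7 hX] at e2
      push_cast at e2
      clear hV castX e1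
      revert U
      decide
  · have hN2 : (2 : ZMod (2 ^ 3)) * (N : ZMod (2 ^ 3)) ^ 2 = 0 := by
      obtain ⟨c, rfl⟩ : ∃ c, N = 2 * c := ⟨N / 2, by omega⟩
      have h4 : ((2 * (2 * c) ^ 2 : ℤ) : ZMod (2 ^ 3)) = ((0 : ℤ) : ZMod (2 ^ 3)) := by
        rw [ZMod.intCast_eq_intCast_iff]
        show (2 * (2 * c) ^ 2) % ((2 ^ 3 : ℕ) : ℤ) = 0 % ((2 ^ 3 : ℕ) : ℤ)
        push_cast
        have : 2 * (2 * c) ^ 2 = 8 * c ^ 2 := by ring
        omega
      push_cast at h4 ⊢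
      exact h4
    rw [hN2] at e2
    rcases hX with hX | hX
    · rw [castX 3 hX] at e2
      push_cast at e2
      clear hV castX e1
      revert U
      decide
    · rw [castX 5 hX] at e2
      push_cast at e2
      clear hV castX e1
      revert U
      decide

lemma odd_unit {k : ℤ} (hk : k % 2 = 1) : IsUnit ((k : ℤ) : ℤ_[2]) := by
  rw [PadicInt.isUnit_iff]
  by_contra hcon
  have h1 : ‖(k : ℤ_[2])‖ < 1 := lt_of_le_of_ne (PadicInt.norm_le_one _) hcon
  rw [PadicInt.norm_int_lt_one_iff_dvd] at h1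
  push_cast at h1
  omega

/-- `±3` modulo `8`, times `2 ^ j`, is not a square -/
lemma not_sq_pm {w : ℚ_[2]} {u : ℤ_[2]} {e : ℤ} (he : e % 8 = 1 ∨ e % 8 = 7) (hu : IsUnit u)
    (h3 : PadicInt.toZModPow 3 u = 3 ∨ PadicInt.toZModPow 3 u = 5)
    (h : w ^ 2 = (e : ℚ_[2]) * u ∨ w ^ 2 = 2 * ((e : ℚ_[2]) * u)) : False := by
  have heu : IsUnit ((e : ℤ_[2]) * u) := (odd_unit (by omega)).mul hu
  rcases h with h | h
  · have h1 := sq_two heu (by rw [h]; push_cast; rfl)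
    rw [map_mul, map_intCast] at h1
    have cst : ∀ k : ℤ, e % 8 = k → (e : ZMod (2 ^ 3)) = (k : ZMod (2 ^ 3)) := by
      intro k hk
      rw [ZMod.intCast_eq_intCast_iff]
      show e % ((2 ^ 3 : ℕ) : ℤ) = k % ((2 ^ 3 : ℕ) : ℤ)
      push_cast
      omega
    rcases he with he | he <;> rcases h3 with h3 | h3 <;> rw [cst _ he, h3] at h1 <;>
      revert h1 <;> decide
  · exact not_sq_two heu (by rw [h]; push_cast; rfl)

/-- the case of the primes `7` modulo `16` -/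
theorem no_two_prime {q : ℕ} (hq : q.Prime) (h16 : q % 16 = 7) {g : ℚ} (hg : g ≠ 0)
    (hge : ∀ (l : ℕ) [Fact l.Prime], l ≠ 2 → l ≠ q → Even (padicValRat l g))
    {X Y M : ℤ} (hXY : IsCoprime X Y) (h : X ^ 2 + q * Y ^ 2 = 2 * M ^ 2) {S z : ℚ_[2]}
    (hS : S ^ 2 = -(q : ℚ_[2])) (hz : z ^ 2 = (g : ℚ_[2]) * (X + Y * S)) : False := by
  obtain ⟨N, hMN, hN0, hcase⟩ := prim h16 hXY h
  obtain ⟨e, f, hf, he, hge'⟩ := exists_sqf hg
  have hfQ : (f : ℚ_[2]) ≠ 0 := by exact_mod_cast hf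
  -- `e = 2 ^ j e'`
  obtain ⟨e', j, hj, he', hee⟩ : ∃ (e' : ℤ) (j : ℕ), j < 2 ∧ (e' % 8 = 1 ∨ e' % 8 = 7) ∧
      e = 2 ^ j * e' := by
    have hpr : ∀ l : ℕ, l.Prime → l ∣ e.natAbs → l = 2 ∨ l = q := by
      intro l hl hd
      by_contra hcon
      push Not at hcon
      have : Fact l.Prime := ⟨hl⟩
      exact sqf_odd hf he hge' (hge l hcon.1 hcon.2) hd
    have h3 : e.natAbs ∣ 2 * q := by
      have h4 : e.natAbs = ∏ p ∈ e.natAbs.primeFactors, p :=
        (Nat.prod_primeFactors_of_squarefree he).symm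
      rw [h4]
      have h5 : e.natAbs.primeFactors ⊆ {2, q} := by
        intro p hp
        rw [Finset.mem_insert, Finset.mem_singleton]
        exact hpr p (Nat.prime_of_mem_primeFactors hp) (Nat.dvd_of_mem_primeFactors hp)
      have h6 := Finset.prod_dvd_prod_of_subset _ _ (fun p : ℕ => p) h5
      rwa [Finset.prod_pair (by rintro rfl; omega)] at h6
    obtain ⟨a, b, ha, hb, hab⟩ := (Nat.dvd_mul).1 h3
    rcases (Nat.dvd_prime Nat.prime_two).1 ha with rfl | rfl <;>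
      rcases (Nat.dvd_prime hq).1 hb with rfl | rfl
    · exact ⟨e, 0, by norm_num, by omega, by ring⟩
    · exact ⟨e, 0, by norm_num, by omega, by ring⟩
    · rcases Int.natAbs_eq e with h7 | h7
      · exact ⟨1, 1, by norm_num, by omega, by omega⟩
      · exact ⟨-1, 1, by norm_num, by omega, by omega⟩
    · rcases Int.natAbs_eq e with h7 | h7
      · exact ⟨b, 1, by norm_num, by omega, by rw [h7, ← hab]; push_cast; ring⟩
      · exact ⟨-b, 1, by norm_num, by omega, by rw [h7, ← hab]; push_cast; ring⟩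
  -- the two roots
  set A : ℚ_[2] := (X + Y * S) / 2 with hA
  set B : ℚ_[2] := (X - Y * S) / 2 with hB
  have hsum : A + B = X := by rw [hA, hB]; ring
  have hprod : A * B = 2 * (N : ℚ_[2]) ^ 2 := by
    have h1 : ((X : ℤ) : ℚ_[2]) ^ 2 + q * (Y : ℚ_[2]) ^ 2 = 2 * (2 * (N : ℚ_[2])) ^ 2 := by
      have h2 := congrArg (fun a : ℤ => (a : ℚ_[2])) h
      rw [hMN] at h2
      push_cast at h2
      exact h2
    rw [hA, hB]
    linear_combination h1 / 4 - (Y : ℚ_[2]) ^ 2 / 4 * hS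
  have hint : ∀ C : ℚ_[2], C ^ 2 - X * C + 2 * (N : ℚ_[2]) ^ 2 = 0 → ‖C‖ ≤ 1 := by
    intro C hC
    by_contra hcon
    push Not at hcon
    have h1 : C ^ 2 = X * C - 2 * (N : ℚ_[2]) ^ 2 := by linear_combination hC
    have h2 : ‖(X : ℚ_[2]) * C - 2 * (N : ℚ_[2]) ^ 2‖ ≤ max ‖(X : ℚ_[2]) * C‖
        ‖2 * (N : ℚ_[2]) ^ 2‖ := by
      have := Padic.nonarchimedean ((X : ℚ_[2]) * C) (-(2 * (N : ℚ_[2]) ^ 2))
      rwa [norm_neg, ← sub_eq_add_neg] at this
    have h3 : ‖(X : ℚ_[2]) * C‖ ≤ ‖C‖ := by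
      rw [norm_mul]
      have := Padic.norm_int_le_one (p := 2) X
      nlinarith [norm_nonneg C]
    have h4 : ‖2 * (N : ℚ_[2]) ^ 2‖ ≤ 1 := by
      have := Padic.norm_int_le_one (p := 2) (2 * N ^ 2)
      push_cast at this
      exact this
    rw [← h1, norm_pow] at h2
    have h5 : max ‖(X : ℚ_[2]) * C‖ ‖2 * (N : ℚ_[2]) ^ 2‖ ≤ ‖C‖ := max_le h3 (h4.trans hcon.le)
    nlinarith
  have hA1 : ‖A‖ ≤ 1 := hint A (by linear_combination -hprod + A * hsum)
  have hB1 : ‖B‖ ≤ 1 := hint B (by linear_combination -hprod + B * hsum)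
  let A' : ℤ_[2] := ⟨A, hA1⟩
  let B' : ℤ_[2] := ⟨B, hB1⟩
  have hs' : A' + B' = X := by
    apply Subtype.ext
    push_cast
    exact hsum
  have hp' : A' * B' = 2 * (N : ℤ_[2]) ^ 2 := by
    apply Subtype.ext
    push_cast
    exact hprod
  have hXo : X % 2 = 1 := by omega
  have hor : IsUnit A' ∨ IsUnit B' := by
    by_contra hcon
    push Not at hcon
    have h1 : ¬ IsUnit (A' + B') := by
      intro h2
      rcases IsLocalRing.isUnit_or_isUnit_of_isUnit_add h2 with h3 | h3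
      · exact hcon.1 h3
      · exact hcon.2 h3
    rw [hs'] at h1
    exact h1 (odd_unit hXo)
  have hzf : (z / f) ^ 2 = 2 ^ (j + 1) * ((e' : ℚ_[2]) * A) := by
    rw [div_pow, hz, hge', hee]
    push_cast
    field_simp
    rw [hA]
    ring
  have hN0' : (N : ℚ_[2]) ≠ 0 := by exact_mod_cast hN0
  rcases hor with hu | hu
  · have h3 := unit_root hcase hu hs' hp'
    rcases (by omega : j = 0 ∨ j = 1) with rfl | rfl
    · exact not_sq_pm he' hu h3 (w := z / f) (Or.inr (by rw [hzf]; ring))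
    · refine not_sq_pm he' hu h3 (w := z / f / 2) (Or.inl ?_)
      rw [div_pow, hzf]
      show _ = (e' : ℚ_[2]) * A
      ring
  · have h3 := unit_root hcase hu (by rw [add_comm]; exact hs') (by rw [mul_comm]; exact hp')
    have hB0 : B ≠ 0 := by
      intro h0
      have := PadicInt.isUnit_iff.1 hu
      rw [PadicInt.norm_def] at this
      have h4 : (B' : ℚ_[2]) = 0 := h0
      rw [h4, norm_zero] at this
      exact zero_ne_one this
    have hAB : A = 2 * (N : ℚ_[2]) ^ 2 / B := by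
      rw [eq_div_iff hB0]
      exact hprod
    have hw : (z / f * B / (2 * N)) ^ 2 = 2 ^ j * ((e' : ℚ_[2]) * B) := by
      rw [div_pow, mul_pow, hzf, hAB]
      field_simp
      ring
    rcases (by omega : j = 0 ∨ j = 1) with rfl | rfl
    · refine not_sq_pm he' hu h3 (w := z / f * B / (2 * N)) (Or.inl ?_)
      rw [hw]
      show _ = (e' : ℚ_[2]) * B
      ring
    · refine not_sq_pm he' hu h3 (w := z / f * B / (2 * N)) (Or.inr ?_)
      rw [hw]
      show _ = 2 * ((e' : ℚ_[2]) * B)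
      ring

end Pool.Agent.Z384
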