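import Pool.Agent.R384.Z.Pot

/-!
# Representations of the Galois groups of the fields in the `2`-extensions unramified outside `2`
-/

set_option autoImplicit false
set_option linter.unusedSectionVars false

namespace Pool.Agent.Z384

open Pool.Agent.Y715.Red Pool.Agent.Y715.Nr Pool.Agent.W237.RK
open Pool.Agent.Y715.Gi (QB KK GK i₀_mem gk_fix)
open Pool.Agent.Y715.Df (Cmp exists_cmp gh)
open IsLocalRing Matrix

variable {s : QB} {d : ℕ} (hs : s ^ 2 = -(d : QB))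
variable {A : Type*} [CommRing A] [IsLocalRing A] [IsNoetherianRing A] [TopologicalSpace A] {n : ℕ}

include hs in
/-- **The decomposition groups above `2` are dense in the images.** -/
theorem dense (hF : Fld d) {H N : Subgroup (GK s)} (hNH : N ≤ H) (hNn : N.Normal)
    (hNi : ∃ a : ℕ, N.index = 2 ^ a) (hNo : IsOpen (N : Set (GK s)))
    (hur : ∀ (p : ℕ) [Fact p.Prime] (ι : QB →ₐ[ℚ] PadicAlgCl p), p ≠ 2 →
      ∀ σ ∈ (II ι : Set (GK s)), σ ∈ N)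
    (hA : IsAdic (maximalIdeal A)) (hfin : Finite (ResidueField A)) (h2 : (2 : A) ∈ maximalIdeal A)
    {ρ : H →* GL (Fin n) A}
    (hρ : ∀ i j, Continuous fun σ => (ρ σ : Matrix (Fin n) (Fin n) A) i j)
    (hres : ∀ σ, ∃ M : ℕ, InI (maximalIdeal A) (((ρ σ : Matrix (Fin n) (Fin n) A) - 1) ^ M))
    (hu : ∀ (p : ℕ) [Fact p.Prime] (ι : QB →ₐ[ℚ] PadicAlgCl p), p ≠ 2 →
      ∀ σ : H, (σ : GK s) ∈ (II ι : Set (GK s)) → ρ σ = 1)
    (ι₀ : QB →ₐ[ℚ] PadicAlgCl 2) (m : ℕ) (g : H) :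
    ∃ δ ∈ (DDs ι₀).subgroupOf H, δ⁻¹ * g ∈ cong ρ m := by
  obtain ⟨b, hb⟩ := cong_index h2 hfin ρ hres m
  obtain ⟨δ, hδ, hδg⟩ := surjH hs hF hNH hNn hNi hNo hur (cong_normal ρ m) hb (cong_open hA hρ m)
    (fun p _ ι hp σ hσ => by
      show GeneralLinearGroup.map (n := Fin n) (Ideal.Quotient.mk (maximalIdeal A ^ m)) (ρ σ) = 1
      rw [hu p ι hp σ hσ, map_one]) ι₀ g
  exact ⟨δ, hδ, hδg⟩

include hs in
/-- **Irreducible representations which potentially contain a line at one place above `2`.** -/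
theorem fmline (hF : Fld d) {H N : Subgroup (GK s)} (hNH : N ≤ H) (hNn : N.Normal)
    (hNi : ∃ a : ℕ, N.index = 2 ^ a) (hNo : IsOpen (N : Set (GK s)))
    (hur : ∀ (p : ℕ) [Fact p.Prime] (ι : QB →ₐ[ℚ] PadicAlgCl p), p ≠ 2 →
      ∀ σ ∈ (II ι : Set (GK s)), σ ∈ N)
    (hA : IsAdic (maximalIdeal A)) (hfin : Finite (ResidueField A)) (h2 : (2 : A) ∈ maximalIdeal A)
    {F : Type*} [Field F] [Algebra A F] [IsFractionRing A F]
    {ρ : H →* GL (Fin n) A}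
    (hρ : ∀ i j, Continuous fun σ => (ρ σ : Matrix (Fin n) (Fin n) A) i j)
    (hres : ∀ σ, ∃ M : ℕ, InI (maximalIdeal A) (((ρ σ : Matrix (Fin n) (Fin n) A) - 1) ^ M))
    (hu : ∀ (p : ℕ) [Fact p.Prime] (ι : QB →ₐ[ℚ] PadicAlgCl p), p ≠ 2 →
      ∀ σ : H, (σ : GK s) ∈ (II ι : Set (GK s)) → ρ σ = 1)
    (ι₀ : QB →ₐ[ℚ] PadicAlgCl 2)
    {D' : Subgroup H} {R : Set H} (hRf : R.Finite)
    (hR : ∀ δ : H, (δ : GK s) ∈ (DD ι₀ : Set (GK s)) → ∃ r ∈ R, r⁻¹ * δ ∈ D')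
    (hirr : Irr F ρ)
    {v : Fin n → F} (hv : v ≠ 0) (hD' : ∀ δ ∈ D', ∃ c : F, act F ρ δ v = c • v) :
    ∃ S : Subgroup H, S.Normal ∧ S.FiniteIndex ∧ IsOpen (S : Set H) ∧
      (∀ σ ∈ S, ∀ τ ∈ S, ρ σ * ρ τ = ρ τ * ρ σ) :=
  pot_ab hA hρ (D := (DDs ι₀).subgroupOf H)
    (dense hs hF hNH hNn hNi hNo hur hA hfin h2 hρ hres hu ι₀) hRf (fun δ hδ => hR δ hδ) hirr hv hD'

end Pool.Agent.Z384
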