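import Pool.Agent.R384.Z.Tow

/-!
# The decomposition groups at the places above `2` generate the images of the representations
-/

set_option autoImplicit false
set_option linter.unusedSectionVars false

namespace Pool.Agent.Z384

open Pool.Agent.Y715.Red Pool.Agent.Y715.Nr Pool.Agent.W237.RK
open Pool.Agent.Y715.Gi (QB KK GK i₀_mem gk_fix)
open Pool.Agent.Y715.Df (Cmp exists_cmp gh)
open IsLocalRing Matrix

/-- a proper subgroup of a finite `2`-group is contained in a subgroup of index `2` -/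
lemma exists_idx {P : Type*} [Group P] [Finite P] {a : ℕ} (hP : Nat.card P = 2 ^ a)
    {Q : Subgroup P} (hQ : Q ≠ ⊤) : ∃ K : Subgroup P, K.index = 2 ∧ Q ≤ K := by
  obtain ⟨m, hm, hQm⟩ := (Nat.dvd_prime_pow Nat.prime_two).1 (hP ▸ Subgroup.card_subgroup_dvd_card Q)
  have hma : m ≠ a := by
    rintro rfl
    exact hQ (Subgroup.eq_top_of_card_eq Q (by rw [hQm, hP]))
  obtain ⟨b, rfl⟩ : ∃ b, a = b + 1 := ⟨a - 1, by omega⟩
  have : Fact (Nat.Prime 2) := ⟨Nat.prime_two⟩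
  obtain ⟨K, hK, hQK⟩ := Sylow.exists_subgroup_card_pow_prime_le (G := P) 2 (n := m) (m := b)
    (by rw [hP]; exact pow_dvd_pow _ (by omega)) Q hQm (by omega)
  refine ⟨K, ?_, hQK⟩
  have h1 := K.card_mul_index
  rw [hK, hP, pow_succ] at h1
  exact Nat.eq_of_mul_eq_mul_left (by positivity) h1

section sur

variable {s : QB} {d : ℕ} (hs : s ^ 2 = -(d : QB))

include hs in
/-- **Surjectivity** of the decomposition group onto the `2`-groups. -/
theorem surj (hF : Fld d) {U : Subgroup (GK s)} (hUn : U.Normal) {a : ℕ} (hUi : U.index = 2 ^ a)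
    (hUo : IsOpen (U : Set (GK s)))
    (hur : ∀ (p : ℕ) [Fact p.Prime] (ι : QB →ₐ[ℚ] PadicAlgCl p), p ≠ 2 →
      ∀ σ ∈ (II ι : Set (GK s)), σ ∈ U)
    (ι₀ : QB →ₐ[ℚ] PadicAlgCl 2) (g : GK s) :
    ∃ δ : GK s, δ ∈ (DD ι₀ : Set (GK s)) ∧ δ⁻¹ * g ∈ U := by
  classical
  have hUf : U.FiniteIndex := ⟨by rw [hUi]; positivity⟩
  have hfin : Finite (GK s ⧸ U) := inferInstance
  set Q : Subgroup (GK s ⧸ U) := (DDs ι₀).map (QuotientGroup.mk' U) with hQ
  by_cases h : Q = ⊤
  · have h1 : (QuotientGroup.mk' U g) ∈ Q := by rw [h]; trivial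
    obtain ⟨δ, hδ, hδg⟩ := h1
    exact ⟨δ, hδ, QuotientGroup.eq.1 hδg⟩
  · exfalso
    obtain ⟨K, hK, hQK⟩ := exists_idx (P := GK s ⧸ U) (a := a) (by
      rw [← hUi]; rfl) h
    have hmul : ∀ x y : GK s ⧸ U, x * y ∈ K ↔ (x ∈ K ↔ y ∈ K) :=
      fun x y => Subgroup.mul_mem_iff_of_index_two hK
    have h2 := key hs hF (fun σ => if (QuotientGroup.mk' U σ) ∈ K then 0 else 1) ?_ ?_ ?_ ι₀ ?_
    · have h3 : K = ⊤ := by
        refine eq_top_iff.2 fun x _ => ?_
        obtain ⟨σ, rfl⟩ := QuotientGroup.mk'_surjective U x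
        by_contra h4
        have h5 := h2 σ
        simp only [h4, if_false] at h5
        exact one_ne_zero h5
      rw [h3, Subgroup.index_top] at hK
      exact absurd hK (by decide)
    · refine IsLocallyConstant.iff_exists_open _ |>.2 fun σ => ?_
      refine ⟨(fun τ => σ⁻¹ * τ) ⁻¹' (U : Set (GK s)), hUo.preimage (continuous_const.mul continuous_id),
        by simp, fun τ hτ => ?_⟩
      have e : QuotientGroup.mk' U τ = QuotientGroup.mk' U σ := (QuotientGroup.eq.2 hτ).symm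
      show (if (QuotientGroup.mk' U τ) ∈ K then (0 : ZMod 2) else 1) = _
      rw [e]
    · intro σ τ
      show (if (QuotientGroup.mk' U (σ * τ)) ∈ K then (0 : ZMod 2) else 1) = _
      rw [map_mul]
      have h5 := hmul (QuotientGroup.mk' U σ) (QuotientGroup.mk' U τ)
      by_cases h6 : QuotientGroup.mk' U σ ∈ K <;> by_cases h7 : QuotientGroup.mk' U τ ∈ K <;>
        simp only [h6, h7, iff_true, iff_false, not_true, if_true, if_false] at h5 ⊢ <;>
        simp only [h5, if_true, if_false] <;> rfl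
    · intro p _ ι hp σ hσ
      have e : QuotientGroup.mk' U σ = 1 := (QuotientGroup.eq_one_iff σ).2 (hur p ι hp σ hσ)
      show (if (QuotientGroup.mk' U σ) ∈ K then (0 : ZMod 2) else 1) = 0
      rw [e, if_pos (one_mem K)]
    · intro σ hσ
      show (if (QuotientGroup.mk' U σ) ∈ K then (0 : ZMod 2) else 1) = 0
      rw [if_pos (hQK ⟨σ, hσ, rfl⟩)]

include hs in
/-- **Surjectivity** for the fields in the `2`-extensions unramified outside `2`. -/
theorem surjH (hF : Fld d) {H N : Subgroup (GK s)} (hNH : N ≤ H) (hNn : N.Normal)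
    (hNi : ∃ a : ℕ, N.index = 2 ^ a) (hNo : IsOpen (N : Set (GK s)))
    (hur : ∀ (p : ℕ) [Fact p.Prime] (ι : QB →ₐ[ℚ] PadicAlgCl p), p ≠ 2 →
      ∀ σ ∈ (II ι : Set (GK s)), σ ∈ N)
    {U : Subgroup H} (hUn : U.Normal) {b : ℕ} (hUi : U.index = 2 ^ b)
    (hUo : IsOpen (U : Set H))
    (hu : ∀ (p : ℕ) [Fact p.Prime] (ι : QB →ₐ[ℚ] PadicAlgCl p), p ≠ 2 →
      ∀ σ : H, (σ : GK s) ∈ (II ι : Set (GK s)) → σ ∈ U)
    (ι₀ : QB →ₐ[ℚ] PadicAlgCl 2) (h : H) :
    ∃ δ : H, (δ : GK s) ∈ (DD ι₀ : Set (GK s)) ∧ δ⁻¹ * h ∈ U := by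
  obtain ⟨a, hNi⟩ := hNi
  have hNf : N.FiniteIndex := ⟨by rw [hNi]; positivity⟩
  have hHf : H.FiniteIndex := Subgroup.finiteIndex_of_le hNH
  have hHo : IsOpen (H : Set (GK s)) := Subgroup.isOpen_mono hNH hNo
  have hUf : U.FiniteIndex := ⟨by rw [hUi]; positivity⟩
  set W : Subgroup (GK s) := U.map H.subtype ⊓ N with hW
  have hWo : IsOpen (W : Set (GK s)) := by
    refine IsOpen.inter ?_ hNo
    exact hHo.isOpenEmbedding_subtypeVal.isOpenMap _ hUo
  have hmf : (U.map H.subtype).FiniteIndex := ⟨by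
    rw [Subgroup.index_map_subtype]
    exact mul_ne_zero hUf.index_ne_zero hHf.index_ne_zero⟩
  have hWf : W.FiniteIndex := inferInstance
  have hCf : W.normalCore.FiniteIndex := inferInstance
  have hWc : IsClosed (W : Set (GK s)) := Subgroup.isClosed_of_isOpen _ hWo
  have hCo : IsOpen (W.normalCore : Set (GK s)) :=
    Subgroup.isOpen_of_isClosed_of_finiteIndex _ (W.normalCore_isClosed hWc)
  have hCn : W.normalCore.Normal := W.normalCore_normal
  have hp2 : IsPGroup 2 (GK s ⧸ W.normalCore) := by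
    intro x
    obtain ⟨g, rfl⟩ := QuotientGroup.mk_surjective x
    refine ⟨a + b, ?_⟩
    rw [← QuotientGroup.mk_pow]
    refine (QuotientGroup.eq_one_iff _).2 ?_
    intro r
    have h1 : r * g ^ 2 ^ a * r⁻¹ ∈ N := by
      refine hNn.conj_mem _ ?_ r
      rw [← hNi]
      exact N.pow_index_mem g
    have e : r * g ^ 2 ^ (a + b) * r⁻¹ = (r * g ^ 2 ^ a * r⁻¹) ^ 2 ^ b := by
      rw [conj_pow, ← pow_mul, ← pow_add]
    rw [e]
    refine ⟨?_, pow_mem h1 _⟩
    refine ⟨(⟨r * g ^ 2 ^ a * r⁻¹, hNH h1⟩ : H) ^ 2 ^ b, ?_, rfl⟩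
    rw [← hUi]
    exact U.pow_index_mem _
  obtain ⟨c, hc⟩ := IsPGroup.iff_card.1 hp2
  obtain ⟨δ, hδ, hδU⟩ := surj hs hF hCn (a := c) hc hCo (fun p _ ι hp σ hσ => by
    intro r
    have h1 : r * σ * r⁻¹ ∈ (II (ι.comp (gh r⁻¹)) : Set (GK s)) := by
      have := II_conj hσ r⁻¹
      rwa [inv_inv] at this
    have h2 : r * σ * r⁻¹ ∈ N := hur p _ hp _ h1
    exact ⟨⟨⟨r * σ * r⁻¹, hNH h2⟩, hu p _ hp _ h1, rfl⟩, h2⟩) ι₀ (h : GK s)
  have h3 : δ⁻¹ * (h : GK s) ∈ W := W.normalCore_le hδU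
  obtain ⟨⟨u, hu1, hu2⟩, h4⟩ := h3
  have hu2' : (u : GK s) = δ⁻¹ * h := hu2
  have hδH : δ = h * (u : GK s)⁻¹ := by rw [hu2']; group
  refine ⟨⟨δ, by rw [hδH]; exact mul_mem h.2 (inv_mem u.2)⟩, hδ, ?_⟩
  have e : (⟨δ, by rw [hδH]; exact mul_mem h.2 (inv_mem u.2)⟩ : H)⁻¹ * h = u :=
    Subtype.ext hu2'.symm
  rw [e]
  exact hu1

end sur

/-! ### Representations over local rings -/

section mat

variable {A : Type*} [CommRing A] {n : ℕ}

/-- all entries are in the ideal -/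
def InI (I : Ideal A) (Z : Matrix (Fin n) (Fin n) A) : Prop := ∀ i j, Z i j ∈ I

lemma InI.mul {I J : Ideal A} {Z W : Matrix (Fin n) (Fin n) A} (hZ : InI I Z) (hW : InI J W) :
    InI (I * J) (Z * W) := fun i j => by
  rw [Matrix.mul_apply]
  exact Ideal.sum_mem _ fun k _ => Ideal.mul_mem_mul (hZ i k) (hW k j)

lemma InI.mulL {I : Ideal A} {Z : Matrix (Fin n) (Fin n) A} (hZ : InI I Z)
    (W : Matrix (Fin n) (Fin n) A) : InI I (W * Z) := fun i j => by
  rw [Matrix.mul_apply]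
  exact Ideal.sum_mem _ fun k _ => Ideal.mul_mem_left _ _ (hZ k j)

lemma InI.add {I : Ideal A} {Z W : Matrix (Fin n) (Fin n) A} (hZ : InI I Z) (hW : InI I W) :
    InI I (Z + W) := fun i j => add_mem (hZ i j) (hW i j)

lemma InI.mono {I J : Ideal A} (h : I ≤ J) {Z : Matrix (Fin n) (Fin n) A} (hZ : InI I Z) :
    InI J Z := fun i j => h (hZ i j)

variable [IsLocalRing A]

lemma lift2 (h2 : (2 : A) ∈ maximalIdeal A) {X : Matrix (Fin n) (Fin n) A}
    (hX : InI (maximalIdeal A) (X - 1)) (m : ℕ) : InI (maximalIdeal A ^ (m + 1)) (X ^ 2 ^ m - 1) := by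
  induction m with
  | zero => simpa using hX
  | succ m ih =>
    have e : X ^ 2 ^ (m + 1) - 1 = (2 : A) • (X ^ 2 ^ m - 1) + (X ^ 2 ^ m - 1) * (X ^ 2 ^ m - 1) := by
      rw [pow_succ 2 m, pow_mul, two_smul]
      noncomm_ring
    rw [e]
    refine InI.add (fun i j => ?_) ((ih.mul ih).mono ?_)
    · show (2 : A) * ((X ^ 2 ^ m - 1 : Matrix (Fin n) (Fin n) A) i j) ∈ _
      rw [mul_comm (2 : A), pow_succ]
      exact Ideal.mul_mem_mul (ih i j) h2
    · rw [← pow_add]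
      exact Ideal.pow_le_pow_right (by omega)

lemma lift1 (h2 : (2 : A) ∈ maximalIdeal A) {X : Matrix (Fin n) (Fin n) A} {N : ℕ}
    (hX : InI (maximalIdeal A) ((X - 1) ^ N)) : InI (maximalIdeal A) (X ^ 2 ^ N - 1) := by
  set f : Matrix (Fin n) (Fin n) A →+* Matrix (Fin n) (Fin n) (ResidueField A) :=
    (residue A).mapMatrix with hf
  have hz : ∀ Z : Matrix (Fin n) (Fin n) A, InI (maximalIdeal A) Z ↔ f Z = 0 := by
    intro Z
    constructor
    · intro h
      ext i j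
      exact (residue_eq_zero_iff _).2 (h i j)
    · intro h i j
      exact (residue_eq_zero_iff _).1 (congrFun (congrFun h i) j)
  have hc : CharP (ResidueField A) 2 := by
    refine CharTwo.of_one_ne_zero_of_two_eq_zero one_ne_zero ?_
    have : residue A (2 : A) = 0 := (residue_eq_zero_iff _).2 h2
    rwa [map_ofNat] at this
  rw [hz] at hX ⊢
  have hc2 : CharP (Matrix (Fin n) (Fin n) (ResidueField A)) 2 ∨ n = 0 := by
    rcases Nat.eq_zero_or_pos n with h | h
    · exact Or.inr h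
    · have : Nonempty (Fin n) := ⟨⟨0, h⟩⟩
      exact Or.inl inferInstance
  rcases hc2 with hc2 | hn
  · rw [map_sub, map_pow, map_one] at *
    have h3 : (f X - 1) ^ 2 ^ N = f X ^ 2 ^ N - 1 := by
      have := sub_pow_char_pow_of_commute 2 N (Commute.one_right (f X))
      rwa [one_pow] at this
    rw [← h3]
    obtain ⟨k, hk⟩ : ∃ k, 2 ^ N = N + k := ⟨2 ^ N - N, by have := Nat.lt_two_pow_self (n := N); omega⟩
    rw [hk, pow_add]
    have h4 : (f X - 1) ^ N = 0 := by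
      have := hX
      rwa [map_sub, map_one] at this
    rw [h4, zero_mul]
  · subst hn
    exact Subsingleton.elim _ _

end mat

section rep

variable {A : Type*} [CommRing A] [IsLocalRing A] [IsNoetherianRing A] {n : ℕ}
variable {G : Type*} [Group G]

/-- the elements whose matrix is the identity modulo `𝔪 ^ m` -/
def cong (ρ : G →* GL (Fin n) A) (m : ℕ) : Subgroup G :=
  ((GeneralLinearGroup.map (n := Fin n) (Ideal.Quotient.mk (maximalIdeal A ^ m))).comp ρ).ker

lemma mem_cong {ρ : G →* GL (Fin n) A} {m : ℕ} {g : G} :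
    g ∈ cong ρ m ↔ InI (maximalIdeal A ^ m) ((ρ g : Matrix (Fin n) (Fin n) A) - 1) := by
  constructor
  · intro h i j
    have h1 : GeneralLinearGroup.map (n := Fin n) (Ideal.Quotient.mk (maximalIdeal A ^ m)) (ρ g) = 1 := h
    have h2 := congrArg (fun u : GL (Fin n) (A ⧸ maximalIdeal A ^ m) =>
      (u : Matrix (Fin n) (Fin n) (A ⧸ maximalIdeal A ^ m)) i j) h1
    rw [Matrix.sub_apply, ← Ideal.Quotient.eq_zero_iff_mem, map_sub]
    have h3 : Ideal.Quotient.mk (maximalIdeal A ^ m) ((ρ g : Matrix (Fin n) (Fin n) A) i j) =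
      (1 : Matrix (Fin n) (Fin n) (A ⧸ maximalIdeal A ^ m)) i j := h2
    rw [h3, Matrix.one_apply, Matrix.one_apply]
    split_ifs <;> simp
  · intro h
    show GeneralLinearGroup.map (n := Fin n) (Ideal.Quotient.mk (maximalIdeal A ^ m)) (ρ g) = 1
    apply Units.ext
    ext i j
    have h1 := h i j
    rw [Matrix.sub_apply, ← Ideal.Quotient.eq_zero_iff_mem, map_sub, sub_eq_zero] at h1
    show Ideal.Quotient.mk (maximalIdeal A ^ m) ((ρ g : Matrix (Fin n) (Fin n) A) i j) =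
      (1 : Matrix (Fin n) (Fin n) (A ⧸ maximalIdeal A ^ m)) i j
    rw [h1, Matrix.one_apply, Matrix.one_apply]
    split_ifs <;> simp

lemma cong_normal (ρ : G →* GL (Fin n) A) (m : ℕ) : (cong ρ m).Normal := MonoidHom.normal_ker _

lemma cong_index (h2 : (2 : A) ∈ maximalIdeal A) (hfin : Finite (ResidueField A))
    (ρ : G →* GL (Fin n) A)
    (hres : ∀ σ, ∃ N : ℕ, InI (maximalIdeal A) (((ρ σ : Matrix (Fin n) (Fin n) A) - 1) ^ N)) (m : ℕ) :
    ∃ b : ℕ, (cong ρ m).index = 2 ^ b := by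
  have hf1 : Finite (A ⧸ maximalIdeal A) := hfin
  have hf2 : Finite (A ⧸ maximalIdeal A ^ m) :=
    Ideal.finite_quotient_pow (IsNoetherian.noetherian (maximalIdeal A)) m
  have hf3 : Finite (Matrix (Fin n) (Fin n) (A ⧸ maximalIdeal A ^ m)) := inferInstance
  have hf4 : Finite (GL (Fin n) (A ⧸ maximalIdeal A ^ m)) := Finite.of_injective
    (fun u : GL (Fin n) (A ⧸ maximalIdeal A ^ m) =>
      (u : Matrix (Fin n) (Fin n) (A ⧸ maximalIdeal A ^ m))) Units.val_injective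
  have hf5 : (cong ρ m).FiniteIndex := by
    unfold cong
    infer_instance
  have hn := cong_normal ρ m
  have hp : IsPGroup 2 (G ⧸ cong ρ m) := by
    intro x
    obtain ⟨g, rfl⟩ := QuotientGroup.mk_surjective x
    obtain ⟨N, hN⟩ := hres g
    refine ⟨N + m, ?_⟩
    rw [← QuotientGroup.mk_pow]
    refine (QuotientGroup.eq_one_iff _).2 (mem_cong.2 ?_)
    have h3 := lift2 h2 (lift1 h2 hN) m
    have e : (ρ (g ^ 2 ^ (N + m)) : Matrix (Fin n) (Fin n) A) =
        ((ρ g : Matrix (Fin n) (Fin n) A) ^ 2 ^ N) ^ 2 ^ m := by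
      rw [map_pow, Units.val_pow_eq_pow_val, ← pow_mul, ← pow_add]
    rw [e]
    exact h3.mono (Ideal.pow_le_pow_right (by omega))
  obtain ⟨b, hb⟩ := IsPGroup.iff_card.1 hp
  exact ⟨b, hb⟩

lemma cong_open [TopologicalSpace G] [TopologicalSpace A] (hA : IsAdic (maximalIdeal A))
    {ρ : G →* GL (Fin n) A} (hρ : ∀ i j, Continuous fun σ => (ρ σ : Matrix (Fin n) (Fin n) A) i j)
    (m : ℕ) : IsOpen (cong ρ m : Set G) := by
  have hopen' : ∀ a : A, IsOpen {x : A | x - a ∈ maximalIdeal A ^ m} := by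
    intro a
    rw [isOpen_iff_mem_nhds]
    intro x hx
    refine ((hA.hasBasis_nhds x).mem_iff).2 ⟨m, trivial, ?_⟩
    rintro _ ⟨y, hy, rfl⟩
    show x + y - a ∈ maximalIdeal A ^ m
    have e : x + y - a = (x - a) + y := by ring
    rw [e]
    exact add_mem hx hy
  have e : (cong ρ m : Set G) = ⋂ i, ⋂ j, (fun σ => (ρ σ : Matrix (Fin n) (Fin n) A) i j) ⁻¹'
      {x | x - (1 : Matrix (Fin n) (Fin n) A) i j ∈ maximalIdeal A ^ m} := by
    ext g
    simp only [Set.mem_iInter, Set.mem_preimage, Set.mem_ofPred_eq]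
    exact mem_cong
  rw [e]
  exact isOpen_iInter_of_finite fun i => isOpen_iInter_of_finite fun j =>
    (hopen' _).preimage (hρ i j)

/-- Krull's intersection theorem -/
lemma krull (W : Submodule A (Fin n → A)) {v : Fin n → A}
    (h : ∀ m : ℕ, ∃ w ∈ W, ∀ i, v i - w i ∈ maximalIdeal A ^ m) : v ∈ W := by
  have hfin : Module.Finite A ((Fin n → A) ⧸ W) := inferInstance
  have h1 := Ideal.iInf_pow_smul_eq_bot_of_isLocalRing (R := A) (M := (Fin n → A) ⧸ W)
    (maximalIdeal A) (Ideal.IsPrime.ne_top inferInstance)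
  have h2 : W.mkQ v ∈ (⨅ i : ℕ, maximalIdeal A ^ i • ⊤ : Submodule A ((Fin n → A) ⧸ W)) := by
    rw [Submodule.mem_iInf]
    intro m
    obtain ⟨w, hw, hvw⟩ := h m
    have e : W.mkQ v = W.mkQ (v - w) := by
      rw [map_sub]
      have : W.mkQ w = 0 := (Submodule.Quotient.mk_eq_zero W).2 hw
      rw [this, sub_zero]
    rw [e]
    have e2 : v - w = ∑ i, (v i - w i) • (Pi.single i 1 : Fin n → A) := by
      ext j
      rw [Finset.sum_apply]
      simp [Pi.single_apply]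
    rw [e2, map_sum]
    refine Submodule.sum_mem _ fun i _ => ?_
    rw [map_smul]
    exact Submodule.smul_mem_smul (hvw i) trivial
  rw [h1, Submodule.mem_bot] at h2
  exact (Submodule.Quotient.mk_eq_zero W).1 h2

end rep

end Pool.Agent.Z384
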