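import Pool.Agent.R384.Z.Lt

/-!
# Combinations which are trivial at the places above one of the primes above `2`
-/

set_option autoImplicit false
set_option linter.unusedSectionVars false

namespace Pool.Agent.Z384

open Pool.Agent.Y715.Red Pool.Agent.Y715.Nr Pool.Agent.W237.RK
open Pool.Agent.Y715.Gi (QB KK GK i₀_mem gk_fix norm_two')
open Pool.Agent.Y715.Df (Cmp exists_cmp gh)
open Pool.Agent.R384 (cyc cyc_cont cyc_spec dvd_cast exists_int exists_lim eq_of_dvd cyc_inert)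

open scoped Classical

variable {s : QB}

/-- the cyclotomic character as a matrix -/
noncomputable def cm (H : Subgroup (GK s)) : H →* Matrix Unit Unit ℤ_[2] :=
  (Matrix.scalar Unit).toMonoidHom.comp ((Units.coeHom ℤ_[2]).comp ((cyc s).comp H.subtype))

lemma cm_apply {H : Subgroup (GK s)} (σ : H) :
    cm H σ = Matrix.diagonal fun _ => ((cyc s (σ : GK s) : ℤ_[2]ˣ) : ℤ_[2]) := rfl

lemma av_cm {H : Subgroup (GK s)} (σ : H) (v : Unit → ℚ_[2]) :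
    av (cm H) σ v = fun _ => (((cyc s (σ : GK s) : ℤ_[2]ˣ) : ℤ_[2]) : ℚ_[2]) * v () := by
  funext u
  unfold av
  rw [cm_apply, Matrix.diagonal_map (by rfl), Matrix.mulVec_diagonal]

variable {d : ℕ} (hs : s ^ 2 = -(d : QB)) {ζ : ℕ → QB} (hζ : Zt ζ) {r : ℕ} {t : Fin r → ℕ → QB}
  (ht : ∀ i, Rt (t i)) (h0 : ∀ i, t i 0 ≠ 0)

include hs hζ ht h0 in
/-- **The global triviality.** -/
theorem glo (hF : Fld d) {H N : Subgroup (GK s)} (hNH : N ≤ H) (hNn : N.Normal)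
    {a : ℕ} (hNi : N.index = 2 ^ a) (hNo : IsOpen (N : Set (GK s)))
    (hur : ∀ (p : ℕ) [Fact p.Prime] (ι : QB →ₐ[ℚ] PadicAlgCl p), p ≠ 2 →
      ∀ σ ∈ (II ι : Set (GK s)), σ ∈ N)
    (hH : ∀ σ : H, ∀ i, (σ : GK s) (t i 0) = t i 0)
    (hun : ∀ (p : ℕ) [Fact p.Prime] (ι : QB →ₐ[ℚ] PadicAlgCl p), p ≠ 2 → ∀ i, ‖ι (t i 0)‖ = 1)
    (b : Fin r → ℤ_[2]) (ι₀ : QB →ₐ[ℚ] PadicAlgCl 2)
    (hloc : ∀ r' : GK s, ∀ N : ℕ, ∃ m : Fin r → ℤ, (∀ i, (2 : ℤ_[2]) ^ N ∣ b i - m i) ∧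
      ‖(ι₀.comp (gh r')) (∏ i, t i 0 ^ m i) - 1‖ ≤ (1 / 2 : ℝ) ^ (N + 2)) :
    ∃ e : ℕ, ∀ (N : ℕ) (m : Fin r → ℤ), (∀ i, (2 : ℤ_[2]) ^ N ∣ b i - m i) →
      ∃ h : QB, (∀ σ : H, (σ : GK s) h = h) ∧ h ^ 2 ^ N = (∏ i, t i 0 ^ m i) ^ 2 ^ e := by
  obtain ⟨y, hy⟩ := tow hs hF hNH hNn hNi hNo hur (ρ := cm H)
    (fun i j => by
      simp only [cm_apply, Matrix.diagonal_apply, Subsingleton.elim i j, if_true]
      exact Units.continuous_val.comp ((cyc_cont s).comp continuous_subtype_val))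
    (fun p _ ι hp σ hσ => by
      rw [cm_apply, cyc_inert hp hσ]
      simp)
    (fun σ => ⟨0, by
      rw [pow_zero, pow_one, cm_apply, m2]
      have h2 : PadicInt.toZMod (p := 2) ((cyc s (σ : GK s) : ℤ_[2]ˣ) : ℤ_[2]) = 1 := by
        have h3 : IsUnit (PadicInt.toZMod (p := 2) ((cyc s (σ : GK s) : ℤ_[2]ˣ) : ℤ_[2])) :=
          (Units.isUnit _).map _
        have h4 : ∀ x : ZMod 2, IsUnit x → x = 1 := by
          intro x hx
          have h5 : ∀ x : ZMod 2, x = 0 ∨ x = 1 := by decide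
          rcases h5 x with rfl | h
          · exact absurd hx not_isUnit_zero
          · exact h
        exact h4 _ h3
      rw [RingHom.mapMatrix_apply, Matrix.diagonal_map (map_zero _)]
      simp only [h2]
      exact Matrix.diagonal_one⟩)
    (c := fun σ _ => ((kc ζ t b (σ : GK s) : ℤ_[2]) : ℚ_[2]))
    (continuous_pi fun _ => continuous_subtype_val.comp (kc_cont hζ ht h0 b hH))
    (fun σ τ => by
      funext u
      rw [Pi.add_apply, av_cm]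
      show ((kc ζ t b ((σ : GK s) * (τ : GK s)) : ℤ_[2]) : ℚ_[2]) = _
      rw [kc_mul hζ ht h0 b (hH σ) (hH τ)]
      push_cast
      rfl)
    (fun p _ ι hp => ⟨0, fun σ hσ => by
      funext u
      rw [av_cm, kc_inert hζ ht h0 b hp ι (hun p ι hp) hσ (hH σ)]
      simp⟩)
    ι₀
    (fun r' => by
      obtain ⟨y, hy⟩ := kc_two hζ ht h0 b (ι₀.comp (gh r')) (hloc r')
      refine ⟨fun _ => (y : ℚ_[2]), fun σ hσ => ?_⟩
      funext u
      rw [hy _ hσ (hH σ), Pi.sub_apply, av_cm]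
      push_cast
      rfl)
  obtain ⟨e, he⟩ : ∃ e : ℕ, ‖y ()‖ ≤ 2 ^ e := pow_unbounded_of_one_lt _ (by norm_num) |>.imp
    fun _ h => h.le
  have hv1 : ‖(2 : ℚ_[2]) ^ e * y ()‖ ≤ 1 := by
    have h2 : ‖(2 : ℚ_[2])‖ = 1 / 2 := by
      have := Padic.norm_p (p := 2)
      push_cast at this
      rw [this]
      norm_num
    rw [norm_mul, norm_pow, h2, div_pow, one_pow, one_div, inv_mul_le_iff₀ (by positivity), mul_one]
    exact he
  set v : ℤ_[2] := ⟨(2 : ℚ_[2]) ^ e * y (), hv1⟩ with hv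
  have hkv : ∀ σ : H, (2 : ℤ_[2]) ^ e * kc ζ t b (σ : GK s) =
      ((cyc s (σ : GK s) : ℤ_[2]ˣ) : ℤ_[2]) * v - v := by
    intro σ
    apply Subtype.ext
    have h1 : ((kc ζ t b (σ : GK s) : ℤ_[2]) : ℚ_[2]) =
        (((cyc s (σ : GK s) : ℤ_[2]ˣ) : ℤ_[2]) : ℚ_[2]) * y () - y () := by
      have h2 := congrFun (hy σ) ()
      rw [Pi.sub_apply, av_cm] at h2
      exact h2
    have hv' : ((v : ℤ_[2]) : ℚ_[2]) = (2 : ℚ_[2]) ^ e * y () := rfl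
    have h22 : ((2 : ℤ_[2]) : ℚ_[2]) = 2 := rfl
    push_cast
    rw [h1, hv', h22]
    ring
  refine ⟨e, fun n m hm => ?_⟩
  set T : QB := ∏ i, t i n ^ m i with hT
  have hTN : T ^ 2 ^ n = ∏ i, t i 0 ^ m i := by
    rw [hT, ← Finset.prod_pow]
    refine Finset.prod_congr rfl fun i _ => ?_
    rw [← zpow_natCast, ← zpow_mul, mul_comm, zpow_mul, zpow_natCast, (ht i).pow]
  obtain ⟨l, hl⟩ := exists_int v n
  refine ⟨T ^ 2 ^ e * ζ n ^ (-l), fun σ => ?_, ?_⟩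
  · obtain ⟨k, hk⟩ := exists_int (kc ζ t b (σ : GK s)) n
    obtain ⟨c, hc⟩ := exists_int ((cyc s (σ : GK s) : ℤ_[2]ˣ) : ℤ_[2]) n
    have h1 := kc_spec hζ ht h0 b (hH σ) hm hk
    rw [← hT] at h1
    rw [map_mul, map_pow, map_zpow₀, h1, cyc_k hζ _ hc, mul_pow, ← zpow_natCast (ζ n ^ k), ← zpow_mul,
      ← zpow_mul]
    have h2 : ζ n ^ (k * ((2 ^ e : ℕ) : ℤ) + c * -l) = ζ n ^ (-l) := by
      apply hζ.zpow
      rw [← dvd_cast]
      have h3 : ((k * ((2 ^ e : ℕ) : ℤ) + c * -l - -l : ℤ) : ℤ_[2]) =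
          -(2 ^ e * (kc ζ t b (σ : GK s) - k)) + (((cyc s (σ : GK s) : ℤ_[2]ˣ) : ℤ_[2]) - c) * v +
          (c - 1) * (v - l) +
          (2 ^ e * kc ζ t b (σ : GK s) - (((cyc s (σ : GK s) : ℤ_[2]ˣ) : ℤ_[2]) * v - v)) := by
        push_cast
        ring
      rw [h3, hkv σ, sub_self, add_zero]
      exact dvd_add (dvd_add (dvd_neg.2 (Dvd.dvd.mul_left hk _)) (Dvd.dvd.mul_right hc _))
        (Dvd.dvd.mul_left hl _)
    rw [← h2, zpow_add₀ (hζ.ne n)]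
    ring
  · rw [mul_pow, ← pow_mul, mul_comm (2 ^ e), pow_mul, hTN, ← zpow_natCast (ζ n ^ (-l)), ← zpow_mul,
      mul_comm (-l), zpow_mul, zpow_natCast]
    have hζN : ζ n ^ 2 ^ n = 1 := by rw [hζ.rt.pow, hζ.zero]
    rw [hζN, one_zpow, mul_one]

end Pool.Agent.Z384
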