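import Pool.Agent.R384.Z.AbsH

/-!
# Imaginary quadratic fields unramified outside `2` and a prime `± 3 mod 8`
-/

set_option autoImplicit false
set_option linter.unusedSectionVars false

namespace Pool.Agent.Z384

open Pool.Agent.Y715.Red Pool.Agent.Y715.Nr Pool.Agent.W237.RK
open Pool.Agent.Y715.Gi (QB KK GK i₀_mem gk_fix)
open IsLocalRing Matrix

/-- the automorphisms which fix `t` -/
def Fx (t : QB) : Subgroup (QB ≃ₐ[ℚ] QB) where
  carrier := {σ | σ t = t}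
  mul_mem' := by
    intro a b ha hb
    show a (b t) = t
    rw [show b t = t from hb, show a t = t from ha]
  one_mem' := rfl
  inv_mem' := by
    intro a ha
    show a⁻¹ t = t
    have h1 : a t = t := ha
    conv_lhs => rw [← h1]
    rw [← AlgEquiv.mul_apply, inv_mul_cancel, AlgEquiv.one_apply]

lemma mem_Fx {t : QB} {σ : QB ≃ₐ[ℚ] QB} : σ ∈ Fx t ↔ σ t = t := Iff.rfl

variable {e : ℕ} {t : QB} (ht : t ^ 2 = -(e : QB)) (he : e ≠ 0)

include ht in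
lemma Fx_pm (σ : QB ≃ₐ[ℚ] QB) : σ t = t ∨ σ t = -t := by
  have h1 : (σ t) ^ 2 = t ^ 2 := by
    rw [← map_pow, ht, map_neg, map_natCast]
  exact sq_eq_sq_iff_eq_or_eq_neg.1 h1

include ht in
lemma Fx_normal : (Fx t).Normal := by
  refine ⟨fun n hn g => ?_⟩
  rw [mem_Fx] at hn ⊢
  rcases Fx_pm ht g⁻¹ with h | h
  · rw [AlgEquiv.mul_apply, AlgEquiv.mul_apply, h, hn]
    conv_lhs => rw [← h]
    rw [← AlgEquiv.mul_apply, mul_inv_cancel, AlgEquiv.one_apply]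
  · rw [AlgEquiv.mul_apply, AlgEquiv.mul_apply, h, map_neg, hn, ← h, ← AlgEquiv.mul_apply,
      mul_inv_cancel, AlgEquiv.one_apply]

include ht he in
lemma Fx_index : ∃ a : ℕ, (Fx t).index = 2 ^ a := by
  have ht0 : t ≠ 0 := by
    rintro rfl
    apply he
    have h1 : (e : QB) = 0 := by linear_combination ht
    exact_mod_cast h1
  by_cases h : ∀ σ, σ ∈ Fx t
  · exact ⟨0, by rw [pow_zero, Subgroup.index_eq_one]; exact eq_top_iff.2 fun σ _ => h σ⟩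
  · push Not at h
    obtain ⟨g, hg⟩ := h
    have hgt : g t = -t := (Fx_pm ht g).resolve_left hg
    refine ⟨1, ?_⟩
    rw [pow_one, Subgroup.index_eq_two_iff]
    refine ⟨g, fun b => ?_⟩
    have hne : -t ≠ t := by
      intro h1
      apply ht0
      have h2 : (2 : QB) * t = 0 := by linear_combination -h1
      exact (mul_eq_zero.1 h2).resolve_left two_ne_zero
    rw [mem_Fx, mem_Fx, AlgEquiv.mul_apply, hgt, map_neg]
    rcases Fx_pm ht b with h1 | h1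
    · rw [h1]
      exact Or.inr ⟨rfl, hne⟩
    · rw [h1, neg_neg]
      exact Or.inl ⟨rfl, hne⟩

lemma Fx_open (t : QB) : IsOpen (Fx t : Set (QB ≃ₐ[ℚ] QB)) := by
  have hf : FiniteDimensional ℚ (IntermediateField.adjoin ℚ {t}) :=
    IntermediateField.adjoin.finiteDimensional (Algebra.IsIntegral.isIntegral t)
  refine Subgroup.isOpen_mono ?_ (IntermediateField.fixingSubgroup_isOpen (IntermediateField.adjoin ℚ {t}))
  intro σ hσ
  exact hσ ⟨t, IntermediateField.mem_adjoin_simple_self ℚ t⟩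

include ht in
lemma Fx_unr {p : ℕ} [Fact p.Prime] (hp2 : p ≠ 2) (hpe : ¬ p ∣ e) (ι : QB →ₐ[ℚ] PadicAlgCl p)
    {σ : QB ≃ₐ[ℚ] QB} (hσ : σ ∈ IQ ι) : σ ∈ Fx t := by
  obtain ⟨τ, h1, h2⟩ := hσ
  rw [mem_Fx]
  refine (Fx_pm ht σ).resolve_right fun h => ?_
  have hn : ∀ m : ℕ, ¬ p ∣ m → ‖(m : PadicAlgCl p)‖ = 1 := by
    intro m hm
    have e1 : (m : PadicAlgCl p) = algebraMap ℚ_[p] (PadicAlgCl p) (m : ℚ_[p]) :=
      (map_natCast _ _).symm
    rw [e1]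
    have e2 : ‖algebraMap ℚ_[p] (PadicAlgCl p) (m : ℚ_[p])‖ = ‖(m : ℚ_[p])‖ :=
      PadicAlgCl.norm_extends p _
    rw [e2]
    exact Padic.norm_natCast_eq_one_iff.2 ((Nat.Prime.coprime_iff_not_dvd Fact.out).2 hm)
  have h3 : ‖ι t‖ = 1 := by
    have e1 : (ι t) ^ 2 = -(e : PadicAlgCl p) := by rw [← map_pow, ht, map_neg, map_natCast]
    have e2 : ‖ι t‖ ^ 2 = 1 := by rw [← norm_pow, e1, norm_neg, hn e hpe]
    exact (pow_eq_one_iff_of_nonneg (norm_nonneg _) two_ne_zero).1 e2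
  have h4 := h2 (ι t) h3.le
  rw [h1, h, map_neg] at h4
  have e3 : -ι t - ι t = -(((2 : ℕ) : PadicAlgCl p) * ι t) := by push_cast; ring
  rw [e3, norm_neg, norm_mul, h3, mul_one, hn 2 (fun hd => hp2
    ((Nat.prime_dvd_prime_iff_eq Fact.out Nat.prime_two).1 hd))] at h4
  exact lt_irrefl _ h4

/-! ### Two-dimensional representations over `ℚ(√-d)` -/

variable {s : QB} {d : ℕ} (hs : s ^ 2 = -(d : QB))
variable {A : Type*} [CommRing A] [IsLocalRing A] [IsNoetherianRing A] [TopologicalSpace A]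

include hs in
/-- **Irreducible two-dimensional representations.** -/
theorem fm2 (hF : Fld d) {H N : Subgroup (GK s)} (hNH : N ≤ H) (hNn : N.Normal)
    (hNi : ∃ a : ℕ, N.index = 2 ^ a) (hNo : IsOpen (N : Set (GK s)))
    (hur : ∀ (p : ℕ) [Fact p.Prime] (ι : QB →ₐ[ℚ] PadicAlgCl p), p ≠ 2 →
      ∀ σ ∈ (II ι : Set (GK s)), σ ∈ N)
    (hA : IsAdic (maximalIdeal A)) (hfin : Finite (ResidueField A)) (h2 : (2 : A) ∈ maximalIdeal A)
    {F : Type*} [Field F] [Algebra A F] [IsFractionRing A F]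
    {ρ : H →* GL (Fin 2) A}
    (hρ : ∀ i j, Continuous fun σ => (ρ σ : Matrix (Fin 2) (Fin 2) A) i j)
    (hres : ∀ σ, ∃ M : ℕ, InI (maximalIdeal A) (((ρ σ : Matrix (Fin 2) (Fin 2) A) - 1) ^ M))
    (hu : ∀ (p : ℕ) [Fact p.Prime] (ι : QB →ₐ[ℚ] PadicAlgCl p), p ≠ 2 →
      ∀ σ : H, (σ : GK s) ∈ (II ι : Set (GK s)) → ρ σ = 1)
    (ι₀ : QB →ₐ[ℚ] PadicAlgCl 2)
    {D' : Subgroup H} {R : Set H} (hRf : R.Finite)
    (hR : ∀ δ : H, (δ : GK s) ∈ (DD ι₀ : Set (GK s)) → ∃ r ∈ R, r⁻¹ * δ ∈ D')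
    (hirr : Irr F ρ)
    {v : Fin 2 → F} (hv : v ≠ 0) (hD' : ∀ δ ∈ D', ∃ c : F, act F ρ δ v = c • v) :
    (∃ S : Subgroup H, S.Normal ∧ S.FiniteIndex ∧ IsOpen (S : Set H) ∧
      (∀ σ ∈ S, ∃ c : F, ∀ w, act F ρ σ w = c • w)) ∨
    ∃ T : Subgroup H, T.index = 2 ∧ IsOpen (T : Set H) ∧
      ∀ σ ∈ T, ∃ c : F, act F ρ σ v = c • v :=
  dih hA hρ (D := (DDs ι₀).subgroupOf H)
    (dense hs hF hNH hNn hNi hNo hur hA hfin h2 hρ hres hu ι₀) hRf (fun δ hδ => hR δ hδ) hirr hv hD'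

end Pool.Agent.Z384
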