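import Pool.Agent.R384.Z.Qd
import Pool.Agent.R384.Z.Ar

/-!
# Quadratic characters of `ℚ(√-d)` unramified outside one place above `2` and trivial at the other one
-/

set_option autoImplicit false
set_option linter.unusedSectionVars false

namespace Pool.Agent.Z384

open Pool.Agent.Y715.Red Pool.Agent.Y715.Nr Pool.Agent.W237.RK
open Pool.Agent.Y715.Gi (QB KK GK i₀_mem gk_fix)
open Pool.Agent.Y715.Df (Cmp exists_cmp)
open Pool.Agent.Y715.Lc (norm_two_odd)

/-- the inertia group -/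
def II {s : QB} {p : ℕ} [Fact p.Prime] (ι : QB →ₐ[ℚ] PadicAlgCl p) : Set (GK s) :=
  {σ | ∃ τ : Au p, Cmp ι τ σ ∧ Inert τ}

/-- the decomposition group -/
def DD {s : QB} {p : ℕ} [Fact p.Prime] (ι : QB →ₐ[ℚ] PadicAlgCl p) : Set (GK s) :=
  {σ | ∃ τ : Au p, Cmp ι τ σ}

variable {s : QB} {d : ℕ} (hs : s ^ 2 = -(d : QB))

lemma norm_int {p : ℕ} [Fact p.Prime] {k : ℤ} (h : ¬ (p : ℤ) ∣ k) : ‖(k : PadicAlgCl p)‖ = 1 := by
  have h2 := Pool.Agent.W327.RK.norm_nat (p := p) (M := k.natAbs) (fun h1 =>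
    h (Int.natCast_dvd.2 h1))
  rcases Int.natAbs_eq k with h3 | h3
  · have e : (k : PadicAlgCl p) = ((k.natAbs : ℕ) : PadicAlgCl p) := by
      rw [← Int.cast_natCast, ← h3]
    rw [e]
    exact h2
  · have e : (k : PadicAlgCl p) = -((k.natAbs : ℕ) : PadicAlgCl p) := by
      rw [← Int.cast_natCast, ← Int.cast_neg, ← h3]
    rw [e, norm_neg]
    exact h2

lemma int_le' {p : ℕ} [Fact p.Prime] (k : ℤ) : ‖(k : PadicAlgCl p)‖ ≤ 1 := by
  rcases Int.natAbs_eq k with h3 | h3
  · have e : (k : PadicAlgCl p) = ((k.natAbs : ℕ) : PadicAlgCl p) := by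
      rw [← Int.cast_natCast, ← h3]
    rw [e]
    exact int_le _
  · have e : (k : PadicAlgCl p) = -((k.natAbs : ℕ) : PadicAlgCl p) := by
      rw [← Int.cast_natCast, ← Int.cast_neg, ← h3]
    rw [e, norm_neg]
    exact int_le _

/-- `√-d` is in `ℚ_2` -/
lemma two_fix (h8 : d % 8 = 7) {S : PadicAlgCl 2} (hS : S ^ 2 = -(d : PadicAlgCl 2)) (τ : Au 2) :
    τ S = S := by
  rcases S_or hS τ with h | h
  · exact h
  · exfalso
    set W : PadicAlgCl 2 := (1 + S) / 2 with hW
    obtain ⟨k, hk⟩ : ∃ k : ℕ, d + 1 = 8 * k := ⟨(d + 1) / 8, by omega⟩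
    have hk' : (d : PadicAlgCl 2) + 1 = 8 * k := by exact_mod_cast congrArg (Nat.cast (R := PadicAlgCl 2)) hk
    have h1 : W * (1 - W) = 2 * (k : PadicAlgCl 2) := by
      rw [hW]
      linear_combination hk' / 4 - hS / 4
    have h2 : ‖W‖ * ‖1 - W‖ < 1 := by
      rw [← norm_mul, h1, norm_mul, Pool.Agent.Y715.Gi.norm_two']
      have := int_le (F := PadicAlgCl 2) k
      linarith
    have h3 : ‖1 - W‖ = ‖W‖ := by
      have h4 : τ W = 1 - W := by
        rw [hW, map_div₀, map_add, map_one, map_ofNat, h]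
        field_simp
        ring
      rw [← h4, nrm]
    rw [h3] at h2
    have h4 : ‖W‖ < 1 := by nlinarith [norm_nonneg W]
    have h5 : ‖(1 : PadicAlgCl 2)‖ < 1 := by
      have e : (1 : PadicAlgCl 2) = W + (1 - W) := by ring
      rw [e]
      exact add_lt h4 (by rw [h3]; exact h4)
    rw [norm_one] at h5
    exact lt_irrefl _ h5

lemma FixOdd.conj {t : QB} (h : FixOdd s t) (c : QB ≃ₐ[ℚ] QB) (hc : c s = -s) :
    FixOdd s (c t) := by
  intro p _ ι τ σ hp hσ hin
  have h1 : τ ((ι.comp c.toAlgHom) s) = (ι.comp c.toAlgHom) s := by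
    show τ (ι (c s)) = ι (c s)
    rw [hc, map_neg, map_neg, hσ.fix]
  obtain ⟨σ', hσ'⟩ := exists_cmp (ι.comp c.toAlgHom) τ h1
  have h2 := h p _ τ σ' hp hσ' hin
  apply ι.injective
  show ι (σ (c t)) = ι (c t)
  rw [← hσ]
  have h3 := hσ' t
  rw [h2] at h3
  exact h3

lemma FixOdd.div {t a : QB} (h : FixOdd s t) (ha : a ∈ KK s) : FixOdd s (a / t) := by
  intro p _ ι τ σ hp hσ hin
  rw [map_div₀, fixK σ ha, h p ι τ σ hp hσ hin]

/-- a rational number whose square is an integer -/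
lemma int_of_sq {r : ℚ} {n : ℤ} (h : r ^ 2 = n) : ∃ k : ℤ, r = k := by
  have h1 : r.den = 1 := by
    have h2 : (r ^ 2).den = 1 := by rw [h]; rfl
    rw [Rat.den_pow] at h2
    exact (Nat.pow_eq_one.1 h2).resolve_right two_ne_zero
  exact ⟨r.num, (Rat.den_eq_one_iff r).1 h1 |>.symm⟩

/-- primitive representatives -/
lemma exists_prim {x y : ℚ} (h : x ≠ 0 ∨ y ≠ 0) : ∃ (g : ℚ) (X Y : ℤ), g ≠ 0 ∧ IsCoprime X Y ∧
    x = g * X ∧ y = g * Y := by
  set X0 : ℤ := x.num * y.den with hX0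
  set Y0 : ℤ := y.num * x.den with hY0
  have hxd : (x.den : ℚ) ≠ 0 := by exact_mod_cast x.den_ne_zero
  have hyd : (y.den : ℚ) ≠ 0 := by exact_mod_cast y.den_ne_zero
  have hne : X0 ≠ 0 ∨ Y0 ≠ 0 := by
    rcases h with h | h
    · left
      exact mul_ne_zero (Rat.num_ne_zero.2 h) (by exact_mod_cast y.den_ne_zero)
    · right
      exact mul_ne_zero (Rat.num_ne_zero.2 h) (by exact_mod_cast x.den_ne_zero)
  have hG0 : (Int.gcd X0 Y0 : ℤ) ≠ 0 := by
    intro h0
    have h1 : Int.gcd X0 Y0 = 0 := by exact_mod_cast h0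
    rw [Int.gcd_eq_zero_iff] at h1
    rcases hne with h2 | h2
    · exact h2 h1.1
    · exact h2 h1.2
  obtain ⟨X, hX⟩ := Int.gcd_dvd_left (a := X0) (b := Y0)
  obtain ⟨Y, hY⟩ := Int.gcd_dvd_right (a := X0) (b := Y0)
  have hGQ : ((Int.gcd X0 Y0 : ℤ) : ℚ) ≠ 0 := by exact_mod_cast hG0
  refine ⟨(Int.gcd X0 Y0 : ℤ) / (x.den * y.den), X, Y, div_ne_zero hGQ (mul_ne_zero hxd hyd),
    ?_, ?_, ?_⟩
  · rw [Int.isCoprime_iff_gcd_eq_one]
    have h2 : 0 < Int.gcd X0 Y0 := Nat.pos_of_ne_zero (by exact_mod_cast hG0)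
    obtain ⟨G, hG⟩ : ∃ G, G = Int.gcd X0 Y0 := ⟨_, rfl⟩
    rw [← hG] at hX hY h2
    have h1 : G = G * Int.gcd X Y := by
      conv_lhs => rw [hG, hX, hY]
      rw [Int.gcd_mul_left, Int.natAbs_natCast]
    exact (Nat.eq_of_mul_eq_mul_left h2 (by rw [mul_one]; exact h1)).symm
  · have h1 : (X0 : ℚ) = (Int.gcd X0 Y0 : ℤ) * X := by exact_mod_cast hX
    have h2 : (X0 : ℚ) = x * (x.den * y.den) := by
      rw [hX0]
      push_cast
      linear_combination -(y.den : ℚ) * Rat.mul_den_eq_num x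
    rw [h2] at h1
    field_simp
    linear_combination h1
  · have h1 : (Y0 : ℚ) = (Int.gcd X0 Y0 : ℤ) * Y := by exact_mod_cast hY
    have h2 : (Y0 : ℚ) = y * (x.den * y.den) := by
      rw [hY0]
      push_cast
      linear_combination -(x.den : ℚ) * Rat.mul_den_eq_num y
    rw [h2] at h1
    field_simp
    linear_combination h1

include hs in
/-- the case of the norm `2` -/
lemma case_two (hF : Fld d) {t : QB} (ht0 : t ≠ 0) {x y m : ℚ} (hm0 : m ≠ 0)
    (hm : x ^ 2 + d * y ^ 2 = 2 * m ^ 2) (ht : t ^ 2 = x + y * s) (h : FixOdd s t)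
    (ι₀ : QB →ₐ[ℚ] PadicAlgCl 2) (h2 : ∀ τ : Au 2, τ (ι₀ t) = ι₀ t) : False := by
  have hsqf := hF.sqf
  have h8 := hF.mod
  rcases hF with ⟨hq, h16⟩ | ⟨p, q, hp, hq, hp5, hq3, rfl⟩
  · -- primes
    have hxy : x ≠ 0 ∨ y ≠ 0 := by
      by_contra hcon
      push Not at hcon
      rw [hcon.1, hcon.2] at ht
      apply ht0
      have : t ^ 2 = 0 := by rw [ht]; push_cast; ring
      exact pow_eq_zero_iff two_ne_zero |>.1 this
    obtain ⟨g, X, Y, hg, hXY, hx, hy⟩ := exists_prim hxy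
    have hM2 : ((X ^ 2 + d * Y ^ 2 : ℤ) : ℚ) = 2 * (m / g) ^ 2 := by
      push_cast
      rw [hx, hy] at hm
      field_simp
      linear_combination hm
    obtain ⟨k, hk⟩ := int_of_sq (r := 2 * (m / g)) (n := 2 * (X ^ 2 + d * Y ^ 2)) (by
      push_cast at hM2 ⊢
      linear_combination -2 * hM2)
    have hk2 : k ^ 2 = 2 * (X ^ 2 + d * Y ^ 2) := by
      have h1 : (k : ℚ) ^ 2 = 2 * ((X ^ 2 + d * Y ^ 2 : ℤ) : ℚ) := by
        rw [← hk, hM2]
        ring
      exact_mod_cast h1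
    obtain ⟨M, hM⟩ : ∃ M, k = 2 * M := by
      have : (2 : ℤ) ∣ k := Int.prime_two.dvd_of_dvd_pow ⟨_, hk2⟩
      exact this
    have hXYM : X ^ 2 + (d : ℤ) * Y ^ 2 = 2 * M ^ 2 := by
      rw [hM] at hk2
      linarith
    obtain ⟨z, hz⟩ := fix_mem h2
    obtain ⟨S, hS⟩ := fix_mem (x := ι₀ s) (two_fix h8 (ιs hs ι₀))
    obtain ⟨c, hc⟩ := exists_conj hs hq.ne_zero
    have ht' : t ^ 2 = g * (X + Y * s) := by
      rw [ht, hx, hy]
      push_cast
      ring
    refine no_two_prime hq h16 hg ?_ hXY hXYM (S := S) (z := z) ?_ ?_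
    · intro l hl hl2 hlq
      have hld : ¬ l ∣ d := fun h0 => hlq ((Nat.prime_dvd_prime_iff_eq Fact.out hq).1 h0)
      obtain ⟨ι⟩ : Nonempty (QB →ₐ[ℚ] PadicAlgCl l) :=
        ⟨IsAlgClosed.lift (R := ℚ) (S := QB) (M := AlgebraicClosure ℚ_[l])⟩
      -- one of the two conjugates is a unit
      have key : ∀ ι : QB →ₐ[ℚ] PadicAlgCl l, ‖(X : PadicAlgCl l) + Y * ι s‖ = 1 →
          Even (padicValRat l g) := by
        intro ι hι
        obtain ⟨n, hn⟩ := norm_odd (ιs hs ι) hl2 hld ((map_ne_zero ι).2 ht0)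
          fun τ hin hτ => h.loc hl2 ι τ hin hτ
        refine val_of_norm (p := l) hg (m := n) ?_
        have h1 : (ι t) ^ 2 = (g : PadicAlgCl l) * (X + Y * ι s) := by
          rw [← map_pow, ht', map_mul, map_add, map_mul, map_ratCast, map_intCast, map_intCast]
        have h3 := congrArg norm h1
        rw [norm_pow, norm_mul, hι, mul_one, hn] at h3
        rw [← h3, mul_comm, zpow_mul]
        norm_cast
      have hS1 := S_norm (ιs hs ι) hld
      by_cases h1 : ‖(X : PadicAlgCl l) + Y * ι s‖ = 1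
      · exact key ι h1
      · by_cases h3 : ‖(X : PadicAlgCl l) + Y * (ι.comp c.toAlgHom) s‖ = 1
        · exact key _ h3
        · exfalso
          have e : (ι.comp c.toAlgHom) s = -(ι s) := by
            show ι (c s) = _
            rw [hc, map_neg]
          rw [e] at h3
          have hle : ∀ S' : PadicAlgCl l, ‖S'‖ = 1 → ‖(X : PadicAlgCl l) + Y * S'‖ ≤ 1 := by
            intro S' hS'
            refine add_le (int_le' X) ?_
            rw [norm_mul, hS', mul_one]
            exact int_le' Y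
          have l1 := lt_of_le_of_ne (hle _ hS1) h1
          have l2 := lt_of_le_of_ne (hle _ (by rw [norm_neg]; exact hS1)) h3
          have l3 : ‖(2 : PadicAlgCl l) * X‖ < 1 := by
            have e : (2 : PadicAlgCl l) * X = (X + Y * ι s) + (X + Y * -(ι s)) := by ring
            rw [e]
            exact add_lt l1 l2
          have l4 : ‖(2 : PadicAlgCl l) * Y * ι s‖ < 1 := by
            have e : (2 : PadicAlgCl l) * Y * ι s = (X + Y * ι s) - (X + Y * -(ι s)) := by ring
            rw [e]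
            exact sub_lt l1 l2
          rw [norm_mul, norm_two_odd hl2, one_mul] at l3
          rw [norm_mul, norm_mul, norm_two_odd hl2, one_mul, hS1, mul_one] at l4
          have d1 : (l : ℤ) ∣ X := by
            by_contra hcon
            rw [norm_int hcon] at l3
            exact lt_irrefl _ l3
          have d2 : (l : ℤ) ∣ Y := by
            by_contra hcon
            rw [norm_int hcon] at l4
            exact lt_irrefl _ l4
          exact (Nat.prime_iff_prime_int.1 (Fact.out : l.Prime)).not_isUnit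
            (hXY.isUnit_of_dvd' d1 d2)
    · apply (algebraMap ℚ_[2] (PadicAlgCl 2)).injective
      rw [map_pow, hS, ιs hs ι₀, map_neg, map_natCast]
    · apply (algebraMap ℚ_[2] (PadicAlgCl 2)).injective
      rw [map_pow, hz, map_mul, map_add, map_mul, hS, map_ratCast, map_intCast, map_intCast,
        ← map_pow, ht', map_mul, map_add, map_mul, map_ratCast, map_intCast, map_intCast]
  · have : Fact p.Prime := ⟨hp⟩
    refine hm0 (no_two (p := p) (Or.inr hp5) (dvd_mul_right p q) ?_ hm)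
    intro h1
    rw [pow_two] at h1
    exact hp.prime.not_isUnit (hsqf p h1)

include hs in
/-- a square root that is unramified outside one place above `2` and trivial at the other one -/
theorem root_mem (hF : Fld d) {t : QB} (ht0 : t ≠ 0) (htK : t ^ 2 ∈ KK s) (h : FixOdd s t)
    (ι₀ : QB →ₐ[ℚ] PadicAlgCl 2) (h2 : ∀ τ : Au 2, τ (ι₀ t) = ι₀ t) : t ∈ KK s := by
  obtain ⟨x, y, ht⟩ := KK_ex hs htK
  have hd0 := hF.ne_zero
  have hdQ : (0 : ℚ) < d := by exact_mod_cast Nat.pos_of_ne_zero hd0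
  have hxy : x ≠ 0 ∨ y ≠ 0 := by
    by_contra hcon
    push Not at hcon
    rw [hcon.1, hcon.2] at ht
    apply ht0
    have : t ^ 2 = 0 := by rw [ht]; push_cast; ring
    exact pow_eq_zero_iff two_ne_zero |>.1 this
  have hN0 : 0 < x ^ 2 + d * y ^ 2 := by
    rcases hxy with h1 | h1
    · have := pow_pos (abs_pos.2 h1) 2
      rw [sq_abs] at this
      nlinarith [sq_nonneg y]
    · have := pow_pos (abs_pos.2 h1) 2
      rw [sq_abs] at this
      nlinarith [sq_nonneg x]
  obtain ⟨m, hm0, hm⟩ := sq_or hN0 fun p _ hp => even_norm hs hd0 hF.sqf rfl hN0.ne' ht h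
    (fun c hc => h.conj c hc) hp
  rcases hm with hm | hm
  · -- the norm is a square
    obtain ⟨n, hn, hxn⟩ : ∃ n : ℚ, x ^ 2 + d * y ^ 2 = n ^ 2 ∧ x + n ≠ 0 := by
      by_cases h1 : x + m = 0
      · refine ⟨-m, by rw [hm]; ring, fun h3 => hm0 ?_⟩
        linarith
      · exact ⟨m, hm, h1⟩
    set r : ℚ := 2 * (x + n) with hr
    have hr0 : r ≠ 0 := mul_ne_zero two_ne_zero hxn
    have hnQ : ((x : ℚ) : QB) ^ 2 + d * (y : QB) ^ 2 = (n : QB) ^ 2 := by exact_mod_cast congrArg (Rat.cast (K := QB)) hn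
    have haK : ((x : ℚ) : QB) + y * s + n ∈ KK s :=
      add_mem (add_mem (rat_mem x) (mul_mem (rat_mem y) i₀_mem)) (rat_mem n)
    set u : QB := (x + y * s + n) / t with hu
    have hu2 : u ^ 2 = r := by
      rw [hu, div_pow, div_eq_iff (pow_ne_zero 2 ht0), ht, hr]
      push_cast
      linear_combination (y : QB) ^ 2 * hs - hnQ
    have hu0 : u ≠ 0 := by
      intro h0
      rw [h0] at hu2
      apply hr0
      have : ((r : ℚ) : QB) = 0 := by rw [← hu2]; ring
      exact_mod_cast this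
    have huO : FixOdd s u := h.div haK
    have hu2' : ∀ τ : Au 2, τ (ι₀ u) = ι₀ u := by
      intro τ
      have hτs := two_fix hF.mod (ιs hs ι₀) τ
      have e : ι₀ (x + y * s + n) = x + y * ι₀ s + n := by
        rw [map_add, map_add, map_mul, map_ratCast, map_ratCast, map_ratCast]
      rw [hu, map_div₀, map_div₀, h2, e, map_add, map_add, map_mul, map_ratCast, map_ratCast,
        map_ratCast, hτs]
    obtain ⟨e, f, hf, he, hre⟩ := exists_sqf hr0
    obtain ⟨z, hz⟩ := fix_mem hu2'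
    have hfQ : (f : ℚ_[2]) ≠ 0 := by exact_mod_cast hf
    have he8 : e % 8 = 1 := by
      refine int_sq (z := z / f) he ?_
      have h1 : z ^ 2 = (r : ℚ_[2]) := by
        apply (algebraMap ℚ_[2] (PadicAlgCl 2)).injective
        rw [map_pow, hz, ← map_pow, hu2, map_ratCast, map_ratCast]
      rw [div_pow, h1, hre]
      push_cast
      field_simp
    have hdvd : e.natAbs ∣ d := by
      have h4 : e.natAbs = ∏ p ∈ e.natAbs.primeFactors, p :=
        (Nat.prod_primeFactors_of_squarefree he).symm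
      rw [h4]
      have h5 : e.natAbs.primeFactors ⊆ d.primeFactors := by
        intro p hp
        have hpp := Nat.prime_of_mem_primeFactors hp
        have hpe := Nat.dvd_of_mem_primeFactors hp
        have : Fact p.Prime := ⟨hpp⟩
        refine Nat.mem_primeFactors.2 ⟨hpp, ?_, hd0⟩
        by_contra hpd
        have hp2 : p ≠ 2 := by rintro rfl; omega
        exact sqf_odd hf he hre (even_of_sq hs hr0 hu2 huO hp2 hpd) hpe
      have h6 := Finset.prod_dvd_prod_of_subset _ _ (fun p : ℕ => p) h5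
      rwa [Nat.prod_primeFactors_of_squarefree hF.sqf] at h6
    have hed := hF.div hdvd
    have huK : u ∈ KK s := by
      rcases Int.natAbs_eq e with h3 | h3
      · have h4 : e.natAbs = 1 := hed.1 (by omega)
        have h5 : e = 1 := by omega
        have h6 : u ^ 2 = (f : QB) ^ 2 := by
          rw [hu2, hre, h5]
          push_cast
          ring
        rcases sq_eq_sq_iff_eq_or_eq_neg.1 h6 with h7 | h7
        · rw [h7]; exact rat_mem f
        · rw [h7]; exact neg_mem (rat_mem f)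
      · have h4 : e.natAbs = d := hed.2 (by omega)
        have h5 : e = -(d : ℤ) := by omega
        have h6 : u ^ 2 = (s * f) ^ 2 := by
          rw [hu2, hre, h5, mul_pow, hs]
          push_cast
          ring
        rcases sq_eq_sq_iff_eq_or_eq_neg.1 h6 with h7 | h7
        · rw [h7]; exact mul_mem i₀_mem (rat_mem f)
        · rw [h7]; exact neg_mem (mul_mem i₀_mem (rat_mem f))
    have htu : t = (x + y * s + n) / u := by
      rw [hu]
      have h3 : ((x : ℚ) : QB) + y * s + n ≠ 0 := by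
        intro h0
        apply hu0
        rw [hu, h0, zero_div]
      field_simp
    rw [htu]
    exact div_mem haK huK
  · exact absurd (case_two hs hF ht0 hm0 hm ht h ι₀ h2) id

include hs in
/-- **Quadratic characters.** -/
theorem key (hF : Fld d) (h : GK s → ZMod 2) (hc : IsLocallyConstant h)
    (hm : ∀ σ τ, h (σ * τ) = h σ + h τ)
    (ho : ∀ (p : ℕ) [Fact p.Prime] (ι : QB →ₐ[ℚ] PadicAlgCl p), p ≠ 2 →
      ∀ σ ∈ (II ι : Set (GK s)), h σ = 0)
    (ι₀ : QB →ₐ[ℚ] PadicAlgCl 2) (h2 : ∀ σ ∈ (DD ι₀ : Set (GK s)), h σ = 0) : ∀ σ, h σ = 0 := by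
  classical
  obtain ⟨t, a, ht0, hta, hσ⟩ := Pool.Agent.W309.TD.exists_root (K := KK s) (Ω := QB)
    two_ne_zero (fun σ => if h σ = 0 then 1 else -1) (fun σ => by
      show (if h σ = 0 then (1 : QB) else -1) = 1 ∨ (if h σ = 0 then (1 : QB) else -1) = -1
      split_ifs
      · exact Or.inl rfl
      · exact Or.inr rfl) (fun σ τ => by
      show (if h (σ * τ) = 0 then (1 : QB) else -1) = (if h σ = 0 then (1 : QB) else -1) *
        (if h τ = 0 then (1 : QB) else -1)
      rw [hm]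
      have h01 : ∀ x : ZMod 2, x = 0 ∨ x = 1 := by decide
      rcases h01 (h σ) with e1 | e1 <;> rcases h01 (h τ) with e2 | e2 <;> rw [e1, e2] <;>
        simp <;> decide) (hc.comp (fun x : ZMod 2 => if x = 0 then (1 : QB) else -1))
  have hfix : ∀ σ, h σ = 0 → σ t = t := by
    intro σ h0
    rw [hσ]
    simp [h0]
  have htK : t ^ 2 ∈ KK s := by
    rw [hta]
    exact a.2
  have hO : FixOdd s t := fun p _ ι τ σ hp hcmp hin => hfix σ (ho p ι hp σ ⟨τ, hcmp, hin⟩)
  have hT : ∀ τ : Au 2, τ (ι₀ t) = ι₀ t := by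
    intro τ
    obtain ⟨σ, hcmp⟩ := exists_cmp ι₀ τ (two_fix hF.mod (ιs hs ι₀) τ)
    rw [hcmp, hfix σ (h2 σ ⟨τ, hcmp⟩)]
  have hmem := root_mem hs hF ht0 htK hO ι₀ hT
  intro σ
  by_contra hne
  have h3 := hσ σ
  rw [fixK σ hmem] at h3
  simp only [hne, if_false] at h3
  apply ht0
  have h4 : (2 : QB) * t = 0 := by linear_combination h3
  exact (mul_eq_zero.1 h4).resolve_left two_ne_zero

end Pool.Agent.Z384
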