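import Pool.Agent.R384.Z.Tow
import Pool.Agent.R384.Cyc

/-!
# The Kummer cocycle of a `2`-adic combination of elements
-/

set_option autoImplicit false
set_option linter.unusedSectionVars false

namespace Pool.Agent.Z384

open Pool.Agent.Y715.Red Pool.Agent.Y715.Nr Pool.Agent.W237.RK
open Pool.Agent.Y715.Gi (QB KK GK i₀_mem gk_fix)
open Pool.Agent.Y715.Df (Cmp exists_cmp gh)
open Pool.Agent.Y715.Lc (norm_two_odd)
open Pool.Agent.R384 (cyc cyc_cont cyc_spec dvd_cast exists_int exists_lim eq_of_dvd)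

open scoped Classical

/-- a compatible system of roots -/
def Rt (t : ℕ → QB) : Prop := ∀ n, t (n + 1) ^ 2 = t n

lemma Rt.pow {t : ℕ → QB} (h : Rt t) (n : ℕ) : t n ^ 2 ^ n = t 0 := by
  induction n with
  | zero => simp
  | succ n ih => rw [pow_succ, mul_comm, pow_mul, h n, ih]

lemma exists_rt (x : QB) : ∃ t, t 0 = x ∧ Rt t := by
  choose f hf using fun y : QB => IsAlgClosed.exists_pow_nat_eq y (n := 2) two_pos
  exact ⟨fun n => f^[n] x, rfl, fun n => by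
    show (f^[n + 1] x) ^ 2 = f^[n] x
    rw [Function.iterate_succ_apply', hf]⟩

/-- a compatible system of roots of unity -/
structure Zt (ζ : ℕ → QB) : Prop where
  zero : ζ 0 = 1
  one : ζ 1 = -1
  rt : Rt ζ

lemma exists_zt : ∃ ζ, Zt ζ := by
  obtain ⟨t, h0, h1⟩ := exists_rt (-1)
  refine ⟨fun n => match n with
    | 0 => 1
    | n + 1 => t n, rfl, h0, fun n => ?_⟩
  cases n with
  | zero => show t 0 ^ 2 = 1; rw [h0]; norm_num
  | succ n => exact h1 n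

lemma Zt.prim {ζ : ℕ → QB} (h : Zt ζ) (n : ℕ) : IsPrimitiveRoot (ζ n) (2 ^ n) := by
  cases n with
  | zero => rw [h.zero, pow_zero]; exact IsPrimitiveRoot.one
  | succ n =>
    have h1 : ζ (n + 1) ^ 2 ^ n = -1 := by
      have h2 : ∀ m, ζ (m + 1) ^ 2 ^ m = -1 := by
        intro m
        induction m with
        | zero => simpa using h.one
        | succ m ih => rw [pow_succ, mul_comm, pow_mul, h.rt (m + 1), ih]
      exact h2 n
    have h2 : ζ (n + 1) ^ 2 ^ (n + 1) = 1 := by rw [h.rt.pow, h.zero]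
    have h3 : orderOf (ζ (n + 1)) = 2 ^ (n + 1) := by
      refine orderOf_eq_prime_pow ?_ h2
      rw [h1]
      norm_num
    rw [← h3]
    exact IsPrimitiveRoot.orderOf _

lemma Zt.ne {ζ : ℕ → QB} (h : Zt ζ) (n : ℕ) : ζ n ≠ 0 := (h.prim n).ne_zero (by positivity)

lemma Zt.zpow {ζ : ℕ → QB} (h : Zt ζ) {n : ℕ} {k l : ℤ} (hk : (2 ^ n : ℤ) ∣ k - l) :
    ζ n ^ k = ζ n ^ l := by
  have h1 : ζ n ^ (k - l) = 1 := by
    rw [(h.prim n).zpow_eq_one_iff_dvd]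
    exact_mod_cast hk
  rw [zpow_sub₀ (h.ne n), div_eq_one_iff_eq (zpow_ne_zero _ (h.ne n))] at h1
  exact h1

lemma Zt.dvd {ζ : ℕ → QB} (h : Zt ζ) {n : ℕ} {k l : ℤ} (hk : ζ n ^ k = ζ n ^ l) :
    (2 ^ n : ℤ) ∣ k - l := by
  have h1 : ζ n ^ (k - l) = 1 := by
    rw [zpow_sub₀ (h.ne n), hk, div_self (zpow_ne_zero _ (h.ne n))]
  rw [(h.prim n).zpow_eq_one_iff_dvd] at h1
  exact_mod_cast h1

lemma int_dvd {n : ℕ} {z : ℤ_[2]} {k l : ℤ} (h1 : (2 : ℤ_[2]) ^ n ∣ z - k)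
    (h2 : (2 : ℤ_[2]) ^ n ∣ z - l) : (2 ^ n : ℤ) ∣ k - l := by
  have h3 := dvd_sub h2 h1
  rw [sub_sub_sub_cancel_left] at h3
  rw [← dvd_cast]
  push_cast
  exact h3

variable {s : QB} {ζ : ℕ → QB} (hζ : Zt ζ)

include hζ in
lemma cyc_k (σ : GK s) {n : ℕ} {k : ℤ} (hk : (2 : ℤ_[2]) ^ n ∣ ((cyc s σ : ℤ_[2]ˣ) : ℤ_[2]) - k) :
    σ (ζ n) = ζ n ^ k := by
  have h1 := cyc_spec σ (n := n) (t := ζ n) (by rw [hζ.rt.pow, hζ.zero])
  rw [h1, ← zpow_natCast]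
  apply hζ.zpow
  refine int_dvd (z := ((cyc s σ : ℤ_[2]ˣ) : ℤ_[2])) ?_ hk
  have h2 := PadicInt.ker_toZModPow (p := 2) n
  have h3 : ((cyc s σ : ℤ_[2]ˣ) : ℤ_[2]) -
      (((((cyc s σ : ℤ_[2]ˣ) : ℤ_[2]).toZModPow n).val : ℤ) : ℤ_[2]) ∈
      RingHom.ker (PadicInt.toZModPow (p := 2) n) := by
    have hne : NeZero (2 ^ n) := ⟨by positivity⟩
    rw [RingHom.mem_ker, map_sub, Int.cast_natCast, map_natCast, ZMod.natCast_val, ZMod.cast_id',
      id, sub_self]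
  rw [h2, Ideal.mem_span_singleton] at h3
  exact_mod_cast h3

/-- the Kummer relation -/
def Km (ζ t : ℕ → QB) (σ : GK s) (z : ℤ_[2]) : Prop :=
  ∀ (n : ℕ) (k : ℤ), (2 : ℤ_[2]) ^ n ∣ z - k → σ (t n) = ζ n ^ k * t n

include hζ in
lemma exists_km {t : ℕ → QB} (ht : Rt t) (h0 : t 0 ≠ 0) (σ : GK s) (hσ : σ (t 0) = t 0) :
    ∃ z, Km ζ t σ z := by
  have hn : ∀ n, t n ≠ 0 := by
    intro n h
    apply h0
    rw [← ht.pow n, h, zero_pow (by positivity)]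
  have h1 : ∀ n, ∃ k : ℤ, σ (t n) = ζ n ^ k * t n := by
    intro n
    have h2 : (σ (t n) / t n) ^ 2 ^ n = 1 := by
      rw [div_pow, ← map_pow, ht.pow, hσ, div_self h0]
    have hne : NeZero (2 ^ n) := ⟨by positivity⟩
    obtain ⟨k, -, hk⟩ := (hζ.prim n).eq_pow_of_pow_eq_one h2
    refine ⟨k, ?_⟩
    rw [zpow_natCast, hk, div_mul_cancel₀ _ (hn n)]
  choose k hk using h1
  obtain ⟨z, hz⟩ := exists_lim k (fun n => by
    apply hζ.dvd
    have h3 : σ (t (n + 1)) ^ 2 = (ζ (n + 1) ^ k (n + 1) * t (n + 1)) ^ 2 :=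
      congrArg (fun x => x ^ 2) (hk (n + 1))
    rw [← map_pow, ht, mul_pow, ht, hk n, ← zpow_natCast, ← zpow_mul, mul_comm (k (n + 1)), zpow_mul,
      zpow_natCast, hζ.rt] at h3
    exact (mul_right_cancel₀ (hn n) h3).symm)
  refine ⟨z, fun n l hl => ?_⟩
  rw [hk n, hζ.zpow (int_dvd (hz n) hl)]

include hζ in
lemma km_unique {t : ℕ → QB} (ht : Rt t) (h0 : t 0 ≠ 0) {σ : GK s} {z z' : ℤ_[2]} (h : Km ζ t σ z)
    (h' : Km ζ t σ z') : z = z' := by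
  apply eq_of_dvd
  intro n
  have hn : t n ≠ 0 := by
    intro h
    apply h0
    rw [← ht.pow n, h, zero_pow (by positivity)]
  obtain ⟨k, hk⟩ := exists_int z n
  obtain ⟨k', hk'⟩ := exists_int z' n
  have h1 : (2 ^ n : ℤ) ∣ k - k' := by
    apply hζ.dvd
    refine mul_right_cancel₀ hn ?_
    rw [← h n k hk, ← h' n k' hk']
  have h2 : (2 : ℤ_[2]) ^ n ∣ ((k : ℤ_[2]) - k') := by
    have := (dvd_cast (n := n) (k := k - k')).2 h1
    push_cast at this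
    exact this
  have h3 := dvd_add (dvd_add hk h2) (dvd_neg.2 hk')
  convert h3 using 1
  ring

/-- the Kummer cocycle -/
noncomputable def km (ζ t : ℕ → QB) (σ : GK s) : ℤ_[2] :=
  if h : ∃ z, Km ζ t σ z then h.choose else 0

include hζ in
lemma km_spec {t : ℕ → QB} (ht : Rt t) (h0 : t 0 ≠ 0) (σ : GK s) (hσ : σ (t 0) = t 0) :
    Km ζ t σ (km ζ t σ) := by
  have h := exists_km hζ ht h0 σ hσ
  rw [km, dif_pos h]
  exact h.choose_spec

include hζ in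
lemma km_eq {t : ℕ → QB} (ht : Rt t) (h0 : t 0 ≠ 0) {σ : GK s} (hσ : σ (t 0) = t 0) {z : ℤ_[2]}
    (hz : Km ζ t σ z) : km ζ t σ = z := km_unique hζ ht h0 (km_spec hζ ht h0 σ hσ) hz

include hζ in
lemma km_mul {t : ℕ → QB} (ht : Rt t) (h0 : t 0 ≠ 0) {σ τ : GK s} (hσ : σ (t 0) = t 0)
    (hτ : τ (t 0) = t 0) :
    km ζ t (σ * τ) = km ζ t σ + ((cyc s σ : ℤ_[2]ˣ) : ℤ_[2]) * km ζ t τ := by
  refine km_eq hζ ht h0 (by rw [AlgEquiv.mul_apply, hτ, hσ]) fun n k hk => ?_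
  obtain ⟨a, ha⟩ := exists_int (km ζ t σ) n
  obtain ⟨b, hb⟩ := exists_int (km ζ t τ) n
  obtain ⟨c, hc⟩ := exists_int ((cyc s σ : ℤ_[2]ˣ) : ℤ_[2]) n
  rw [AlgEquiv.mul_apply, km_spec hζ ht h0 τ hτ n b hb, map_mul, map_zpow₀, cyc_k hζ σ hc,
    km_spec hζ ht h0 σ hσ n a ha, ← mul_assoc, ← zpow_mul, ← zpow_add₀ (hζ.ne n)]
  congr 1
  apply hζ.zpow
  refine int_dvd (z := km ζ t σ + ((cyc s σ : ℤ_[2]ˣ) : ℤ_[2]) * km ζ t τ) ?_ hk
  have h1 : km ζ t σ + ((cyc s σ : ℤ_[2]ˣ) : ℤ_[2]) * km ζ t τ - ((c * b + a : ℤ) : ℤ_[2]) =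
      (km ζ t σ - a) + (((cyc s σ : ℤ_[2]ˣ) : ℤ_[2]) - c) * km ζ t τ + c * (km ζ t τ - b) := by
    push_cast
    ring
  rw [h1]
  exact dvd_add (dvd_add ha (Dvd.dvd.mul_right hc _)) (Dvd.dvd.mul_left hb _)

include hζ in
/-- elements which are fixed with their roots -/
lemma km_zero {t : ℕ → QB} (ht : Rt t) (h0 : t 0 ≠ 0) {σ : GK s} (hσ : ∀ n, σ (t n) = t n) :
    km ζ t σ = 0 := by
  refine km_eq hζ ht h0 (hσ 0) fun n k hk => ?_
  rw [hσ n, hζ.zpow (l := 0) (int_dvd hk (by simp)), zpow_zero, one_mul]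

include hζ in
lemma km_dvd {t : ℕ → QB} (ht : Rt t) (h0 : t 0 ≠ 0) {σ σ' : GK s} (hσ : σ (t 0) = t 0)
    (hσ' : σ' (t 0) = t 0) {n : ℕ} (h : σ (t n) = σ' (t n)) :
    (2 : ℤ_[2]) ^ n ∣ km ζ t σ - km ζ t σ' := by
  have hn : t n ≠ 0 := by
    intro h
    apply h0
    rw [← ht.pow n, h, zero_pow (by positivity)]
  obtain ⟨a, ha⟩ := exists_int (km ζ t σ) n
  obtain ⟨b, hb⟩ := exists_int (km ζ t σ') n
  rw [km_spec hζ ht h0 σ hσ n a ha, km_spec hζ ht h0 σ' hσ' n b hb] at h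
  have h1 := hζ.dvd (mul_right_cancel₀ hn h)
  have h2 : (2 : ℤ_[2]) ^ n ∣ ((a : ℤ_[2]) - b) := by
    have := (dvd_cast (n := n) (k := a - b)).2 h1
    push_cast at this
    exact this
  have h3 := dvd_add (dvd_add ha h2) (dvd_neg.2 hb)
  convert h3 using 1
  ring

include hζ in
lemma km_cont {t : ℕ → QB} (ht : Rt t) (h0 : t 0 ≠ 0) {H : Subgroup (GK s)}
    (hH : ∀ σ : H, (σ : GK s) (t 0) = t 0) : Continuous fun σ : H => km ζ t (σ : GK s) := by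
  rw [Metric.continuous_iff']
  intro σ ε hε
  obtain ⟨n, hn⟩ := exists_pow_lt_of_lt_one hε (by norm_num : (1 / 2 : ℝ) < 1)
  have h1 : IsLocallyConstant fun σ : H => (σ : GK s) (t n) :=
    (Pool.Agent.W309.TD.locConst_apply (K := KK s) (Ω := QB) (t n)).comp_continuous
      continuous_subtype_val
  obtain ⟨U, hU, hσ, hc⟩ := (IsLocallyConstant.iff_exists_open _).1 h1 σ
  filter_upwards [hU.mem_nhds hσ] with τ hτ
  have h2 := km_dvd hζ ht h0 (hH τ) (hH σ) (hc τ hτ)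
  rw [dist_eq_norm]
  refine lt_of_le_of_lt ?_ hn
  obtain ⟨c, hc'⟩ := h2
  rw [hc', norm_mul, norm_pow]
  have h3 : ‖(2 : ℤ_[2])‖ = 1 / 2 := by
    have := PadicInt.norm_p (p := 2)
    push_cast at this
    rw [this]
    norm_num
  rw [h3]
  have h4 := PadicInt.norm_le_one c
  have h5 : (0 : ℝ) ≤ (1 / 2) ^ n := by positivity
  nlinarith

end Pool.Agent.Z384
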