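import Pool.Agent.R384.Z.SgL

/-!
# Leopoldt's conjecture at `2` over the `2`-extensions of `ℚ(√-d)` unramified outside `2`
-/

set_option autoImplicit false
set_option linter.unusedSectionVars false

namespace Pool.Agent.Z384

open NumberField Module TensorProduct Pool.Agent.W289.SL Filter Topology Pool.Agent.Y419.LC.LcpP

/-- the logarithm is small near `1` -/
lemma log_le {p : ℕ} [Fact p.Prime] {L : ℂ_[p] → ℂ_[p]} (hL : IsIwasawaLog p L) {z : ℂ_[p]}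
    (hz : ‖z‖ ≤ 1 / 8) : ‖L (1 + z)‖ ≤ 2 * ‖z‖ := by
  have h1 := hL.approx hz
  have h2 : ‖L (1 + z)‖ ≤ ‖L (1 + z) - z‖ + ‖z‖ := by
    calc ‖L (1 + z)‖ = ‖(L (1 + z) - z) + z‖ := by rw [sub_add_cancel]
      _ ≤ _ := norm_add_le _ _
  nlinarith [norm_nonneg z]

lemma log_tendsto {p : ℕ} [hp : Fact p.Prime] {L : ℂ_[p] → ℂ_[p]} (hL : IsIwasawaLog p L) {E : Type}
    [Field E] [NumberField E] (σ : E →+* ℂ_[p]) (u : ℕ → (𝓞 E)ˣ)
    (hu : ∀ N : ℕ, ∀ᶠ k in atTop, ((p : ℕ) : 𝓞 E) ^ N ∣ (((u k : (𝓞 E)ˣ) : 𝓞 E) - 1)) :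
    Tendsto (fun k => L (σ ((u k : 𝓞 E) : E))) atTop (𝓝 0) := by
  rw [Metric.tendsto_nhds]
  intro ε hε
  obtain ⟨n, hn⟩ := exists_pow_lt_of_lt_one (show (0 : ℝ) < ε / 4 by positivity)
    (by norm_num : (1 / 2 : ℝ) < 1)
  filter_upwards [hu (n + 3)] with k hk
  obtain ⟨v, hv⟩ := hk
  have hσu : σ ((u k : 𝓞 E) : E) = 1 + σ (((u k : 𝓞 E) - 1 : 𝓞 E) : E) := by
    have h5 : σ (((u k : 𝓞 E) - 1 : 𝓞 E) : E) = σ ((u k : 𝓞 E) : E) - 1 := by
      simp only [map_sub, map_one]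
    rw [h5]
    ring
  have h2 : ‖σ (((u k : 𝓞 E) - 1 : 𝓞 E) : E)‖ ≤ (1 / 2 : ℝ) ^ (n + 3) := by
    rw [hv]
    have h3 : σ ((((p : ℕ) : 𝓞 E) ^ (n + 3) * v : 𝓞 E) : E) = ((p : ℕ) : ℂ_[p]) ^ (n + 3) * σ (v : E) := by
      simp only [map_mul, map_pow, map_natCast]
    rw [h3, norm_mul, norm_pow, norm_p]
    have h4 := norm_emb_le σ v
    have h5 : ((p : ℝ)⁻¹) ≤ 1 / 2 := by
      rw [one_div]
      apply inv_anti₀ (by norm_num)
      exact_mod_cast hp.out.two_le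
    have h6 : ((p : ℝ)⁻¹) ^ (n + 3) ≤ (1 / 2) ^ (n + 3) := pow_le_pow_left₀ (by positivity) h5 _
    calc ((p : ℝ)⁻¹) ^ (n + 3) * ‖σ (v : E)‖ ≤ (1 / 2) ^ (n + 3) * 1 := by gcongr
      _ = (1 / 2) ^ (n + 3) := mul_one _
  have h3 : (1 / 2 : ℝ) ^ (n + 3) ≤ 1 / 8 := by
    rw [pow_add]
    have : (1 / 2 : ℝ) ^ n ≤ 1 := pow_le_one₀ (by norm_num) (by norm_num)
    norm_num
    linarith
  have h4 := log_le hL (h2.trans h3)
  rw [← hσu] at h4
  rw [dist_zero_right]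
  have h5 : (1 / 2 : ℝ) ^ (n + 3) ≤ (1 / 2) ^ n := pow_le_pow_of_le_one (by norm_num) (by norm_num)
    (by omega)
  linarith

section main

variable {d : ℕ} (hF : Fld d) {k M : Type} [Field k] [NumberField k]
  [Field M] [NumberField M] [Algebra k M] [IsGalois k M]

include hF in
theorem leo (hk : Module.finrank ℚ k = 2) {θ : k} (hθ : θ ^ 2 = -(d : k)) {a' : ℕ}
    (ha' : Module.finrank k M = 2 ^ a')
    (hur : ∀ P : Ideal (𝓞 M), P.IsPrime → P ≠ ⊥ → (2 : 𝓞 M) ∉ P → P.ramificationIdx (𝓞 k) = 1)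
    {E : Type} [Field E] [NumberField E] (j : E →+* M)
    (n : ℕ) (ε : Fin n → (𝓞 E)ˣ) (hε : ∀ c : Fin n → ℤ, ∏ i, ε i ^ c i = 1 → c = 0)
    (a : Fin n → ℤ_[2]) (m : ℕ → Fin n → ℤ)
    (hm : ∀ i, Tendsto (fun k => ((m k i : ℤ) : ℤ_[2])) atTop (𝓝 (a i)))
    (hu : ∀ N : ℕ, ∀ᶠ k in atTop, ((2 : ℕ) : 𝓞 E) ^ N ∣ (((∏ i, ε i ^ m k i : (𝓞 E)ˣ) : 𝓞 E) - 1)) :
    a = 0 := by
  obtain ⟨L, hL⟩ := exists_iwasawaLog 2
  set F : (𝓞 E)ˣ →* (𝓞 M)ˣ := Units.map (RingOfIntegers.mapRingHom j).toMonoidHom with hFd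
  have hFinj : Function.Injective F := by
    intro x y hxy
    apply Units.ext
    apply RingOfIntegers.ext
    apply j.injective
    exact congrArg (fun z : (𝓞 M)ˣ => ((z : 𝓞 M) : M)) hxy
  -- the relation
  have hrel : ∀ σ : M →+* ℂ_[2], ∑ i, algebraMap ℚ_[2] ℂ_[2] (a i : ℚ_[2]) *
      L (σ ((F (ε i) : 𝓞 M) : M)) = 0 := by
    intro σ
    have h1 := log_tendsto hL (σ.comp j) (fun k => ∏ i, ε i ^ m k i) hu
    have h2 : Tendsto (fun k => L ((σ.comp j) (((∏ i, ε i ^ m k i : (𝓞 E)ˣ) : 𝓞 E) : E))) atTop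
        (𝓝 (∑ i, algebraMap ℚ_[2] ℂ_[2] (a i : ℚ_[2]) * L (σ ((F (ε i) : 𝓞 M) : M)))) := by
      have h3 : ∀ k, L ((σ.comp j) (((∏ i, ε i ^ m k i : (𝓞 E)ˣ) : 𝓞 E) : E)) =
          ∑ i, algebraMap ℚ_[2] ℂ_[2] (((m k i : ℤ) : ℤ_[2]) : ℚ_[2]) *
            L (σ ((F (ε i) : 𝓞 M) : M)) := by
        intro k
        have h5 : logHom hL (σ.comp j) (Additive.ofMul (∏ i, ε i ^ m k i)) =
            ∑ i, (m k i) • logHom hL (σ.comp j) (Additive.ofMul (ε i)) := by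
          rw [ofMul_prod, map_sum]
          refine Finset.sum_congr rfl fun i _ => ?_
          rw [ofMul_zpow, map_zsmul]
        have h6 : L ((σ.comp j) (((∏ i, ε i ^ m k i : (𝓞 E)ˣ) : 𝓞 E) : E)) =
          logHom hL (σ.comp j) (Additive.ofMul (∏ i, ε i ^ m k i)) := rfl
        rw [h6, h5]
        refine Finset.sum_congr rfl fun i _ => ?_
        rw [zsmul_eq_mul]
        congr 1
        simp
      simp only [h3]
      have hj : Continuous (fun x : ℤ_[2] => algebraMap ℚ_[2] ℂ_[2] (x : ℚ_[2])) :=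
        (continuous_algebraMap ℚ_[2] ℂ_[2]).comp continuous_subtype_val
      refine tendsto_finsetSum _ fun i _ => ?_
      exact ((hj.tendsto (a i)).comp (hm i)).mul_const _
    exact tendsto_nhds_unique h2 h1
  -- the point of `ℂ_2 ⊗ 𝓞_Mˣ`
  have hx := sgl (H := M) (M := M) hF hk hθ ha' hur
    (θ₀ := (Classical.choice (inferInstance : Nonempty (k →+* ℂ_[2]))) θ)
    (by rw [← map_pow, hθ, map_neg, map_natCast]) hL
    (∑ i, algebraMap ℚ_[2] ℂ_[2] (a i : ℚ_[2]) ⊗ₜ[ℤ] Additive.ofMul (F (ε i)))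
    (fun σ _ => by
      rw [map_sum]
      exact hrel σ)
  have hli : LinearIndependent ℤ (fun i => Additive.ofMul (F (ε i))) := by
    rw [Fintype.linearIndependent_iff]
    intro g hg
    have h1 : F (∏ i, ε i ^ g i) = 1 := by
      rw [map_prod]
      apply Additive.ofMul.injective
      rw [ofMul_prod, ofMul_one, ← hg]
      refine Finset.sum_congr rfl fun i _ => ?_
      rw [map_zpow, ofMul_zpow]
    have h2 := hε g (hFinj (by rw [h1, map_one]))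
    intro i
    exact congrFun h2 i
  have hli2 := Module.Flat.linearIndependent_one_tmul (S := ℂ_[2]) hli
  rw [Fintype.linearIndependent_iff] at hli2
  have h3 := hli2 (fun i => algebraMap ℚ_[2] ℂ_[2] (a i : ℚ_[2])) (by
    rw [← hx]
    refine Finset.sum_congr rfl fun i _ => ?_
    rw [TensorProduct.smul_tmul', smul_eq_mul, mul_one])
  funext i
  have h4 : (a i : ℚ_[2]) = 0 := (map_eq_zero (algebraMap ℚ_[2] ℂ_[2])).1 (h3 i)
  exact Subtype.ext h4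

end main

end Pool.Agent.Z384
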