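import Pool.Agent.R384.Z.Kmr

/-!
# The local triviality of the Kummer cocycle
-/

set_option autoImplicit false
set_option linter.unusedSectionVars false

namespace Pool.Agent.Z384

open Pool.Agent.Y715.Red Pool.Agent.Y715.Nr Pool.Agent.W237.RK
open Pool.Agent.Y715.Gi (QB KK GK i₀_mem gk_fix norm_two')
open Pool.Agent.Y715.Df (Cmp exists_cmp gh)
open Pool.Agent.Y715.Lc (norm_two_odd)
open Pool.Agent.R384 (cyc cyc_cont cyc_spec dvd_cast exists_int exists_lim eq_of_dvd)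

open scoped Classical

lemma ns_le {p : ℕ} [Fact p.Prime] (x y : PadicAlgCl p) : ‖x - y‖ ≤ max ‖x‖ ‖y‖ := by
  rw [sub_eq_add_neg]
  refine (IsUltrametricDist.norm_add_le_max _ _).trans ?_
  rw [norm_neg]

/-- roots of unity near `1`, for `p` odd -/
lemma near_odd {p : ℕ} [Fact p.Prime] (hp : p ≠ 2) : ∀ (N : ℕ) (z : PadicAlgCl p), z ^ 2 ^ N = 1 →
    ‖z - 1‖ < 1 → z = 1 := by
  intro N
  induction N with
  | zero => intro z h _; simpa using h
  | succ N ih =>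
    intro z h h2
    have hz : ‖z‖ = 1 := by
      have h1 := congrArg norm h
      rw [norm_pow, norm_one] at h1
      exact (pow_eq_one_iff_of_nonneg (norm_nonneg _) (by positivity)).1 h1
    have h3 : z ^ 2 = 1 := by
      apply ih
      · rw [← pow_mul, ← pow_succ', h]
      · have h4 : z ^ 2 - 1 = (z - 1) * (z + 1) := by ring
        rw [h4, norm_mul]
        have h5 : ‖z + 1‖ ≤ 1 := by
          refine (IsUltrametricDist.norm_add_le_max _ _).trans ?_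
          rw [hz, norm_one, max_self]
        nlinarith [norm_nonneg (z - 1), norm_nonneg (z + 1)]
    rcases sq_eq_one_iff.1 h3 with h4 | h4
    · exact h4
    · exfalso
      rw [h4] at h2
      have e : (-1 - 1 : PadicAlgCl p) = -2 := by norm_num
      rw [e, norm_neg, norm_two_odd hp] at h2
      exact lt_irrefl _ h2

/-- inertia and roots of units -/
lemma inert_root {p : ℕ} [Fact p.Prime] (hp : p ≠ 2) {τ : Au p} (hin : Inert τ) {N : ℕ}
    {x : PadicAlgCl p} (hx : ‖x‖ = 1) (hτ : τ (x ^ 2 ^ N) = x ^ 2 ^ N) : τ x = x := by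
  have hx0 : x ≠ 0 := by
    rintro rfl
    rw [norm_zero] at hx
    exact zero_ne_one hx
  have h1 : τ x / x = 1 := by
    apply near_odd hp N
    · rw [div_pow, ← map_pow, hτ, div_self (pow_ne_zero _ hx0)]
    · have h2 := hin x hx.le
      have e : τ x / x - 1 = (τ x - x) / x := by field_simp
      rw [e, norm_div, hx, div_one]
      exact h2
  exact (div_eq_one_iff_eq hx0).1 h1

/-- roots of unity near `1` -/
lemma near_two : ∀ (N : ℕ) (z : PadicAlgCl 2), z ^ 2 ^ N = 1 → ‖z - 1‖ < 1 / 2 → z = 1 := by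
  intro N
  induction N with
  | zero => intro z h _; simpa using h
  | succ N ih =>
    intro z h h2
    have h3 : z ^ 2 = 1 := by
      apply ih
      · rw [← pow_mul, ← pow_succ', h]
      · have h4 : z ^ 2 - 1 = (z - 1) * (z + 1) := by ring
        rw [h4, norm_mul]
        have h5 : ‖z + 1‖ ≤ 1 / 2 := by
          have e : z + 1 = (z - 1) + 2 := by ring
          rw [e]
          refine (IsUltrametricDist.norm_add_le_max _ _).trans (max_le h2.le ?_)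
          rw [norm_two']
          norm_num
        nlinarith [norm_nonneg (z - 1), norm_nonneg (z + 1)]
    rcases sq_eq_one_iff.1 h3 with h4 | h4
    · exact h4
    · exfalso
      rw [h4] at h2
      have e : (-1 - 1 : PadicAlgCl 2) = -2 := by norm_num
      rw [e, norm_neg, norm_two'] at h2
      norm_num at h2

lemma norm_root {p : ℕ} [Fact p.Prime] {ω : PadicAlgCl p} {N : ℕ} (h : ω ^ 2 ^ N = 1) : ‖ω‖ = 1 := by
  have h1 := congrArg norm h
  rw [norm_pow, norm_one] at h1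
  exact (pow_eq_one_iff_of_nonneg (norm_nonneg _) (by positivity)).1 h1

lemma root_near : ∀ (N M : ℕ) (x : PadicAlgCl 2), ‖x ^ 2 ^ N - 1‖ ≤ (1 / 2 : ℝ) ^ (N + M) →
    ∃ ω : PadicAlgCl 2, ω ^ 2 ^ N = 1 ∧ ‖x - ω‖ ≤ (1 / 2 : ℝ) ^ M := by
  intro N
  induction N with
  | zero =>
    intro M x h
    refine ⟨1, by simp, ?_⟩
    simpa using h
  | succ N ih =>
    intro M x h
    obtain ⟨ω₁, h1, h2⟩ := ih (M + 1) (x ^ 2) (by
      rw [← pow_mul, ← pow_succ']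
      refine h.trans_eq ?_
      congr 1
      ring)
    obtain ⟨ω₂, h3⟩ := IsAlgClosed.exists_pow_nat_eq ω₁ (n := 2) two_pos
    have h4 : ω₂ ^ 2 ^ (N + 1) = 1 := by rw [pow_succ', pow_mul, h3, h1]
    have h5 : ‖ω₂‖ = 1 := norm_root h4
    have h6 : ‖x - ω₂‖ * ‖x + ω₂‖ ≤ (1 / 2 : ℝ) ^ (M + 1) := by
      rw [← norm_mul]
      refine le_of_eq_of_le ?_ h2
      rw [← h3]
      congr 1
      ring
    have h7 : (1 / 2 : ℝ) ≤ max ‖x + ω₂‖ ‖x - ω₂‖ := by
      have e : (2 : PadicAlgCl 2) * ω₂ = (x + ω₂) - (x - ω₂) := by ring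
      have h8 := ns_le (x + ω₂) (x - ω₂)
      rw [← e, norm_mul, norm_two', h5, mul_one] at h8
      rw [one_div]
      exact h8
    have hp : (0 : ℝ) < (1 / 2) ^ M := by positivity
    rw [pow_succ] at h6
    rcases le_max_iff.1 h7 with h8 | h8
    · refine ⟨ω₂, h4, ?_⟩
      nlinarith [norm_nonneg (x - ω₂)]
    · refine ⟨-ω₂, by rw [Even.neg_pow (by rw [pow_succ']; exact even_two_mul _), h4], ?_⟩
      rw [sub_neg_eq_add]
      nlinarith [norm_nonneg (x + ω₂)]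

lemma tau_root {N : ℕ} {x : PadicAlgCl 2} (h : ‖x ^ 2 ^ N - 1‖ ≤ (1 / 2 : ℝ) ^ (N + 2)) :
    ∃ ω : PadicAlgCl 2, ω ^ 2 ^ N = 1 ∧ ∀ τ : Au 2, τ (x ^ 2 ^ N) = x ^ 2 ^ N →
      τ x * ω = τ ω * x := by
  obtain ⟨ω, h1, h2⟩ := root_near N 2 x h
  refine ⟨ω, h1, fun τ hτ => ?_⟩
  have h3 : ‖ω‖ = 1 := norm_root h1
  have hω : ω ≠ 0 := by
    rintro rfl
    rw [norm_zero] at h3
    exact zero_ne_one h3
  have hx0 : x ≠ 0 := by
    rintro rfl
    rw [zero_sub, norm_neg, h3] at h2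
    norm_num at h2
  have hτω : τ ω ≠ 0 := by
    rw [Ne, map_eq_zero]
    exact hω
  have hx1 : ‖x‖ = 1 := by
    have e : x = (x - ω) + ω := by ring
    rw [e, IsUltrametricDist.norm_add_eq_max_of_norm_ne_norm, h3]
    · apply max_eq_right
      refine h2.trans ?_
      norm_num
    · rw [h3]
      intro h4
      rw [h4] at h2
      norm_num at h2
  have h5 : (τ x * ω) / (τ ω * x) = 1 := by
    apply near_two N
    · rw [div_pow, mul_pow, mul_pow, ← map_pow, ← map_pow, hτ, h1, map_one, mul_one, one_mul,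
        div_self (pow_ne_zero _ hx0)]
    · have e : (τ x * ω) / (τ ω * x) - 1 = ((τ (x - ω)) * ω - τ ω * (x - ω)) / (τ ω * x) := by
        rw [map_sub]
        field_simp
        ring
      rw [e, norm_div, norm_mul (τ ω), nrm, h3, hx1, mul_one, div_one]
      have h6 := ns_le ((τ (x - ω)) * ω) (τ ω * (x - ω))
      rw [norm_mul, norm_mul, nrm, nrm, h3, mul_one, one_mul, max_self] at h6
      refine lt_of_le_of_lt (h6.trans h2) ?_
      norm_num
  exact (div_eq_one_iff_eq (mul_ne_zero hτω hx0)).1 h5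

variable {s : QB} {ζ : ℕ → QB} (hζ : Zt ζ) {r : ℕ} {t : Fin r → ℕ → QB} (ht : ∀ i, Rt (t i))
  (h0 : ∀ i, t i 0 ≠ 0)

/-- the Kummer cocycle of a combination -/
noncomputable def kc (ζ : ℕ → QB) (t : Fin r → ℕ → QB) (b : Fin r → ℤ_[2]) (σ : GK s) : ℤ_[2] :=
  ∑ i, b i * km ζ (t i) σ

include hζ ht h0 in
lemma kc_spec (b : Fin r → ℤ_[2]) {σ : GK s} (hσ : ∀ i, σ (t i 0) = t i 0) {n : ℕ}
    {m : Fin r → ℤ} (hm : ∀ i, (2 : ℤ_[2]) ^ n ∣ b i - m i) {k : ℤ}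
    (hk : (2 : ℤ_[2]) ^ n ∣ kc ζ t b σ - k) :
    σ (∏ i, t i n ^ m i) = ζ n ^ k * ∏ i, t i n ^ m i := by
  choose a ha using fun i => exists_int (km ζ (t i) σ) n
  have h1 : ∀ i, σ (t i n ^ m i) = ζ n ^ (a i * m i) * t i n ^ m i := by
    intro i
    rw [map_zpow₀, km_spec hζ (ht i) (h0 i) σ (hσ i) n (a i) (ha i), mul_zpow, ← zpow_mul]
  rw [map_prod, Finset.prod_congr rfl fun i _ => h1 i, Finset.prod_mul_distrib]
  congr 1
  have h2 : ∏ i, ζ n ^ (a i * m i) = ζ n ^ (∑ i, a i * m i) := by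
    induction (Finset.univ : Finset (Fin r)) using Finset.induction_on with
    | empty => simp
    | insert i S hi ih =>
      rw [Finset.prod_insert hi, Finset.sum_insert hi, zpow_add₀ (hζ.ne n), ih]
  rw [h2]
  apply hζ.zpow
  refine int_dvd (z := kc ζ t b σ) ?_ hk
  have h3 : kc ζ t b σ - ((∑ i, a i * m i : ℤ) : ℤ_[2]) =
      ∑ i, ((b i - m i) * km ζ (t i) σ + m i * (km ζ (t i) σ - a i)) := by
    rw [kc, Int.cast_sum, ← Finset.sum_sub_distrib]
    refine Finset.sum_congr rfl fun i _ => ?_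
    push_cast
    ring
  rw [h3]
  exact Finset.dvd_sum fun i _ => dvd_add (Dvd.dvd.mul_right (hm i) _) (Dvd.dvd.mul_left (ha i) _)

include hζ ht h0 in
lemma kc_mul (b : Fin r → ℤ_[2]) {σ τ : GK s} (hσ : ∀ i, σ (t i 0) = t i 0)
    (hτ : ∀ i, τ (t i 0) = t i 0) :
    kc ζ t b (σ * τ) = kc ζ t b σ + ((cyc s σ : ℤ_[2]ˣ) : ℤ_[2]) * kc ζ t b τ := by
  unfold kc
  rw [Finset.mul_sum, ← Finset.sum_add_distrib]
  refine Finset.sum_congr rfl fun i _ => ?_
  rw [km_mul hζ (ht i) (h0 i) (hσ i) (hτ i)]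
  ring

include hζ ht h0 in
lemma kc_cont (b : Fin r → ℤ_[2]) {H : Subgroup (GK s)} (hH : ∀ σ : H, ∀ i, (σ : GK s) (t i 0) = t i 0) :
    Continuous fun σ : H => kc ζ t b (σ : GK s) :=
  continuous_finsetSum _ fun i _ => continuous_const.mul (km_cont hζ (ht i) (h0 i) fun σ => hH σ i)

include hζ ht h0 in
lemma kc_inert (b : Fin r → ℤ_[2]) {p : ℕ} [Fact p.Prime] (hp : p ≠ 2) (ι : QB →ₐ[ℚ] PadicAlgCl p)
    (h1 : ∀ i, ‖ι (t i 0)‖ = 1) {σ : GK s} (hσ : σ ∈ (II ι : Set (GK s)))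
    (hσ0 : ∀ i, σ (t i 0) = t i 0) : kc ζ t b σ = 0 := by
  obtain ⟨τ, hτ, hin⟩ := hσ
  refine Finset.sum_eq_zero fun i _ => ?_
  rw [km_zero hζ (ht i) (h0 i), mul_zero]
  intro n
  refine ι.injective (?_ : ι (σ (t i n)) = ι (t i n))
  rw [← hτ]
  have h2 : ι (t i n) ^ 2 ^ n = ι (t i 0) := by rw [← map_pow, (ht i).pow]
  refine inert_root hp hin (N := n) ?_ ?_
  · have h3 := h1 i
    rw [← h2, norm_pow] at h3
    exact (pow_eq_one_iff_of_nonneg (norm_nonneg _) (by positivity)).1 h3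
  · rw [h2, hτ, hσ0]

include hζ ht h0 in
/-- **The local triviality of the cocycle.** -/
theorem kc_two (b : Fin r → ℤ_[2]) (ι : QB →ₐ[ℚ] PadicAlgCl 2)
    (hloc : ∀ N : ℕ, ∃ m : Fin r → ℤ, (∀ i, (2 : ℤ_[2]) ^ N ∣ b i - m i) ∧
      ‖ι (∏ i, t i 0 ^ m i) - 1‖ ≤ (1 / 2 : ℝ) ^ (N + 2)) :
    ∃ y : ℤ_[2], ∀ σ ∈ (DD ι : Set (GK s)), (∀ i, σ (t i 0) = t i 0) →
      kc ζ t b σ = ((cyc s σ : ℤ_[2]ˣ) : ℤ_[2]) * y - y := by
  set D : Set (GK s) := {σ | σ ∈ (DD ι : Set (GK s)) ∧ ∀ i, σ (t i 0) = t i 0} with hD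
  set A : ℕ → Set ℤ_[2] := fun N => {y | ∀ σ ∈ D,
    ‖kc ζ t b σ - (((cyc s σ : ℤ_[2]ˣ) : ℤ_[2]) * y - y)‖ ≤ (1 / 2 : ℝ) ^ N} with hA
  have hn2 : ‖(2 : ℤ_[2])‖ = 1 / 2 := by
    have := PadicInt.norm_p (p := 2)
    push_cast at this
    rw [this]
    norm_num
  have hdv : ∀ (N : ℕ) (z : ℤ_[2]), (2 : ℤ_[2]) ^ N ∣ z → ‖z‖ ≤ (1 / 2 : ℝ) ^ N := by
    rintro N z ⟨c, rfl⟩
    rw [norm_mul, norm_pow, hn2]
    have h4 := PadicInt.norm_le_one c
    have h5 : (0 : ℝ) ≤ (1 / 2) ^ N := by positivity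
    nlinarith
  have hne : ∀ N, (A N).Nonempty := by
    intro N
    obtain ⟨m, hm, hN⟩ := hloc N
    set T : QB := ∏ i, t i N ^ m i with hT
    have hT0 : T ≠ 0 := by
      rw [hT]
      refine Finset.prod_ne_zero_iff.2 fun i _ => zpow_ne_zero _ ?_
      intro h
      apply h0 i
      rw [← (ht i).pow N, h, zero_pow (by positivity)]
    have hTN : T ^ 2 ^ N = ∏ i, t i 0 ^ m i := by
      rw [hT, ← Finset.prod_pow]
      refine Finset.prod_congr rfl fun i _ => ?_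
      rw [← zpow_natCast, ← zpow_mul, mul_comm, zpow_mul, zpow_natCast, (ht i).pow]
    rw [← hTN, map_pow] at hN
    obtain ⟨ω, hω, hω2⟩ := tau_root hN
    have hprim : IsPrimitiveRoot (ι (ζ N)) (2 ^ N) := (hζ.prim N).map_of_injective ι.injective
    have hNZ : NeZero (2 ^ N) := ⟨by positivity⟩
    obtain ⟨a, -, ha⟩ := hprim.eq_pow_of_pow_eq_one hω
    refine ⟨(a : ℤ_[2]), ?_⟩
    rintro σ ⟨⟨τ, hτ⟩, hσ⟩
    apply hdv
    obtain ⟨k, hk⟩ := exists_int (kc ζ t b σ) N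
    obtain ⟨c, hc⟩ := exists_int ((cyc s σ : ℤ_[2]ˣ) : ℤ_[2]) N
    have h1 := kc_spec hζ ht h0 b hσ hm hk
    rw [← hT] at h1
    have hζN : ζ N ^ 2 ^ N = 1 := by rw [hζ.rt.pow, hζ.zero]
    have h2 := hω2 τ (by
      rw [← map_pow, hτ, map_pow σ, h1, mul_pow, ← zpow_natCast (ζ N ^ k), ← zpow_mul, mul_comm k,
        zpow_mul, zpow_natCast, hζN, one_zpow, one_mul])
    have e1 : τ (ι T) = ι (ζ N ^ k * T) := by rw [hτ, h1]
    have e2 : τ ω = ι ((ζ N ^ c) ^ a) := by rw [← ha, ← map_pow, hτ, map_pow σ, cyc_k hζ σ hc]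
    rw [e1, e2, ← ha, ← map_pow ι, ← map_mul, ← map_mul] at h2
    have h3 := ι.injective h2
    have h4 : ζ N ^ (k + a) = ζ N ^ (c * a) := by
      refine mul_right_cancel₀ hT0 ?_
      rw [zpow_add₀ (hζ.ne N), zpow_natCast, zpow_mul, zpow_natCast]
      rw [← h3]
      ring
    have h5 := (dvd_cast (n := N)).2 (hζ.dvd h4)
    have h6 : kc ζ t b σ - (((cyc s σ : ℤ_[2]ˣ) : ℤ_[2]) * a - a) =
        (kc ζ t b σ - k) - (((cyc s σ : ℤ_[2]ˣ) : ℤ_[2]) - c) * a +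
          ((k + a - c * a : ℤ) : ℤ_[2]) := by
      push_cast
      ring
    rw [h6]
    exact dvd_add (dvd_sub hk (Dvd.dvd.mul_right hc _)) h5
  have hcl : ∀ N, IsClosed (A N) := by
    intro N
    have : A N = ⋂ σ ∈ D, {y | ‖kc ζ t b σ - (((cyc s σ : ℤ_[2]ˣ) : ℤ_[2]) * y - y)‖ ≤
        (1 / 2 : ℝ) ^ N} := by
      ext y
      simp [hA]
    rw [this]
    refine isClosed_biInter fun σ _ => isClosed_le ?_ continuous_const
    fun_prop
  obtain ⟨y, hy⟩ := IsCompact.nonempty_iInter_of_sequence_nonempty_isCompact_isClosed A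
    (fun N y hy σ hσ => (hy σ hσ).trans (pow_le_pow_of_le_one (by norm_num) (by norm_num)
      (Nat.le_succ N))) hne (hcl 0).isCompact hcl
  refine ⟨y, fun σ hσ hσ0 => ?_⟩
  rw [← sub_eq_zero, ← norm_le_zero_iff]
  have h1 := fun N => Set.mem_iInter.1 hy N σ ⟨hσ, hσ0⟩
  refine le_of_tendsto_of_tendsto' tendsto_const_nhds
    (tendsto_pow_atTop_nhds_zero_of_lt_one (by norm_num) (by norm_num : (1 / 2 : ℝ) < 1)) h1

end Pool.Agent.Z384
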