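import Pool.Agent.R384.Z.AbsH

/-!
# Monomial representations of the Galois groups of the fields in the `2`-extensions of `ℚ`
-/

set_option autoImplicit false
set_option linter.unusedSectionVars false

namespace Pool.Agent.Z384

open Pool.Agent.Y715.Red Pool.Agent.Y715.Nr Pool.Agent.W237.RK
open Pool.Agent.Y715.Gi (QB KK GK i₀_mem gk_fix)
open IsLocalRing Matrix

variable {A : Type*} [CommRing A] [IsLocalRing A] [IsNoetherianRing A] [TopologicalSpace A] {n : ℕ}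

/-- **Irreducible representations.** -/
theorem fmmonoQ {q : ℕ} (hq : q.Prime) (hq8 : q % 8 = 3 ∨ q % 8 = 5)
    {H N : Subgroup (QB ≃ₐ[ℚ] QB)} (hNH : N ≤ H) (hNn : N.Normal)
    (hNi : ∃ a : ℕ, N.index = 2 ^ a) (hNo : IsOpen (N : Set (QB ≃ₐ[ℚ] QB)))
    (hur : ∀ (p : ℕ) [Fact p.Prime] (ι : QB →ₐ[ℚ] PadicAlgCl p), p ≠ 2 → p ≠ q →
      ∀ σ ∈ IQ ι, σ ∈ N)
    (hA : IsAdic (maximalIdeal A)) (hfin : Finite (ResidueField A)) (h2 : (2 : A) ∈ maximalIdeal A)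
    {F : Type*} [Field F] [Algebra A F] [IsFractionRing A F]
    {ρ : H →* GL (Fin n) A}
    (hρ : ∀ i j, Continuous fun σ => (ρ σ : Matrix (Fin n) (Fin n) A) i j)
    (hres : ∀ σ, ∃ M : ℕ, InI (maximalIdeal A) (((ρ σ : Matrix (Fin n) (Fin n) A) - 1) ^ M))
    (hu : ∀ (p : ℕ) [Fact p.Prime] (ι : QB →ₐ[ℚ] PadicAlgCl p), p ≠ 2 → p ≠ q →
      ∀ σ : H, (σ : QB ≃ₐ[ℚ] QB) ∈ IQ ι → ρ σ = 1)
    (ι₀ : QB →ₐ[ℚ] PadicAlgCl 2)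
    {D' : Subgroup H} {R : Set H} (hRf : R.Finite)
    (hR : ∀ δ : H, (δ : QB ≃ₐ[ℚ] QB) ∈ DQ ι₀ → ∃ r ∈ R, r⁻¹ * δ ∈ D')
    (hirr : Irr F ρ)
    (hsp : ∀ g, ((ρ g : Matrix (Fin n) (Fin n) A).map (algebraMap A F)).charpoly.Splits)
    {v : Fin n → F} (hv : v ≠ 0) (hD' : ∀ δ ∈ D', ∃ c : F, act F ρ δ v = c • v) :
    ∃ (T L : Subgroup H) (u : Fin n → F), T.Normal ∧ IsOpen (T : Set H) ∧ (∃ a : ℕ, T.index = 2 ^ a) ∧
      T ≤ L ∧ L.index = n ∧ u ≠ 0 ∧ ∀ σ ∈ L, ∃ c : F, act F ρ σ u = c • u :=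
  mono_ab hA hρ (D := (DQ ι₀).subgroupOf H)
    (denseHQ hq hq8 hNH hNn hNi hNo hur hA hfin h2 hρ hres hu ι₀)
    (fun m => cong_index h2 hfin ρ hres m) hRf (fun δ hδ => hR δ hδ) hirr hsp hv hD'

end Pool.Agent.Z384
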