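import Pool.Agent.R384.Z.Tow
import Pool.Agent.W289.SL.Emb

/-!
# Number fields and subgroups of the Galois group of `ℚ(√-d)`
-/

set_option autoImplicit false
set_option linter.unusedSectionVars false

namespace Pool.Agent.Z384

open Pool.Agent.Y715.Red Pool.Agent.Y715.Nr Pool.Agent.W237.RK
open Pool.Agent.Y715.Gi (QB KK GK i₀_mem gk_fix norm_two')
open Pool.Agent.Y715.Df (Cmp exists_cmp gh)
open NumberField

section field

variable {k M : Type} [Field k] [NumberField k] [Field M] [NumberField M] [Algebra k M]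

lemma inertia_triv [IsGalois k M] (P : Ideal (𝓞 M)) [P.IsPrime]
    (h : P.ramificationIdx (𝓞 k) = 1) {g : M ≃ₐ[k] M} (hg : ∀ x : 𝓞 M, g • x - x ∈ P) : g = 1 := by
  have h1 := Ideal.card_inertia_eq_ramificationIdxIn (G := M ≃ₐ[k] M) (P.under (𝓞 k)) P
  rw [Ideal.ramificationIdxIn_eq_ramificationIdx (P.under (𝓞 k)) P (M ≃ₐ[k] M), h] at h1
  have h2 := (Nat.card_eq_one_iff_unique.1 h1).1
  have h3 : g ∈ P.inertia (M ≃ₐ[k] M) := hg
  have h4 : (⟨g, h3⟩ : P.inertia (M ≃ₐ[k] M)) = 1 := Subsingleton.elim _ _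
  exact congrArg Subtype.val h4

variable {d : ℕ}

lemma k_ex (hk : Module.finrank ℚ k = 2) (hd : d ≠ 0) {θ : k} (hθ : θ ^ 2 = -(d : k)) (x : k) :
    ∃ a b : ℚ, x = a + b * θ := by
  have hli : LinearIndependent ℚ ![(1 : k), θ] := by
    rw [LinearIndependent.pair_iff]
    intro a b hab
    have hb : b = 0 := by
      by_contra hb
      have h1 : θ = ((-a / b : ℚ) : k) := by
        have hb' : (b : k) ≠ 0 := by exact_mod_cast hb
        push_cast
        rw [eq_div_iff hb']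
        rw [Algebra.smul_def, Algebra.smul_def, mul_one, eq_ratCast, eq_ratCast] at hab
        linear_combination hab
      rw [h1] at hθ
      have h2 : ((-a / b : ℚ)) ^ 2 = -(d : ℚ) := by exact_mod_cast hθ
      have h3 : (0 : ℚ) < d := by exact_mod_cast Nat.pos_of_ne_zero hd
      nlinarith [sq_nonneg (-a / b : ℚ)]
    refine ⟨?_, hb⟩
    rw [hb, zero_smul, add_zero, Algebra.smul_def, mul_one, eq_ratCast] at hab
    exact_mod_cast hab
  have h1 := hli.span_eq_top_of_card_eq_finrank (by simp [hk])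
  have h2 : x ∈ Submodule.span ℚ (Set.range ![(1 : k), θ]) := by rw [h1]; trivial
  rw [Matrix.range_cons, Matrix.range_cons, Matrix.range_empty, Set.union_empty,
    Set.singleton_union, Submodule.mem_span_pair] at h2
  obtain ⟨a, b, hab⟩ := h2
  refine ⟨a, b, ?_⟩
  rw [← hab, Algebra.smul_def, Algebra.smul_def, mul_one, eq_ratCast, eq_ratCast]

variable {s : QB}

lemma exists_phi [IsGalois k M] (hk : Module.finrank ℚ k = 2) (hd : d ≠ 0) {θ : k}
    (hθ : θ ^ 2 = -(d : k)) (j : M →+* QB) (hj : j (algebraMap k M θ) = s) (σ : GK s) :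
    ∃ g : M ≃ₐ[k] M, ∀ x, j (g x) = σ (j x) := by
  let _ : Algebra k QB := (j.comp (algebraMap k M)).toAlgebra
  let _ : Algebra M QB := j.toAlgebra
  have : IsScalarTower k M QB := IsScalarTower.of_algebraMap_eq fun x => rfl
  have hc : ∀ x : k, σ (algebraMap k QB x) = algebraMap k QB x := by
    intro x
    obtain ⟨a, b, rfl⟩ := k_ex hk hd hθ x
    have h1 : algebraMap k QB (a + b * θ) = a + b * s := by
      rw [map_add, map_mul, map_ratCast, map_ratCast, ← hj]
      rfl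
    rw [h1, map_add, map_mul, map_ratCast, map_ratCast, gk_fix]
  let σ' : QB ≃ₐ[k] QB := AlgEquiv.ofRingEquiv (f := σ.toRingEquiv) hc
  exact ⟨σ'.restrictNormal M, fun x => σ'.restrictNormal_commutes M x⟩

/-- the image of a number field as an extension of `ℚ(√-d)` -/
def img {s : QB} {H : Type} [Field H] (f : H →+* QB) (hf : ∀ x ∈ KK s, x ∈ f.range) :
    IntermediateField (KK s) QB where
  carrier := f.range
  mul_mem' := f.range.mul_mem
  add_mem' := f.range.add_mem
  algebraMap_mem' x := hf _ x.2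
  inv_mem' := by
    rintro _ ⟨x, rfl⟩
    exact ⟨x⁻¹, map_inv₀ f x⟩

lemma KK_ex' {s : QB} {x : QB} (hs : s ^ 2 = -(d : QB)) (hx : x ∈ KK s) : ∃ a b : ℚ, x = a + b * s :=
  KK_ex hs hx

lemma kk_range {H : Type} [Field H] [CharZero H] (hs : s ^ 2 = -(d : QB)) (f : H →+* QB) {θ : H}
    (hf : f θ = s) : ∀ x ∈ KK s, x ∈ f.range := by
  intro x hx
  obtain ⟨a, b, rfl⟩ := KK_ex' hs hx
  refine ⟨a + b * θ, ?_⟩
  rw [map_add, map_mul, map_ratCast, map_ratCast, hf]

/-- the fixed elements -/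
lemma fixed_mem {H : Type} [Field H] [CharZero H] (hs : s ^ 2 = -(d : QB)) (f : H →+* QB) {θ : H}
    (hf : f θ = s) {y : QB} (hy : ∀ σ : GK s, (∀ x, σ (f x) = f x) → σ y = y) : ∃ x, f x = y := by
  have h1 := InfiniteGalois.fixedField_fixingSubgroup (img f (kk_range hs f hf))
  have h2 : y ∈ IntermediateField.fixedField (img f (kk_range hs f hf)).fixingSubgroup := by
    rw [IntermediateField.mem_fixedField_iff]
    intro σ hσ
    apply hy
    intro x
    rw [IntermediateField.mem_fixingSubgroup_iff] at hσ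
    exact hσ _ ⟨x, rfl⟩
  rw [h1] at h2
  exact h2

lemma int_emb {p : ℕ} [Fact p.Prime] (κ : 𝓞 M →+* PadicAlgCl p) (x : 𝓞 M) : ‖κ x‖ ≤ 1 := by
  obtain ⟨f, hf, hfa⟩ := RingOfIntegers.isIntegral x
  have h2 := PadicComplex.norm_extends p (κ x)
  rw [← h2]
  apply Pool.Agent.W289.SL.norm_le_one_of_integral f hf
  have h1 := congrArg ((algebraMap (PadicAlgCl p) ℂ_[p]).comp κ) hfa
  rw [map_zero, Polynomial.hom_eval₂] at h1
  rw [← h1]
  congr 1
  exact RingHom.ext_int _ _

/-- the prime ideal defined by an embedding -/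
def prm {p : ℕ} [Fact p.Prime] (κ : 𝓞 M →+* PadicAlgCl p) : Ideal (𝓞 M) where
  carrier := {x | ‖κ x‖ < 1}
  add_mem' := by
    intro x y hx hy
    show ‖κ (x + y)‖ < 1
    rw [map_add]
    exact lt_of_le_of_lt (IsUltrametricDist.norm_add_le_max _ _) (max_lt hx hy)
  zero_mem' := by
    show ‖κ 0‖ < 1
    rw [map_zero, norm_zero]
    exact one_pos
  smul_mem' := by
    intro c x hx
    show ‖κ (c * x)‖ < 1
    rw [map_mul, norm_mul]
    have h1 := int_emb κ c
    have h2 : ‖κ x‖ < 1 := hx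
    nlinarith [norm_nonneg (κ c), norm_nonneg (κ x)]

lemma mem_prm {p : ℕ} [Fact p.Prime] (κ : 𝓞 M →+* PadicAlgCl p) (x : 𝓞 M) :
    x ∈ prm κ ↔ ‖κ x‖ < 1 := Iff.rfl

lemma prm_prime {p : ℕ} [Fact p.Prime] (κ : 𝓞 M →+* PadicAlgCl p) : (prm κ).IsPrime := by
  refine ⟨?_, ?_⟩
  · rw [Ne, Ideal.eq_top_iff_one, mem_prm, map_one, norm_one]
    exact lt_irrefl _
  · intro x y hxy
    rw [mem_prm, map_mul, norm_mul] at hxy
    rw [mem_prm, mem_prm]
    by_contra hcon
    push Not at hcon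
    nlinarith [norm_nonneg (κ x), norm_nonneg (κ y)]

/-- **The subgroup defined by a Galois extension.** -/
theorem exists_grp [IsGalois k M] (hk : Module.finrank ℚ k = 2) (hd : d ≠ 0) {θ : k}
    (hθ : θ ^ 2 = -(d : k)) (hs : s ^ 2 = -(d : QB)) (j : M →+* QB)
    (hj : j (algebraMap k M θ) = s) {a : ℕ} (ha : Module.finrank k M = 2 ^ a)
    (hur : ∀ P : Ideal (𝓞 M), P.IsPrime → P ≠ ⊥ → (2 : 𝓞 M) ∉ P → P.ramificationIdx (𝓞 k) = 1) :
    ∃ N : Subgroup (GK s), (∀ σ, σ ∈ N ↔ ∀ x : M, σ (j x) = j x) ∧ N.Normal ∧ N.index = 2 ^ a ∧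
      IsOpen (N : Set (GK s)) ∧ ∀ (p : ℕ) [Fact p.Prime] (ι : QB →ₐ[ℚ] PadicAlgCl p), p ≠ 2 →
        ∀ σ ∈ (II ι : Set (GK s)), σ ∈ N := by
  set E := img j (kk_range hs j hj) with hE
  have hmem : ∀ σ : GK s, σ ∈ E.fixingSubgroup ↔ ∀ x : M, σ (j x) = j x := by
    intro σ
    rw [IntermediateField.mem_fixingSubgroup_iff]
    constructor
    · intro h x
      exact h _ ⟨x, rfl⟩
    · rintro h _ ⟨x, rfl⟩
      exact h x
  let eM : M ≃+* E := RingEquiv.ofBijective (j.codRestrict E.toSubfield fun x => ⟨x, rfl⟩)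
    ⟨fun x y hxy => j.injective (congrArg Subtype.val hxy), fun ⟨_, x, hx⟩ => ⟨x, Subtype.ext hx⟩⟩
  have hfinM : Module.finrank ℚ M = Module.finrank ℚ E :=
    LinearEquiv.finrank_eq (RingEquiv.toRatAlgEquiv eM).toLinearEquiv
  have hKK : Module.finrank ℚ (KK s) = 2 := by
    let c : k →+* QB := j.comp (algebraMap k M)
    have hcm : ∀ x, c x ∈ KK s := by
      intro x
      obtain ⟨a, b, rfl⟩ := k_ex hk hd hθ x
      have h1 : c (a + b * θ) = a + b * s := by
        rw [map_add, map_mul, map_ratCast, map_ratCast, ← hj]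
        rfl
      rw [h1]
      exact (KK s).add_mem (rat_mem a) ((KK s).mul_mem (rat_mem b) i₀_mem)
    have hsur : ∀ y : KK s, ∃ x, c x = y := by
      intro y
      obtain ⟨a, b, h⟩ := KK_ex' hs y.2
      refine ⟨a + b * θ, ?_⟩
      rw [h, map_add, map_mul, map_ratCast, map_ratCast, ← hj]
      rfl
    let ek : k ≃+* KK s := RingEquiv.ofBijective (c.codRestrict (KK s).toSubfield hcm)
      ⟨fun x y hxy => c.injective (congrArg Subtype.val hxy), fun y => by
        obtain ⟨x, hx⟩ := hsur y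
        exact ⟨x, Subtype.ext hx⟩⟩
    rw [← hk]
    exact (LinearEquiv.finrank_eq (RingEquiv.toRatAlgEquiv ek).toLinearEquiv).symm
  have hfdE : FiniteDimensional ℚ E := LinearEquiv.finiteDimensional
    (RingEquiv.toRatAlgEquiv eM).toLinearEquiv
  have hfd : FiniteDimensional (KK s) E := FiniteDimensional.right ℚ (KK s) E
  have hrank : Module.finrank (KK s) E = 2 ^ a := by
    have h1 := Module.finrank_mul_finrank ℚ (KK s) E
    have h2 := Module.finrank_mul_finrank ℚ k M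
    rw [hKK, ← hfinM, ← h2, hk, ha] at h1
    omega
  refine ⟨E.fixingSubgroup, hmem, ?_, ?_, ?_, ?_⟩
  · refine ⟨fun n hn g => ?_⟩
    rw [hmem] at hn ⊢
    intro x
    obtain ⟨φ, hφ⟩ := exists_phi hk hd hθ j hj g⁻¹
    rw [AlgEquiv.mul_apply, AlgEquiv.mul_apply, ← hφ, hn, hφ, ← AlgEquiv.mul_apply, mul_inv_cancel,
      AlgEquiv.one_apply]
  · rw [← IntermediateField.finrank_eq_fixingSubgroup_index QB E, hrank]
  · exact IntermediateField.fixingSubgroup_isOpen E
  · intro p _ ι hp σ hσ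
    rw [hmem]
    obtain ⟨φ, hφ⟩ := exists_phi hk hd hθ j hj σ
    obtain ⟨τ, hτ, hin⟩ := hσ
    set ι' : 𝓞 M →+* PadicAlgCl p :=
      ((ι : QB →+* PadicAlgCl p).comp j).comp (algebraMap (𝓞 M) M) with hι'
    have hP := prm_prime ι'
    have h1 : φ = 1 := by
      refine inertia_triv (prm ι') (hur _ hP ?_ ?_) ?_
      · intro h0
        have h2 : ((p : ℕ) : 𝓞 M) ∈ prm ι' := by
          rw [mem_prm, map_natCast]
          exact Pool.Agent.W571.RK.norm_p_lt_one
        rw [h0, Ideal.mem_bot] at h2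
        exact (Fact.out : p.Prime).ne_zero (by exact_mod_cast h2)
      · intro h2
        rw [mem_prm, map_ofNat, Pool.Agent.Y715.Lc.norm_two_odd hp] at h2
        exact lt_irrefl _ h2
      · intro x
        rw [mem_prm]
        have h2 := hin (ι' x) (int_emb ι' x)
        have h3 : ι' (φ • x - x) = τ (ι' x) - ι' x := by
          rw [map_sub]
          congr 1
          show ι (j (φ x)) = τ (ι (j x))
          rw [hφ, hτ]
        rw [h3]
        exact h2
    intro x
    rw [← hφ, h1, AlgEquiv.one_apply]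

end field

end Pool.Agent.Z384
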