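import Pool.Agent.R384.Z.Tow

/-!
# Selmer groups of pairs over the `2`-extensions of `ℚ(√-d)` unramified outside `2`
-/

set_option autoImplicit false
set_option linter.unusedSectionVars false

namespace Pool.Agent.Z384

open Pool.Agent.Y715.Red Pool.Agent.Y715.Nr Pool.Agent.W237.RK
open Pool.Agent.Y715.Gi (QB KK GK i₀_mem gk_fix)
open Pool.Agent.Y715.Df (Cmp exists_cmp gh)
open Matrix

/-- the action -/
noncomputable def ac {G : Type*} [Group G] {n : ℕ} (ρ : G →* GL (Fin n) ℤ_[2]) (σ : G)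
    (y : Fin n → ℚ_[2]) : Fin n → ℚ_[2] :=
  ((ρ σ : Matrix (Fin n) (Fin n) ℤ_[2]).map (fun z : ℤ_[2] => (z : ℚ_[2]))) *ᵥ y

section

variable {d : ℕ} (hd : Fld d) {s : QB} (hs : s ^ 2 = -(d : QB)) {H N : Subgroup (GK s)}
  (hNH : N ≤ H) (hNn : N.Normal) (hNi : ∃ a : ℕ, N.index = 2 ^ a) (hNo : IsOpen (N : Set (GK s)))
  (hur : ∀ (p : ℕ) [Fact p.Prime] (ι : QB →ₐ[ℚ] PadicAlgCl p), p ≠ 2 →
    ∀ σ ∈ (II ι : Set (GK s)), σ ∈ N)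
  {n : ℕ} (ρ : H →* GL (Fin n) ℤ_[2])
  (hcont : ∀ i j, Continuous fun σ => (ρ σ : Matrix (Fin n) (Fin n) ℤ_[2]) i j)
  (hunr : ∀ (p : ℕ) [Fact p.Prime] (ι : QB →ₐ[ℚ] PadicAlgCl p), p ≠ 2 →
    ∀ σ : H, (σ : GK s) ∈ (II ι : Set (GK s)) → ρ σ = 1)
  (huni : ∀ σ, (ρ σ : Matrix (Fin n) (Fin n) ℤ_[2]).charpoly.map (PadicInt.toZMod (p := 2)) =
    (Polynomial.X - 1) ^ n)
  (c : H → Fin n → ℚ_[2]) (hc : Continuous c) (hmul : ∀ σ τ, c (σ * τ) = c σ + ac ρ σ (c τ))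
  (hodd : ∀ (p : ℕ) [Fact p.Prime] (ι : QB →ₐ[ℚ] PadicAlgCl p), p ≠ 2 →
    ∃ y, ∀ σ : H, (σ : GK s) ∈ (II ι : Set (GK s)) → c σ = ac ρ σ y - y)

include hd hs hNH hNn hNi hNo hur hcont hunr huni hc hmul hodd

/-- one component -/
theorem comp1 {e : Matrix (Fin n) (Fin n) ℚ_[2]} (he : ∀ σ y, e *ᵥ ac ρ σ y = ac ρ σ (e *ᵥ y))
    (ι₀ : QB →ₐ[ℚ] PadicAlgCl 2)
    (h2 : ∀ r : GK s, ∃ y, ∀ σ : H, (σ : GK s) ∈ (DD (ι₀.comp (gh r)) : Set (GK s)) →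
      e *ᵥ c σ = ac ρ σ y - y) :
    ∃ y, ∀ σ, e *ᵥ c σ = ac ρ σ y - y := by
  obtain ⟨a, ha⟩ := hNi
  refine tow hs hd (H := H) (N := N) hNH hNn ha hNo hur (ρ := (Units.coeHom _).comp ρ) hcont
    (fun p _ ι hp σ hσ => congrArg Units.val (hunr p ι hp σ hσ))
    (fun σ => ⟨_, m2_of_charpoly (by
      rw [Fintype.card_fin]
      exact huni σ)⟩)
    (c := fun σ => e *ᵥ c σ) ?_ ?_ ?_ ι₀ h2
  · exact (Continuous.matrix_mulVec continuous_const hc)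
  · intro σ τ
    show e *ᵥ c (σ * τ) = e *ᵥ c σ + ac ρ σ (e *ᵥ c τ)
    rw [hmul, Matrix.mulVec_add, he]
  · intro p _ ι hp
    obtain ⟨y, hy⟩ := hodd p ι hp
    refine ⟨e *ᵥ y, fun σ hσ => ?_⟩
    show e *ᵥ c σ = ac ρ σ (e *ᵥ y) - e *ᵥ y
    rw [hy σ hσ, Matrix.mulVec_sub, he]

/-- **The vanishing for pairs.** -/
theorem pair {e : Matrix (Fin n) (Fin n) ℚ_[2]} (he : ∀ σ y, e *ᵥ ac ρ σ y = ac ρ σ (e *ᵥ y))
    (h1 : ∀ ι : QB →ₐ[ℚ] PadicAlgCl 2, ‖ι ((1 + s) / 2)‖ < 1 →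
      ∃ y, ∀ σ : H, (σ : GK s) ∈ (DD ι : Set (GK s)) → e *ᵥ c σ = ac ρ σ y - y)
    (h2 : ∀ ι : QB →ₐ[ℚ] PadicAlgCl 2, ‖ι ((1 - s) / 2)‖ < 1 →
      ∃ y, ∀ σ : H, (σ : GK s) ∈ (DD ι : Set (GK s)) → (1 - e) *ᵥ c σ = ac ρ σ y - y) :
    ∃ y, ∀ σ, c σ = ac ρ σ y - y := by
  obtain ⟨ι₁, hι₁⟩ := exists_place hs hd
  obtain ⟨ι₂, hι₂⟩ := exists_place (s := -s) (by rw [neg_sq]; exact hs) hd
  have hr : ∀ (ι : QB →ₐ[ℚ] PadicAlgCl 2) (r : GK s) (x : QB), r x = x →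
      (ι.comp (gh r)) x = ι x := by
    intro ι r x hx
    show ι (r x) = ι x
    rw [hx]
  have hfs : ∀ r : GK s, r s = s := gk_fix
  obtain ⟨y₁, hy₁⟩ := comp1 hd hs hNH hNn hNi hNo hur ρ hcont hunr huni c hc hmul hodd he ι₁
    (fun r => h1 _ (by
      rw [hr ι₁ r _ (by rw [map_div₀, map_add, map_one, hfs, map_ofNat])]
      exact hι₁))
  obtain ⟨y₂, hy₂⟩ := comp1 (e := 1 - e) hd hs hNH hNn hNi hNo hur ρ hcont hunr huni c hc hmul hodd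
    (fun σ y => by
      rw [Matrix.sub_mulVec, Matrix.sub_mulVec, Matrix.one_mulVec, Matrix.one_mulVec, he]
      unfold ac
      rw [Matrix.mulVec_sub]) ι₂
    (fun r => h2 _ (by
      rw [hr ι₂ r _ (by rw [map_div₀, map_sub, map_one, hfs, map_ofNat]), sub_eq_add_neg]
      exact hι₂))
  refine ⟨y₁ + y₂, fun σ => ?_⟩
  have h3 : c σ = e *ᵥ c σ + (1 - e) *ᵥ c σ := by
    rw [Matrix.sub_mulVec, Matrix.one_mulVec]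
    abel
  rw [h3, hy₁, hy₂]
  unfold ac
  rw [Matrix.mulVec_add]
  abel

end

end Pool.Agent.Z384
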