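import Pool.Agent.R384.Z.Gen

/-!
# Potentially stable subspaces and potentially abelian representations
-/

set_option autoImplicit false
set_option linter.unusedSectionVars false

namespace Pool.Agent.Z384

open IsLocalRing Matrix

section pot

variable {A : Type*} [CommRing A] [IsLocalRing A] [IsNoetherianRing A] {n : ℕ}
variable {G : Type*} [Group G]
variable (F : Type*) [Field F] [Algebra A F] [IsFractionRing A F]

/-- the action on `F ^ n` -/
noncomputable def act (ρ : G →* GL (Fin n) A) (g : G) : (Fin n → F) →ₗ[F] (Fin n → F) :=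
  Matrix.mulVecLin ((ρ g : Matrix (Fin n) (Fin n) A).map (algebraMap A F))

variable {F}

lemma act_apply (ρ : G →* GL (Fin n) A) (g : G) (v : Fin n → F) :
    act F ρ g v = ((ρ g : Matrix (Fin n) (Fin n) A).map (algebraMap A F)) *ᵥ v := rfl

lemma act_mul (ρ : G →* GL (Fin n) A) (g h : G) (v : Fin n → F) :
    act F ρ (g * h) v = act F ρ g (act F ρ h v) := by
  rw [act_apply, act_apply, act_apply, mulVec_mulVec, map_mul, Units.val_mul, Matrix.map_mul]

lemma act_one (ρ : G →* GL (Fin n) A) (v : Fin n → F) : act F ρ 1 v = v := by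
  rw [act_apply, map_one, Units.val_one, Matrix.map_one _ (map_zero _) (map_one _), one_mulVec]

lemma act_emb (ρ : G →* GL (Fin n) A) (g : G) (v : Fin n → A) :
    act F ρ g (fun i => algebraMap A F (v i)) =
      fun i => algebraMap A F (((ρ g : Matrix (Fin n) (Fin n) A) *ᵥ v) i) := by
  rw [act_apply]
  funext i
  simp [mulVec, dotProduct]

/-- the stabilizer of a subspace -/
def stb (ρ : G →* GL (Fin n) A) (W : Submodule F (Fin n → F)) : Subgroup G where
  carrier := {g | ∀ w, w ∈ W ↔ act F ρ g w ∈ W}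
  mul_mem' := by
    intro a b ha hb w
    rw [act_mul, ← ha, ← hb]
  one_mem' := by
    intro w
    rw [act_one]
  inv_mem' := by
    intro a ha w
    rw [ha (act F ρ a⁻¹ w), ← act_mul, mul_inv_cancel, act_one]

lemma stb_of_lim (ρ : G →* GL (Fin n) A) (W : Submodule F (Fin n → F)) {D' : Subgroup G}
    (hD' : D' ≤ stb ρ W) {x : G}
    (hx : ∀ m : ℕ, ∃ δ ∈ D', δ⁻¹ * x ∈ cong ρ m) : x ∈ stb ρ W := by
  -- the integral part
  set W₀ : Submodule A (Fin n → A) :=
    (W.restrictScalars A).comap ((Algebra.linearMap A F).compLeft (Fin n)) with hW₀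
  have main : ∀ y : G, (∀ m : ℕ, ∃ δ ∈ D', δ⁻¹ * y ∈ cong ρ m) → ∀ w ∈ W, act F ρ y w ∈ W := by
    intro y hy w hw
    obtain ⟨⟨b, hb⟩, hb2⟩ := IsLocalization.exist_integer_multiples_of_finite
      (nonZeroDivisors A) w
    have hb0 : algebraMap A F b ≠ 0 := IsLocalization.to_map_ne_zero_of_mem_nonZeroDivisors F le_rfl hb
    choose w0 hw0 using hb2
    have hw0' : (fun i => algebraMap A F (w0 i)) = algebraMap A F b • w := by
      funext i
      rw [hw0 i, Pi.smul_apply, Algebra.smul_def]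
      rfl
    have h1 : w0 ∈ W₀ := by
      show (fun i => algebraMap A F (w0 i)) ∈ W
      rw [hw0']
      exact W.smul_mem _ hw
    have h2 : ((ρ y : Matrix (Fin n) (Fin n) A) *ᵥ w0) ∈ W₀ := by
      refine krull W₀ fun m => ?_
      obtain ⟨δ, hδ, hu⟩ := hy m
      refine ⟨(ρ δ : Matrix (Fin n) (Fin n) A) *ᵥ w0, ?_, fun i => ?_⟩
      · show (fun i => algebraMap A F (((ρ δ : Matrix (Fin n) (Fin n) A) *ᵥ w0) i)) ∈ W
        rw [← act_emb]
        exact (hD' hδ _).1 h1
      · have e : (ρ y : Matrix (Fin n) (Fin n) A) *ᵥ w0 - (ρ δ : Matrix (Fin n) (Fin n) A) *ᵥ w0 =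
            ((ρ δ : Matrix (Fin n) (Fin n) A) *
              ((ρ (δ⁻¹ * y) : Matrix (Fin n) (Fin n) A) - 1)) *ᵥ w0 := by
          rw [← sub_mulVec, mul_sub, mul_one, ← Units.val_mul, ← map_mul, mul_inv_cancel_left]
        have h3 := (mem_cong.1 hu).mulL (ρ δ : Matrix (Fin n) (Fin n) A)
        have e2 := congrFun e i
        rw [Pi.sub_apply] at e2
        rw [e2]
        simp only [mulVec, dotProduct]
        exact Ideal.sum_mem _ fun j _ => Ideal.mul_mem_right _ _ (h3 i j)
    have h3 : (fun i => algebraMap A F (((ρ y : Matrix (Fin n) (Fin n) A) *ᵥ w0) i)) ∈ W := h2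
    rw [← act_emb, hw0', map_smul] at h3
    have h4 := W.smul_mem (algebraMap A F b)⁻¹ h3
    rwa [smul_smul, inv_mul_cancel₀ hb0, one_smul] at h4
  intro w
  refine ⟨main x hx w, fun hw => ?_⟩
  have h1 := main x⁻¹ (fun m => ?_) _ hw
  · rwa [← act_mul, inv_mul_cancel, act_one] at h1
  · obtain ⟨δ, hδ, hu⟩ := hx m
    refine ⟨δ⁻¹, inv_mem hδ, ?_⟩
    have := (cong_normal ρ m).conj_mem _ (inv_mem hu) δ
    convert this using 1
    group

/-- **Potentially stable subspaces.** -/
theorem stab_fin (ρ : G →* GL (Fin n) A) {D D' : Subgroup G}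
    (happ : ∀ (m : ℕ) (g : G), ∃ δ ∈ D, δ⁻¹ * g ∈ cong ρ m)
    {R : Set G} (hRf : R.Finite) (hR : ∀ δ ∈ D, ∃ r ∈ R, r⁻¹ * δ ∈ D')
    {W : Submodule F (Fin n → F)} (hW : ∀ δ ∈ D', ∀ w ∈ W, act F ρ δ w ∈ W) :
    (stb ρ W).FiniteIndex := by
  have hD' : D' ≤ stb ρ W := by
    intro δ hδ w
    refine ⟨hW δ hδ w, fun hw => ?_⟩
    have := hW δ⁻¹ (inv_mem hδ) _ hw
    rwa [← act_mul, inv_mul_cancel, act_one] at this
  have : Finite R := hRf
  have hsur : ∀ g : G, ∃ r : R, (r : G)⁻¹ * g ∈ stb ρ W := by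
    intro g
    choose δ hδ hu using fun m => happ m g
    choose r hr hr' using fun m => hR (δ m) (hδ m)
    obtain ⟨y, hy⟩ := Finite.exists_infinite_fiber (fun m : ℕ => (⟨r m, hr m⟩ : R))
    have hy' : ((fun m : ℕ => (⟨r m, hr m⟩ : R)) ⁻¹' {y}).Infinite := Set.infinite_coe_iff.1 hy
    refine ⟨y, stb_of_lim ρ W hD' fun m => ?_⟩
    obtain ⟨m', hm', hmm⟩ := hy'.exists_gt m
    have hym : r m' = y := congrArg Subtype.val hm'
    refine ⟨(y : G)⁻¹ * δ m', ?_, ?_⟩
    · rw [← hym]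
      exact hr' m'
    · have h1 : ((y : G)⁻¹ * δ m')⁻¹ * ((y : G)⁻¹ * g) = (δ m')⁻¹ * g := by group
      rw [h1]
      exact mem_cong.2 ((mem_cong.1 (hu m')).mono (Ideal.pow_le_pow_right hmm.le))
  have hfin : Finite (G ⧸ stb ρ W) := by
    refine Finite.of_surjective (fun r : R => (QuotientGroup.mk (r : G) : G ⧸ stb ρ W)) ?_
    intro x
    obtain ⟨g, rfl⟩ := QuotientGroup.mk_surjective x
    obtain ⟨r, hr⟩ := hsur g
    exact ⟨r, QuotientGroup.eq.2 hr⟩
  exact Subgroup.finiteIndex_of_finite_quotient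

lemma stb_closed [TopologicalSpace G] [IsTopologicalGroup G] [TopologicalSpace A]
    (hA : IsAdic (maximalIdeal A)) {ρ : G →* GL (Fin n) A}
    (hρ : ∀ i j, Continuous fun σ => (ρ σ : Matrix (Fin n) (Fin n) A) i j)
    (W : Submodule F (Fin n → F)) : IsClosed (stb ρ W : Set G) := by
  refine isClosed_of_closure_subset fun g hg => ?_
  refine stb_of_lim ρ W le_rfl fun m => ?_
  have hopen : IsOpen ((fun x => x⁻¹ * g) ⁻¹' (cong ρ m : Set G)) :=
    (cong_open hA hρ m).preimage (continuous_inv.mul continuous_const)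
  obtain ⟨x, hx1, hx2⟩ := mem_closure_iff.1 hg _ hopen (by
    show g⁻¹ * g ∈ cong ρ m
    rw [inv_mul_cancel]
    exact one_mem _)
  exact ⟨x, hx2, hx1⟩

/-- `V` is irreducible over `F`. -/
def Irr (F : Type*) [Field F] [Algebra A F] (ρ : G →* GL (Fin n) A) : Prop :=
  ∀ W : Submodule F (Fin n → F), (∀ g, ∀ w ∈ W,
    ((ρ g : Matrix (Fin n) (Fin n) A).map (algebraMap A F)) *ᵥ w ∈ W) → W = ⊥ ∨ W = ⊤

/-- **Potentially abelian representations.** -/
theorem pot_ab [TopologicalSpace G] [IsTopologicalGroup G] [TopologicalSpace A]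
    (hA : IsAdic (maximalIdeal A)) {ρ : G →* GL (Fin n) A}
    (hρ : ∀ i j, Continuous fun σ => (ρ σ : Matrix (Fin n) (Fin n) A) i j) {D D' : Subgroup G}
    (happ : ∀ (m : ℕ) (g : G), ∃ δ ∈ D, δ⁻¹ * g ∈ cong ρ m)
    {R : Set G} (hRf : R.Finite) (hR : ∀ δ ∈ D, ∃ r ∈ R, r⁻¹ * δ ∈ D')
    (hirr : Irr F ρ)
    {v : Fin n → F} (hv : v ≠ 0) (hD' : ∀ δ ∈ D', ∃ c : F, act F ρ δ v = c • v) :
    ∃ S : Subgroup G, S.Normal ∧ S.FiniteIndex ∧ IsOpen (S : Set G) ∧
      (∀ σ ∈ S, ∀ τ ∈ S, ρ σ * ρ τ = ρ τ * ρ σ) := by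
  set W : Submodule F (Fin n → F) := Submodule.span F {v} with hW
  have hWf : (stb ρ W).FiniteIndex := by
    refine stab_fin ρ happ hRf hR fun δ hδ w hw => ?_
    obtain ⟨c, hc⟩ := hD' δ hδ
    obtain ⟨a, rfl⟩ := Submodule.mem_span_singleton.1 hw
    rw [map_smul, hc]
    exact W.smul_mem _ (W.smul_mem _ (Submodule.mem_span_singleton_self v))
  have hWc := stb_closed hA hρ W
  refine ⟨(stb ρ W).normalCore, (stb ρ W).normalCore_normal, inferInstance,
    Subgroup.isOpen_of_isClosed_of_finiteIndex _ ((stb ρ W).normalCore_isClosed hWc), ?_⟩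
  have heig : ∀ σ ∈ (stb ρ W).normalCore, ∀ g : G, ∃ c : F,
      act F ρ σ (act F ρ g v) = c • act F ρ g v := by
    intro σ hσ g
    have h1 : g⁻¹ * σ * g ∈ stb ρ W := by
      have := hσ g⁻¹
      rwa [inv_inv] at this
    obtain ⟨c, hc⟩ := Submodule.mem_span_singleton.1
      ((h1 v).1 (Submodule.mem_span_singleton_self v))
    refine ⟨c, ?_⟩
    rw [← act_mul]
    have e : σ * g = g * (g⁻¹ * σ * g) := by group
    rw [e, act_mul, ← hc, map_smul]
  have htop : Submodule.span F (Set.range fun g : G => act F ρ g v) = ⊤ := by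
    rcases hirr (Submodule.span F (Set.range fun g : G => act F ρ g v)) (fun g w hw => by
      have h1 : Submodule.span F (Set.range fun g : G => act F ρ g v) ≤
          (Submodule.span F (Set.range fun g : G => act F ρ g v)).comap (act F ρ g) := by
        rw [Submodule.span_le]
        rintro _ ⟨h, rfl⟩
        show act F ρ g (act F ρ h v) ∈ Submodule.span F (Set.range fun g : G => act F ρ g v)
        rw [← act_mul]
        exact Submodule.subset_span ⟨g * h, rfl⟩
      exact h1 hw) with h | h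
    · exfalso
      apply hv
      have h1 : act F ρ 1 v ∈ Submodule.span F (Set.range fun g : G => act F ρ g v) :=
        Submodule.subset_span ⟨1, rfl⟩
      rw [h, act_one] at h1
      exact (Submodule.mem_bot F).1 h1
    · exact h
  intro σ hσ τ hτ
  have hcomm : (act F ρ σ) ∘ₗ (act F ρ τ) = (act F ρ τ) ∘ₗ (act F ρ σ) := by
    refine LinearMap.ext_on htop ?_
    rintro _ ⟨g, rfl⟩
    obtain ⟨c, hc⟩ := heig σ hσ g
    obtain ⟨c', hc'⟩ := heig τ hτ g
    rw [LinearMap.comp_apply, LinearMap.comp_apply]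
    show act F ρ σ (act F ρ τ (act F ρ g v)) = act F ρ τ (act F ρ σ (act F ρ g v))
    rw [hc, hc', map_smul, map_smul, hc, hc', smul_smul, smul_smul, mul_comm]
  apply Units.ext
  have hinj : Function.Injective (fun M : Matrix (Fin n) (Fin n) A => M.map (algebraMap A F)) :=
    Matrix.map_injective (IsFractionRing.injective A F)
  apply hinj
  show (((ρ σ * ρ τ : GL (Fin n) A) : Matrix (Fin n) (Fin n) A)).map (algebraMap A F) =
    (((ρ τ * ρ σ : GL (Fin n) A) : Matrix (Fin n) (Fin n) A)).map (algebraMap A F)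
  have h1 : Matrix.mulVecLin ((((ρ σ * ρ τ : GL (Fin n) A) : Matrix (Fin n) (Fin n) A)).map (algebraMap A F)) =
      Matrix.mulVecLin ((((ρ τ * ρ σ : GL (Fin n) A) : Matrix (Fin n) (Fin n) A)).map (algebraMap A F)) := by
    rw [Units.val_mul, Units.val_mul, Matrix.map_mul, Matrix.map_mul, Matrix.mulVecLin_mul,
      Matrix.mulVecLin_mul]
    exact hcomm
  exact Matrix.toLin'.injective h1

lemma mem_stb_line (ρ : G →* GL (Fin n) A) {v : Fin n → F} (hv : v ≠ 0) {g : G}
    (h : act F ρ g v ∈ Submodule.span F {v}) : g ∈ stb ρ (Submodule.span F {v}) := by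
  obtain ⟨c, hc⟩ := Submodule.mem_span_singleton.1 h
  have hinj : ∀ u w : Fin n → F, act F ρ g u = act F ρ g w → u = w := by
    intro u w huw
    have h1 := congrArg (act F ρ g⁻¹) huw
    rwa [← act_mul, ← act_mul, inv_mul_cancel, act_one, act_one] at h1
  have hc0 : c ≠ 0 := by
    rintro rfl
    rw [zero_smul] at hc
    apply hv
    apply hinj
    rw [← hc, map_zero]
  intro w
  constructor
  · intro hw
    obtain ⟨a, rfl⟩ := Submodule.mem_span_singleton.1 hw
    rw [map_smul]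
    exact Submodule.smul_mem _ _ h
  · intro hw
    obtain ⟨a, ha⟩ := Submodule.mem_span_singleton.1 hw
    have h1 : w = (a / c) • v := by
      apply hinj
      rw [map_smul, ← hc, smul_smul, div_mul_cancel₀ _ hc0, ha]
    rw [h1]
    exact Submodule.smul_mem _ _ (Submodule.mem_span_singleton_self v)

/-- **The two-dimensional case.** -/
theorem dih [TopologicalSpace G] [IsTopologicalGroup G] [TopologicalSpace A]
    (hA : IsAdic (maximalIdeal A)) {ρ : G →* GL (Fin 2) A}
    (hρ : ∀ i j, Continuous fun σ => (ρ σ : Matrix (Fin 2) (Fin 2) A) i j) {D D' : Subgroup G}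
    (happ : ∀ (m : ℕ) (g : G), ∃ δ ∈ D, δ⁻¹ * g ∈ cong ρ m)
    {R : Set G} (hRf : R.Finite) (hR : ∀ δ ∈ D, ∃ r ∈ R, r⁻¹ * δ ∈ D')
    (hirr : Irr F ρ)
    {v : Fin 2 → F} (hv : v ≠ 0) (hD' : ∀ δ ∈ D', ∃ c : F, act F ρ δ v = c • v) :
    (∃ S : Subgroup G, S.Normal ∧ S.FiniteIndex ∧ IsOpen (S : Set G) ∧
      (∀ σ ∈ S, ∃ c : F, ∀ w, act F ρ σ w = c • w)) ∨
    ∃ T : Subgroup G, T.index = 2 ∧ IsOpen (T : Set G) ∧ ∀ σ ∈ T, ∃ c : F, act F ρ σ v = c • v := by
  set W : Submodule F (Fin 2 → F) := Submodule.span F {v} with hW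
  have hWf : (stb ρ W).FiniteIndex := by
    refine stab_fin ρ happ hRf hR fun δ hδ w hw => ?_
    obtain ⟨c, hc⟩ := hD' δ hδ
    obtain ⟨a, rfl⟩ := Submodule.mem_span_singleton.1 hw
    rw [map_smul, hc]
    exact W.smul_mem _ (W.smul_mem _ (Submodule.mem_span_singleton_self v))
  have hWc := stb_closed hA hρ W
  have hTo : IsOpen (stb ρ W : Set G) := Subgroup.isOpen_of_isClosed_of_finiteIndex _ hWc
  have hTe : ∀ σ ∈ stb ρ W, ∃ c : F, act F ρ σ v = c • v := by
    intro σ hσ
    obtain ⟨c, hc⟩ := Submodule.mem_span_singleton.1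
      ((hσ v).1 (Submodule.mem_span_singleton_self v))
    exact ⟨c, hc.symm⟩
  have heig : ∀ σ ∈ (stb ρ W).normalCore, ∀ g : G, ∃ c : F,
      act F ρ σ (act F ρ g v) = c • act F ρ g v := by
    intro σ hσ g
    have h1 : g⁻¹ * σ * g ∈ stb ρ W := by
      have := hσ g⁻¹
      rwa [inv_inv] at this
    obtain ⟨c, hc⟩ := hTe _ h1
    refine ⟨c, ?_⟩
    rw [← act_mul]
    have e : σ * g = g * (g⁻¹ * σ * g) := by group
    rw [e, act_mul, hc, map_smul]
  -- an element which moves the line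
  obtain ⟨g, hg⟩ : ∃ g, g ∉ stb ρ W := by
    by_contra hcon
    push Not at hcon
    rcases hirr W (fun g w hw => (hcon g w).1 hw) with h | h
    · apply hv
      rw [hW, Submodule.span_singleton_eq_bot] at h
      exact h
    · have h1 : Module.finrank F W = 1 := finrank_span_singleton hv
      rw [h, finrank_top, Module.finrank_fin_fun] at h1
      omega
  have hgv : act F ρ g v ∉ W := fun h => hg (mem_stb_line ρ hv h)
  set w : Fin 2 → F := act F ρ g v with hw
  have hli : LinearIndependent F ![v, w] := by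
    rw [LinearIndependent.pair_iff' hv]
    intro a ha
    exact hgv (ha ▸ W.smul_mem a (Submodule.mem_span_singleton_self v))
  have hspan : ∀ u : Fin 2 → F, ∃ a b : F, u = a • v + b • w := by
    intro u
    have h1 : Submodule.span F (Set.range ![v, w]) = ⊤ :=
      hli.span_eq_top_of_card_eq_finrank (by simp)
    have h2 : u ∈ Submodule.span F (Set.range ![v, w]) := by rw [h1]; trivial
    rw [Matrix.range_cons, Matrix.range_cons, Matrix.range_empty, Set.union_empty,
      Set.singleton_union, Submodule.mem_span_pair] at h2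
    obtain ⟨a, b, hab⟩ := h2
    exact ⟨a, b, hab.symm⟩
  by_cases hsc : ∀ σ ∈ (stb ρ W).normalCore, ∃ c : F, ∀ u, act F ρ σ u = c • u
  · exact Or.inl ⟨(stb ρ W).normalCore, (stb ρ W).normalCore_normal, inferInstance,
      Subgroup.isOpen_of_isClosed_of_finiteIndex _ ((stb ρ W).normalCore_isClosed hWc), hsc⟩
  · right
    push Not at hsc
    obtain ⟨σ, hσ, hσc⟩ := hsc
    obtain ⟨a, ha⟩ := heig σ hσ 1
    rw [act_one] at ha
    obtain ⟨b, hb⟩ := heig σ hσ g
    rw [← hw] at hb
    have hab : a ≠ b := by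
      rintro rfl
      obtain ⟨u, hu⟩ := hσc a
      apply hu
      obtain ⟨x, y, rfl⟩ := hspan u
      rw [map_add, map_smul, map_smul, ha, hb, smul_add, smul_comm x, smul_comm y]
    refine ⟨stb ρ W, ?_, hTo, hTe⟩
    rw [Subgroup.index_eq_two_iff']
    refine ⟨g⁻¹, fun h => ?_⟩
    obtain ⟨c, hc⟩ := heig σ hσ h
    obtain ⟨x, y, hxy⟩ := hspan (act F ρ h v)
    rw [hxy, map_add, map_smul, map_smul, ha, hb] at hc
    have h1 : (x * (a - c)) • v + (y * (b - c)) • w = 0 := by
      have : x • a • v + y • b • w - c • (x • v + y • w) = 0 := sub_eq_zero.2 hc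
      rw [← this]
      simp only [smul_smul, smul_add, mul_sub, sub_smul]
      rw [mul_comm c x, mul_comm c y]
      abel
    have h2 := LinearIndependent.pair_iff.1 hli _ _ h1
    have hnot : ¬ (g⁻¹ * h ∈ stb ρ W ∧ h ∈ stb ρ W) := by
      rintro ⟨h3, h4⟩
      apply hg
      have := mul_mem h4 (inv_mem h3)
      rwa [_root_.mul_inv_rev, inv_inv, mul_inv_cancel_left] at this
    rcases mul_eq_zero.1 h2.1 with hx | hx
    · -- the vector is a multiple of `w`
      have h3 : g⁻¹ * h ∈ stb ρ W := by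
        apply mem_stb_line ρ hv
        rw [act_mul, hxy, hx, zero_smul, zero_add, map_smul, hw, ← act_mul, inv_mul_cancel, act_one]
        exact Submodule.smul_mem _ _ (Submodule.mem_span_singleton_self v)
      exact Or.inl ⟨h3, fun h4 => hnot ⟨h3, h4⟩⟩
    · rcases mul_eq_zero.1 h2.2 with hy | hy
      · have h3 : h ∈ stb ρ W := by
          apply mem_stb_line ρ hv
          rw [hxy, hy, zero_smul, add_zero]
          exact Submodule.smul_mem _ _ (Submodule.mem_span_singleton_self v)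
        exact Or.inr ⟨h3, fun h4 => hnot ⟨h4, h3⟩⟩
      · exact absurd ((sub_eq_zero.1 hx).trans (sub_eq_zero.1 hy).symm) hab

end pot

end Pool.Agent.Z384
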