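import Pool.Agent.Y715.Df
import Pool.Agent.Y715.Lc
import Pool.Agent.W309.TD.Kum

/-!
# The fields `ℚ(√-d)`: local lemmas
-/

set_option autoImplicit false
set_option linter.unusedSectionVars false

namespace Pool.Agent.Z384

open Pool.Agent.Y715.Red Pool.Agent.Y715.Nr Pool.Agent.W237.RK
open Pool.Agent.Y715.Gi (QB KK GK i₀_mem gk_fix)
open Pool.Agent.Y715.Df (Cmp exists_cmp)
open Pool.Agent.Y715.Lc (norm_two_odd)

section glob

variable {s : QB} {d : ℕ} (hs : s ^ 2 = -(d : QB))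

include hs in
lemma exists_conj (hd : d ≠ 0) : ∃ c : QB ≃ₐ[ℚ] QB, c s = -s := by
  by_contra hcon
  push Not at hcon
  have h : ∀ σ : QB ≃ₐ[ℚ] QB, σ s = s := by
    intro σ
    have h1 : (σ s) ^ 2 = s ^ 2 := by rw [← map_pow, hs, map_neg, map_natCast]
    rcases sq_eq_sq_iff_eq_or_eq_neg.1 h1 with h2 | h2
    · exact h2
    · exact absurd h2 (hcon σ)
  have h2 := InfiniteGalois.mem_bot_iff_fixed (k := ℚ) (K := QB) s
  rw [IntermediateField.mem_bot] at h2
  obtain ⟨q, hq⟩ := h2.2 h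
  rw [← hq, ← map_pow] at hs
  have h3 : q ^ 2 = -(d : ℚ) := by
    apply (algebraMap ℚ QB).injective
    rw [hs, map_neg, map_natCast]
  have h4 : (0 : ℚ) < d := by exact_mod_cast Nat.pos_of_ne_zero hd
  nlinarith [sq_nonneg q]

include hs in
lemma KK_ex {x : QB} (hx : x ∈ KK s) : ∃ a b : ℚ, x = a + b * s := by
  have hint : IsAlgebraic ℚ s := Algebra.IsAlgebraic.isAlgebraic s
  have h1 : x ∈ Algebra.adjoin ℚ {s} := by
    rw [← IntermediateField.adjoin_simple_toSubalgebra_of_isAlgebraic hint]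
    exact hx
  clear hx
  induction h1 using Algebra.adjoin_induction with
  | mem y hy =>
    rw [Set.mem_singleton_iff] at hy
    exact ⟨0, 1, by rw [hy]; push_cast; ring⟩
  | algebraMap r =>
    refine ⟨r, 0, ?_⟩
    push_cast
    rw [zero_mul, add_zero]
    exact (eq_ratCast (algebraMap ℚ QB) r)
  | add y z hy hz ihy ihz =>
    obtain ⟨a, b, e⟩ := ihy
    obtain ⟨c, f, e'⟩ := ihz
    exact ⟨a + c, b + f, by rw [e, e']; push_cast; ring⟩
  | mul y z hy hz ihy ihz =>
    obtain ⟨a, b, e⟩ := ihy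
    obtain ⟨c, f, e'⟩ := ihz
    refine ⟨a * c - d * (b * f), a * f + b * c, ?_⟩
    rw [e, e']
    push_cast
    linear_combination (b : QB) * f * hs

lemma rat_mem (r : ℚ) : ((r : ℚ) : QB) ∈ KK s := by
  have := (KK s).algebraMap_mem r
  rwa [eq_ratCast] at this

lemma fixK (σ : GK s) {x : QB} (hx : x ∈ KK s) : σ x = x := σ.commutes (⟨x, hx⟩ : KK s)

end glob

section loc

variable {p : ℕ} [Fact p.Prime] {S : PadicAlgCl p} {d : ℕ} (hS : S ^ 2 = -(d : PadicAlgCl p))

include hS in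
lemma S_or (τ : Au p) : τ S = S ∨ τ S = -S := by
  have h : (τ S) ^ 2 = S ^ 2 := by rw [← map_pow, hS, map_neg, map_natCast]
  exact sq_eq_sq_iff_eq_or_eq_neg.1 h

include hS in
lemma S_norm (hpd : ¬ p ∣ d) : ‖S‖ = 1 := by
  have h1 : ‖S‖ ^ 2 = 1 := by
    rw [← norm_pow, hS, norm_neg]
    exact Pool.Agent.W327.RK.norm_nat hpd
  exact (pow_eq_one_iff_of_nonneg (norm_nonneg _) two_ne_zero).1 h1

include hS in
lemma S_mem (hp : p ≠ 2) (hpd : ¬ p ∣ d) : S ∈ kur p := by
  have h1 := S_norm hS hpd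
  apply mem_kur
  intro τ hτ
  rcases S_or hS τ with h2 | h2
  · exact h2
  · exfalso
    have h3 := inert_of_kur hτ S h1.le
    have e : τ S - S = -(2 * S) := by rw [h2]; ring
    rw [e, norm_neg, norm_mul, norm_two_odd hp, h1] at h3
    norm_num at h3

include hS in
/-- elements fixed by the inertia group -/
theorem norm_odd (hp : p ≠ 2) (hpd : ¬ p ∣ d) {z : PadicAlgCl p} (hz : z ≠ 0)
    (h : ∀ τ : Au p, Inert τ → τ S = S → τ z = z) : ∃ m : ℤ, ‖z‖ = (p : ℝ) ^ m :=
  norm_ne hz (mem_kur fun τ hτ => h τ (inert_of_kur hτ) (hτ S (S_mem hS hp hpd)))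

include hS in
/-- elements fixed by the inertia group, ramified case -/
theorem norm_gen {z : PadicAlgCl p} (hz : z ≠ 0)
    (h : ∀ τ : Au p, Inert τ → τ S = S → τ z = z) : ∃ m : ℤ, ‖z‖ ^ 2 = (p : ℝ) ^ m := by
  by_cases hall : ∀ τ : Au p, (∀ x ∈ kur p, τ x = x) → τ z = z
  · obtain ⟨m, hm⟩ := norm_ne hz (mem_kur hall)
    refine ⟨2 * m, ?_⟩
    rw [hm, mul_comm, zpow_mul]
    norm_cast
  · push Not at hall
    obtain ⟨t, ht, htz⟩ := hall
    have htI : t S = -S := by
      rcases S_or hS t with h1 | h1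
      · exact absurd (h t (inert_of_kur ht) h1) htz
      · exact h1
    have hinv : ∀ x ∈ kur p, t⁻¹ x = x := by
      intro x hx
      have := congrArg (t⁻¹ : Au p) (ht x hx)
      rw [← AlgEquiv.mul_apply, inv_mul_cancel, AlgEquiv.one_apply] at this
      exact this.symm
    have htI' : t⁻¹ S = -S := by
      have := congrArg (t⁻¹ : Au p) htI
      rw [← AlgEquiv.mul_apply, inv_mul_cancel, AlgEquiv.one_apply, map_neg] at this
      exact (neg_eq_iff_eq_neg.2 this).symm
    have key : ∀ τ : Au p, (∀ x ∈ kur p, τ x = x) → τ S = -S → τ z = t z := by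
      intro τ hτ hτI
      have h1 : (t⁻¹ * τ) z = z := by
        apply h
        · apply inert_of_kur
          intro x hx
          rw [AlgEquiv.mul_apply, hτ x hx, hinv x hx]
        · rw [AlgEquiv.mul_apply, hτI, map_neg, htI', neg_neg]
      have h2 := congrArg t h1
      rw [← AlgEquiv.mul_apply, ← mul_assoc, mul_inv_cancel, one_mul] at h2
      exact h2
    have hmem : z * t z ∈ kur p := by
      apply mem_kur
      intro τ hτ
      rw [map_mul]
      rcases S_or hS τ with h1 | h1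
      · have h2 : τ (t z) = t z := by
          have h3 := key (τ * t) (fun x hx => by rw [AlgEquiv.mul_apply, ht x hx, hτ x hx])
            (by rw [AlgEquiv.mul_apply, htI, map_neg, h1])
          rwa [AlgEquiv.mul_apply] at h3
        rw [h2, h τ (inert_of_kur hτ) h1]
      · have h2 : τ (t z) = z := by
          have h3 := h (τ * t) (inert_of_kur fun x hx => by rw [AlgEquiv.mul_apply, ht x hx, hτ x hx])
            (by rw [AlgEquiv.mul_apply, htI, map_neg, h1, neg_neg])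
          rwa [AlgEquiv.mul_apply] at h3
        rw [h2, key τ hτ h1, mul_comm]
    have htz0 : t z ≠ 0 := (map_ne_zero t).2 hz
    obtain ⟨m, hm⟩ := norm_ne (mul_ne_zero hz htz0) hmem
    refine ⟨m, ?_⟩
    rw [norm_mul, nrm] at hm
    rw [pow_two, hm]

/-- the norm of a rational number -/
lemma norm_rat (r : ℚ) (hr : r ≠ 0) : ‖((r : ℚ) : PadicAlgCl p)‖ = (p : ℝ) ^ (-padicValRat p r) := by
  have h1 : ((r : ℚ) : PadicAlgCl p) = ((r : ℚ_[p]) : PadicAlgCl p) := by
    show _ = algebraMap ℚ_[p] (PadicAlgCl p) _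
    rw [map_ratCast]
  rw [h1, PadicAlgCl.norm_extends, Padic.norm_eq_zpow_neg_valuation (by exact_mod_cast hr),
    Padic.valuation_ratCast]

lemma p1 : (1 : ℝ) < p := by exact_mod_cast (Fact.out : p.Prime).one_lt

lemma val_of_norm {r : ℚ} (hr : r ≠ 0) {m : ℤ} (h : ‖((r : ℚ) : PadicAlgCl p)‖ = (p : ℝ) ^ (2 * m)) :
    Even (padicValRat p r) := by
  rw [norm_rat r hr] at h
  have h2 := zpow_right_injective₀ (a := (p : ℝ)) (by linarith [p1 (p := p)]) p1.ne' h
  have h3 : -padicValRat p r = 2 * m := h2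
  exact ⟨-m, by omega⟩

end loc

section comb

variable {s : QB} {d : ℕ} (hs : s ^ 2 = -(d : QB))

/-- `t` is fixed by the inertia groups of `K` at the odd places -/
def FixOdd (s t : QB) : Prop := ∀ (p : ℕ) [Fact p.Prime] (ι : QB →ₐ[ℚ] PadicAlgCl p) (τ : Au p)
  (σ : GK s), p ≠ 2 → Cmp ι τ σ → Inert τ → σ t = t

lemma FixOdd.loc {t : QB} (h : FixOdd s t) {p : ℕ} [Fact p.Prime] (hp : p ≠ 2)
    (ι : QB →ₐ[ℚ] PadicAlgCl p) (τ : Au p) (hin : Inert τ) (hτ : τ (ι s) = ι s) :
    τ (ι t) = ι t := by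
  obtain ⟨σ, hσ⟩ := exists_cmp ι τ hτ
  rw [hσ, h p ι τ σ hp hσ hin]

include hs in
lemma ιs {p : ℕ} [Fact p.Prime] (ι : QB →ₐ[ℚ] PadicAlgCl p) : (ι s) ^ 2 = -(d : PadicAlgCl p) := by
  rw [← map_pow, hs, map_neg, map_natCast]

include hs in
/-- rational squares that are squares in extensions unramified at `p` -/
lemma even_of_sq {u : QB} {r : ℚ} (hr : r ≠ 0) (hu : u ^ 2 = r) (h : FixOdd s u) {p : ℕ}
    [Fact p.Prime] (hp : p ≠ 2) (hpd : ¬ p ∣ d) : Even (padicValRat p r) := by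
  obtain ⟨ι⟩ : Nonempty (QB →ₐ[ℚ] PadicAlgCl p) :=
    ⟨IsAlgClosed.lift (R := ℚ) (S := QB) (M := AlgebraicClosure ℚ_[p])⟩
  have hu0 : ι u ≠ 0 := by
    intro h0
    have h1 : u = 0 := (map_eq_zero ι).1 h0
    rw [h1] at hu
    apply hr
    have h2 : ((r : ℚ) : QB) = 0 := by rw [← hu]; ring
    exact_mod_cast h2
  obtain ⟨m, hm⟩ := norm_odd (ιs hs ι) hp hpd hu0 fun τ hin hτ => h.loc hp ι τ hin hτ
  refine val_of_norm (p := p) hr (m := m) ?_
  have h1 : ((r : ℚ) : PadicAlgCl p) = (ι u) ^ 2 := by rw [← map_pow, hu, map_ratCast]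
  rw [h1, norm_pow, hm, mul_comm, zpow_mul]
  norm_cast

include hs in
/-- the norms have even valuations -/
lemma even_norm (hd0 : d ≠ 0) (hsq : Squarefree d) {t : QB} {x y N : ℚ} (hN : N = x ^ 2 + d * y ^ 2)
    (hN0 : N ≠ 0) (ht : t ^ 2 = x + y * s)
    (h : FixOdd s t) (h' : ∀ c : QB ≃ₐ[ℚ] QB, c s = -s → FixOdd s (c t)) {p : ℕ}
    [Fact p.Prime] (hp : p ≠ 2) : Even (padicValRat p N) := by
  obtain ⟨ι⟩ : Nonempty (QB →ₐ[ℚ] PadicAlgCl p) :=
    ⟨IsAlgClosed.lift (R := ℚ) (S := QB) (M := AlgebraicClosure ℚ_[p])⟩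
  obtain ⟨c, hc⟩ := exists_conj hs hd0
  have ht' : (c t) ^ 2 = x - y * s := by
    rw [← map_pow, ht, map_add, map_mul, map_ratCast, map_ratCast, hc]
    ring
  have hprod : (t * c t) ^ 2 = (N : QB) := by
    rw [mul_pow, ht, ht', hN]
    push_cast
    linear_combination -(y : QB) ^ 2 * hs
  have hN0' : ((N : ℚ) : QB) ≠ 0 := by exact_mod_cast hN0
  have ht0 : t ≠ 0 := by
    rintro rfl
    apply hN0'
    rw [← hprod]
    ring
  have htc0 : c t ≠ 0 := (map_ne_zero c).2 ht0
  have hNι : ((N : ℚ) : PadicAlgCl p) = (ι t * ι (c t)) ^ 2 := by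
    rw [← map_mul, ← map_pow, hprod, map_ratCast]
  by_cases hpd : p ∣ d
  · -- the ramified case
    have hex : ∃ τ : Au p, τ (ι s) ≠ ι s := by
      by_contra hcon
      push Not at hcon
      obtain ⟨v, hv⟩ := fix_mem hcon
      have h1 : v ^ 2 = -(d : ℚ_[p]) := by
        apply (algebraMap ℚ_[p] (PadicAlgCl p)).injective
        rw [map_pow, hv, ιs hs ι, map_neg, map_natCast]
      have hv0 : v ≠ 0 := by
        rintro rfl
        have : (d : ℚ_[p]) = 0 := by linear_combination h1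
        exact hd0 (by exact_mod_cast this)
      have h2 := congrArg Padic.valuation h1
      have h3 : (-(d : ℚ_[p])).valuation = 1 := by
        have h4 : (-(d : ℚ_[p])) = (((-(d : ℚ)) : ℚ) : ℚ_[p]) := by push_cast; rfl
        rw [h4, Padic.valuation_ratCast, padicValRat.neg]
        have h5 : padicValRat p (d : ℚ) = (padicValNat p d : ℤ) := padicValRat.of_nat
        rw [h5]
        have h6 : padicValNat p d = 1 := by
          have h7 : 1 ≤ padicValNat p d := one_le_padicValNat_of_dvd hd0 hpd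
          have h8 : padicValNat p d < 2 := by
            by_contra h9
            push Not at h9
            have h10 : p ^ 2 ∣ d := (pow_dvd_pow p h9).trans pow_padicValNat_dvd
            rw [pow_two] at h10
            exact (Fact.out : p.Prime).not_isUnit (hsq p h10)
          omega
        rw [h6]
        rfl
      rw [h3, Padic.valuation_pow] at h2
      omega
    obtain ⟨τ, hτ⟩ := hex
    have hτ' : τ (ι s) = -(ι s) := (S_or (ιs hs ι) τ).resolve_left hτ
    have hn : ‖ι (c t)‖ = ‖ι t‖ := by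
      have h1 : (τ (ι t)) ^ 2 = (ι (c t)) ^ 2 := by
        rw [← map_pow, ← map_pow, ← map_pow, ht, ht', map_add, map_mul, map_ratCast, map_ratCast,
          map_sub, map_mul, map_ratCast, map_ratCast, map_add, map_mul, map_ratCast, map_ratCast,
          hτ']
        ring
      have h2 := congrArg norm h1
      rw [norm_pow, norm_pow, nrm] at h2
      exact ((sq_eq_sq₀ (norm_nonneg _) (norm_nonneg _)).1 h2).symm
    obtain ⟨m, hm⟩ := norm_gen (ιs hs ι) ((map_ne_zero ι).2 ht0)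
      fun τ hin hτ => h.loc hp ι τ hin hτ
    refine val_of_norm (p := p) hN0 (m := m) ?_
    rw [hNι, norm_pow, norm_mul, hn, ← pow_two, hm, mul_comm, zpow_mul]
    norm_cast
  · obtain ⟨m, hm⟩ := norm_odd (ιs hs ι) hp hpd ((map_ne_zero ι).2 ht0)
      fun τ hin hτ => h.loc hp ι τ hin hτ
    obtain ⟨m', hm'⟩ := norm_odd (ιs hs ι) hp hpd ((map_ne_zero ι).2 htc0)
      fun τ hin hτ => (h' c hc).loc hp ι τ hin hτ
    refine val_of_norm (p := p) hN0 (m := m + m') ?_
    rw [hNι, norm_pow, norm_mul, hm, hm', ← zpow_add₀ (by linarith [p1 (p := p)]), mul_comm,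
      zpow_mul]
    norm_cast

end comb

end Pool.Agent.Z384
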