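import Pool.Agent.R384.Z.Glo
import Pool.Agent.R384.Y.Sch

/-!
# Schneider's conjecture over the `2`-extensions of `ℚ(√-d)` unramified outside `2`
-/

set_option autoImplicit false
set_option linter.unusedSectionVars false

namespace Pool.Agent.Z384

open Pool.Agent.Y715.Red Pool.Agent.Y715.Nr Pool.Agent.W237.RK
open Pool.Agent.Y715.Gi (QB KK GK i₀_mem gk_fix norm_two')
open Pool.Agent.Y715.Df (Cmp exists_cmp gh)
open Pool.Agent.R384 (cyc cyc_cont cyc_spec dvd_cast exists_int exists_lim eq_of_dvd cyc_inert)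

open scoped Classical

variable {s : QB} {d : ℕ} (hs : s ^ 2 = -(d : QB))

include hs in
/-- some element of the decomposition group moves `√2` -/
lemma exists_move (h8 : d % 8 = 7) (ι : QB →ₐ[ℚ] PadicAlgCl 2) {r : QB} (hr : r ^ 2 = 2) :
    ∃ σ ∈ (DD ι : Set (GK s)), σ r = -r := by
  by_contra hcon
  push Not at hcon
  have hfix : ∀ τ : Au 2, τ (ι r) = ι r := by
    intro τ
    obtain ⟨σ, hσ⟩ := exists_cmp ι τ (two_fix h8 (ιs hs ι) τ)
    rw [hσ]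
    have h1 : (σ r) ^ 2 = r ^ 2 := by rw [← map_pow, hr, map_ofNat]
    rcases sq_eq_sq_iff_eq_or_eq_neg.1 h1 with h | h
    · rw [h]
    · exact absurd h (hcon σ ⟨τ, hσ⟩)
  obtain ⟨z, hz⟩ := fix_mem hfix
  have hz2 : z ^ 2 = 2 * ((1 : ℤ_[2]) : ℚ_[2]) := by
    apply (algebraMap ℚ_[2] (PadicAlgCl 2)).injective
    rw [map_pow, hz, ← map_pow, hr, PadicInt.coe_one, mul_one, map_ofNat, map_ofNat]
  exact not_sq_two isUnit_one hz2

include hs in
/-- the powers of the cyclotomic character are not trivial on the decomposition groups -/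
lemma exists_ne (h8 : d % 8 = 7) (ι : QB →ₐ[ℚ] PadicAlgCl 2) {N : Subgroup (GK s)} (hNn : N.Normal)
    {a : ℕ} (hNi : N.index = 2 ^ a) {k : ℤ} (hk : k ≠ 0) :
    ∃ σ ∈ (DD ι : Set (GK s)), σ ∈ N ∧ (cyc s σ) ^ k ≠ 1 := by
  obtain ⟨z, hz⟩ := Pool.Agent.R384.exists_mu8
  have hz0 : z ≠ 0 := by
    rintro rfl
    norm_num at hz
  have hr : (z + z⁻¹) ^ 2 = 2 := by
    have e : (z + z⁻¹) ^ 2 * z ^ 2 = 2 * z ^ 2 := by
      have : (z + z⁻¹) * z = z ^ 2 + 1 := by field_simp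
      calc (z + z⁻¹) ^ 2 * z ^ 2 = ((z + z⁻¹) * z) ^ 2 := by ring
        _ = 2 * z ^ 2 := by rw [this]; linear_combination hz
    exact mul_right_cancel₀ (pow_ne_zero 2 hz0) e
  obtain ⟨σ, h1, h2⟩ := exists_move hs h8 ι hr
  obtain ⟨h3, h4⟩ := Pool.Agent.R384.cyc_ne hz (σ := σ) (by
    intro h5
    rw [h5] at h2
    have h6 : (2 : QB) * (z + z⁻¹) = 0 := by linear_combination h2
    have h7 := (mul_eq_zero.1 h6).resolve_left two_ne_zero
    rw [h7] at hr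
    norm_num at hr)
  refine ⟨σ ^ 2 ^ a, (DDs ι).pow_mem h1 _, ?_, ?_⟩
  · rw [← hNi]
    exact N.pow_index_mem σ
  · rw [map_pow, ← zpow_natCast, ← zpow_mul]
    intro h5
    refine Pool.Agent.R384.inf_order h3 h4 (k := ((2 ^ a : ℕ) : ℤ) * k) ?_ ?_
    · exact mul_ne_zero (by positivity) hk
    · rw [mul_comm, zpow_mul, h5, one_zpow]

/-- the powers of the cyclotomic character as matrices -/
noncomputable def cmr (H : Subgroup (GK s)) (r : ℤ) : H →* Matrix Unit Unit ℤ_[2] :=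
  (Matrix.scalar Unit).toMonoidHom.comp ((Units.coeHom ℤ_[2]).comp
    ((zpowGroupHom r).comp ((cyc s).comp H.subtype)))

lemma cmr_apply {H : Subgroup (GK s)} {r : ℤ} (σ : H) :
    cmr H r σ = Matrix.diagonal fun _ => (((cyc s (σ : GK s)) ^ r : ℤ_[2]ˣ) : ℤ_[2]) := rfl

lemma av_cmr {H : Subgroup (GK s)} {r : ℤ} (σ : H) (v : Unit → ℚ_[2]) :
    av (cmr H r) σ v = fun _ => ((((cyc s (σ : GK s)) ^ r : ℤ_[2]ˣ) : ℤ_[2]) : ℚ_[2]) * v () := by
  funext u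
  unfold av
  rw [cmr_apply, Matrix.diagonal_map (by rfl), Matrix.mulVec_diagonal]

include hs in
/-- **Schneider's conjecture.** -/
theorem schT (hF : Fld d) {H N : Subgroup (GK s)} (hNH : N ≤ H) (hNn : N.Normal)
    (hNi : ∃ a : ℕ, N.index = 2 ^ a) (hNo : IsOpen (N : Set (GK s)))
    (hur : ∀ (p : ℕ) [Fact p.Prime] (ι : QB →ₐ[ℚ] PadicAlgCl p), p ≠ 2 →
      ∀ σ ∈ (II ι : Set (GK s)), σ ∈ N)
    {r : ℤ} (hr : r ≠ 0) {c : H → ℤ_[2]} (hc : Continuous c)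
    (hmul : ∀ σ τ : H, c (σ * τ) = c σ + (((cyc s (σ : GK s)) ^ r : ℤ_[2]ˣ) : ℤ_[2]) * c τ)
    (hodd : ∀ (p : ℕ) [Fact p.Prime] (ι : QB →ₐ[ℚ] PadicAlgCl p), p ≠ 2 →
      ∀ σ : H, (σ : GK s) ∈ (II ι : Set (GK s)) → c σ = 0)
    (htwo : ∀ ι : QB →ₐ[ℚ] PadicAlgCl 2, ∃ z : ℤ_[2],
      ∀ σ : H, (σ : GK s) ∈ (DD ι : Set (GK s)) →
        c σ = ((((cyc s (σ : GK s)) ^ r : ℤ_[2]ˣ) : ℤ_[2]) - 1) * z) :
    ∃ z : ℤ_[2], ∀ σ : H, c σ = ((((cyc s (σ : GK s)) ^ r : ℤ_[2]ˣ) : ℤ_[2]) - 1) * z := by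
  obtain ⟨a, hNi⟩ := hNi
  obtain ⟨ι₀⟩ : Nonempty (QB →ₐ[ℚ] PadicAlgCl 2) :=
    ⟨IsAlgClosed.lift (R := ℚ) (S := QB) (M := AlgebraicClosure ℚ_[2])⟩
  obtain ⟨y, hy⟩ := tow hs hF hNH hNn hNi hNo hur (ρ := cmr H r)
    (fun i j => by
      simp only [cmr_apply, Matrix.diagonal_apply, Subsingleton.elim i j, if_true]
      exact Units.continuous_val.comp (((cyc_cont s).comp continuous_subtype_val).zpow r))
    (fun p _ ι hp σ hσ => by
      rw [cmr_apply, cyc_inert hp hσ]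
      simp)
    (fun σ => ⟨0, by
      rw [pow_zero, pow_one, cmr_apply, m2]
      have h2 : PadicInt.toZMod (p := 2) (((cyc s (σ : GK s)) ^ r : ℤ_[2]ˣ) : ℤ_[2]) = 1 := by
        have h3 : IsUnit (PadicInt.toZMod (p := 2)
          (((cyc s (σ : GK s)) ^ r : ℤ_[2]ˣ) : ℤ_[2])) := (Units.isUnit _).map _
        have h4 : ∀ x : ZMod 2, IsUnit x → x = 1 := by
          intro x hx
          have h5 : ∀ x : ZMod 2, x = 0 ∨ x = 1 := by decide
          rcases h5 x with rfl | h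
          · exact absurd hx not_isUnit_zero
          · exact h
        exact h4 _ h3
      rw [RingHom.mapMatrix_apply, Matrix.diagonal_map (map_zero _)]
      simp only [h2]
      exact Matrix.diagonal_one⟩)
    (c := fun σ _ => ((c σ : ℤ_[2]) : ℚ_[2]))
    (continuous_pi fun _ => continuous_subtype_val.comp hc)
    (fun σ τ => by
      funext u
      rw [Pi.add_apply, av_cmr]
      show ((c (σ * τ) : ℤ_[2]) : ℚ_[2]) = _
      rw [hmul]
      push_cast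
      rfl)
    (fun p _ ι hp => ⟨0, fun σ hσ => by
      funext u
      rw [av_cmr, hodd p ι hp σ hσ]
      simp⟩)
    ι₀
    (fun r' => by
      obtain ⟨z, hz⟩ := htwo (ι₀.comp (gh r'))
      refine ⟨fun _ => (z : ℚ_[2]), fun σ hσ => ?_⟩
      funext u
      rw [hz _ hσ, Pi.sub_apply, av_cmr, sub_mul, one_mul]
      push_cast
      rfl)
  have hy' : ∀ σ : H, ((c σ : ℤ_[2]) : ℚ_[2]) =
      (((((cyc s (σ : GK s)) ^ r : ℤ_[2]ˣ) : ℤ_[2]) : ℚ_[2]) - 1) * y () := by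
    intro σ
    have h2 := congrFun (hy σ) ()
    rw [Pi.sub_apply, av_cmr] at h2
    rw [sub_mul, one_mul]
    exact h2
  obtain ⟨z, hz⟩ := htwo ι₀
  obtain ⟨σ, h1, h2, h3⟩ := exists_ne hs hF.mod ι₀ hNn hNi hr
  have h4 := hz ⟨σ, hNH h2⟩ h1
  have h5 := hy' ⟨σ, hNH h2⟩
  rw [h4] at h5
  have h7 : ((((cyc s σ) ^ r : ℤ_[2]ˣ) : ℤ_[2]) : ℚ_[2]) - 1 ≠ 0 := by
    intro h
    apply h3
    apply Units.ext
    apply Subtype.ext
    show ((((cyc s σ) ^ r : ℤ_[2]ˣ) : ℤ_[2]) : ℚ_[2]) = 1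
    exact sub_eq_zero.1 h
  have hyz : y () = (z : ℚ_[2]) := by
    push_cast at h5
    exact (mul_left_cancel₀ h7 h5).symm
  refine ⟨z, fun σ => ?_⟩
  apply Subtype.ext
  have h8 := hy' σ
  rw [hyz] at h8
  push_cast
  exact h8

end Pool.Agent.Z384
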