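import Pool.Agent.R384.Z.Fm
import Pool.Agent.R384.Z.Abs

/-!
# Stable subspaces: local and global
-/

set_option autoImplicit false
set_option linter.unusedSectionVars false

namespace Pool.Agent.Z384

open Pool.Agent.Y715.Gi (QB KK GK i₀_mem gk_fix)
open IsLocalRing Matrix

section

variable {A : Type*} [CommRing A] [IsLocalRing A] [IsNoetherianRing A] {n : ℕ}
variable {G : Type*} [Group G]
variable {F : Type*} [Field F] [Algebra A F] [IsFractionRing A F]

theorem stable_of_dense (ρ : G →* GL (Fin n) A) {D : Subgroup G}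
    (happ : ∀ (m : ℕ) (g : G), ∃ δ ∈ D, δ⁻¹ * g ∈ cong ρ m)
    {W : Submodule F (Fin n → F)} (hW : ∀ δ ∈ D, ∀ w ∈ W, act F ρ δ w ∈ W) (g : G) :
    ∀ w ∈ W, act F ρ g w ∈ W := by
  have hD' : D ≤ stb ρ W := by
    intro δ hδ w
    refine ⟨hW δ hδ w, fun hw => ?_⟩
    have := hW δ⁻¹ (inv_mem hδ) _ hw
    rwa [← act_mul, inv_mul_cancel, act_one] at this
  have h := stb_of_lim ρ W hD' (x := g) (fun m => happ m g)
  exact fun w hw => (h w).1 hw

end

end Pool.Agent.Z384
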