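import Pool.Agent.R384.Z.Glo
import Pool.Agent.R384.Z.Nf
import Pool.Agent.Y419.LC.LCP

/-!
# The injectivity of the logarithms at the places above one of the primes above `2`
-/

set_option autoImplicit false
set_option linter.unusedSectionVars false

namespace Pool.Agent.Z384

open Pool.Agent.Y715.Red Pool.Agent.Y715.Nr Pool.Agent.W237.RK
open Pool.Agent.Y715.Gi (QB KK GK i₀_mem gk_fix norm_two')
open Pool.Agent.Y715.Df (Cmp exists_cmp gh)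
open Pool.Agent.R384 (dvd_cast exists_int eq_of_dvd)
open NumberField Module TensorProduct Pool.Agent.W289.SL Filter Topology Pool.Agent.Y419.LC.LcpP

section desc

variable {p : ℕ} [hp : Fact p.Prime] {E : Type} [Field E] [NumberField E]

/-- descent of a relation from `ℂ_p` to `ℤ_p` -/
lemma descent' {r : ℕ} (c : Fin r → J E → ℚ_[p]) (a : Fin r → ℂ_[p]) (ha : a ≠ 0)
    (hrel : ∀ σ : E →+* ℂ_[p],
      ∑ i, a i * ∑ j, algebraMap ℚ_[p] ℂ_[p] (c i j) * σ ((om E j : 𝓞 E) : E) = 0) :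
    ∃ b : Fin r → PadicInt p, b ≠ 0 ∧ ∀ σ : E →+* ℂ_[p], ∑ i, algebraMap ℚ_[p] ℂ_[p] (b i : ℚ_[p]) *
      ∑ j, algebraMap ℚ_[p] ℂ_[p] (c i j) * σ ((om E j : 𝓞 E) : E) = 0 := by
  obtain ⟨N, hN⟩ := exists_inv (p := p) (E := E)
  -- the relations between the coordinates
  have h1 : ∀ j, ∑ i, a i * algebraMap ℚ_[p] ℂ_[p] (c i j) = 0 := by
    intro j
    have h2 := hN (fun j => ∑ i, a i * algebraMap ℚ_[p] ℂ_[p] (c i j)) j
    rw [h2]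
    refine Finset.sum_eq_zero fun σ _ => ?_
    have h3 : ∑ j, (∑ i, a i * algebraMap ℚ_[p] ℂ_[p] (c i j)) * σ ((om E j : 𝓞 E) : E) = 0 := by
      rw [← hrel σ]
      simp only [Finset.sum_mul]
      rw [Finset.sum_comm]
      refine Finset.sum_congr rfl fun i _ => ?_
      rw [Finset.mul_sum]
      refine Finset.sum_congr rfl fun j _ => ?_
      rw [mul_assoc]
    rw [h3, zero_mul]
  -- a functional
  obtain ⟨i0, hi0⟩ : ∃ i0, a i0 ≠ 0 := by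
    by_contra h
    push Not at h
    exact ha (funext h)
  obtain ⟨f, hf⟩ : ∃ f : Module.Dual ℚ_[p] ℂ_[p], f (a i0) ≠ 0 := by
    by_contra h
    push Not at h
    exact hi0 ((Module.forall_dual_apply_eq_zero_iff ℚ_[p] (a i0)).1 h)
  have h4 : ∀ j, ∑ i, f (a i) * c i j = 0 := by
    intro j
    have h5 := congrArg f (h1 j)
    rw [map_sum, map_zero] at h5
    rw [← h5]
    refine Finset.sum_congr rfl fun i _ => ?_
    rw [mul_comm (a i), ← Algebra.smul_def, map_smul, smul_eq_mul, mul_comm]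
  -- scaling
  have hne : Nonempty (Fin r) := ⟨i0⟩
  obtain ⟨i1, hi1⟩ := Finite.exists_max (fun i => ‖f (a i)‖)
  have hfi1 : f (a i1) ≠ 0 := by
    intro h0
    have h5 := hi1 i0
    rw [h0, norm_zero] at h5
    exact hf (norm_le_zero_iff.1 h5)
  have hle : ∀ i, ‖f (a i) / f (a i1)‖ ≤ 1 := by
    intro i
    rw [norm_div, div_le_one (norm_pos_iff.2 hfi1)]
    exact hi1 i
  refine ⟨fun i => ⟨f (a i) / f (a i1), hle i⟩, ?_, ?_⟩
  · intro h0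
    have h5 := congrArg (fun z : PadicInt p => (z : ℚ_[p])) (congrFun h0 i1)
    change f (a i1) / f (a i1) = 0 at h5
    rw [div_self hfi1] at h5
    exact one_ne_zero h5
  · intro σ
    have h6 : ∀ i, algebraMap ℚ_[p] ℂ_[p] (f (a i) / f (a i1)) *
        (∑ j, algebraMap ℚ_[p] ℂ_[p] (c i j) * σ ((om E j : 𝓞 E) : E)) =
        ∑ j, algebraMap ℚ_[p] ℂ_[p] ((f (a i) * c i j) / f (a i1)) * σ ((om E j : 𝓞 E) : E) := by
      intro i
      rw [Finset.mul_sum]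
      refine Finset.sum_congr rfl fun j _ => ?_
      rw [← mul_assoc, ← map_mul]
      congr 2
      ring
    change ∑ i, algebraMap ℚ_[p] ℂ_[p] (f (a i) / f (a i1)) *
      (∑ j, algebraMap ℚ_[p] ℂ_[p] (c i j) * σ ((om E j : 𝓞 E) : E)) = 0
    rw [Finset.sum_congr rfl fun i _ => h6 i, Finset.sum_comm]
    refine Finset.sum_eq_zero fun j _ => ?_
    rw [← Finset.sum_mul, ← map_sum, ← Finset.sum_div, h4 j, zero_div, map_zero, zero_mul]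

/-- the projection to the embeddings with `θ ↦ θ₀` -/
lemma proj {θ : E} {D : ℤ} (hθ : θ ^ 2 = D) {θ₀ : ℚ_[p]} (hθ₀ : θ₀ ^ 2 = D) (h0 : θ₀ ≠ 0)
    (c : J E → ℚ_[p]) : ∃ c' : J E → ℚ_[p], ∀ σ : E →+* ℂ_[p],
      (σ θ = algebraMap ℚ_[p] ℂ_[p] θ₀ →
        ∑ j, algebraMap ℚ_[p] ℂ_[p] (c' j) * σ ((om E j : 𝓞 E) : E) =
          ∑ j, algebraMap ℚ_[p] ℂ_[p] (c j) * σ ((om E j : 𝓞 E) : E)) ∧
      (σ θ ≠ algebraMap ℚ_[p] ℂ_[p] θ₀ →
        ∑ j, algebraMap ℚ_[p] ℂ_[p] (c' j) * σ ((om E j : 𝓞 E) : E) = 0) := by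
  set B := integralBasis E with hB
  have hBj : ∀ j, B j = ((om E j : 𝓞 E) : E) := fun j => integralBasis_apply E j
  set A : J E → J E → ℚ := fun j l => B.repr (θ * B j) l with hA
  have hAs : ∀ (σ : E →+* ℂ_[p]) (j : J E), σ θ * σ ((om E j : 𝓞 E) : E) =
      ∑ l, (A j l : ℂ_[p]) * σ ((om E l : 𝓞 E) : E) := by
    intro σ j
    rw [← map_mul, ← hBj, ← B.sum_repr (θ * B j), map_sum]
    refine Finset.sum_congr rfl fun l _ => ?_
    rw [Algebra.smul_def, map_mul, eq_ratCast, map_ratCast, hBj l]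
  refine ⟨fun l => c l / 2 + ∑ j, c j * (A j l : ℚ_[p]) / (2 * θ₀), fun σ => ?_⟩
  have h1 : ∑ l, algebraMap ℚ_[p] ℂ_[p] (c l / 2 + ∑ j, c j * (A j l : ℚ_[p]) / (2 * θ₀)) *
      σ ((om E l : 𝓞 E) : E) = (1 / 2 + σ θ / (2 * algebraMap ℚ_[p] ℂ_[p] θ₀)) *
      ∑ j, algebraMap ℚ_[p] ℂ_[p] (c j) * σ ((om E j : 𝓞 E) : E) := by
    have h2 : ∀ l, algebraMap ℚ_[p] ℂ_[p] (c l / 2 + ∑ j, c j * (A j l : ℚ_[p]) / (2 * θ₀)) *
        σ ((om E l : 𝓞 E) : E) =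
        (1 / 2) * (algebraMap ℚ_[p] ℂ_[p] (c l) * σ ((om E l : 𝓞 E) : E)) +
        ∑ j, (1 / (2 * algebraMap ℚ_[p] ℂ_[p] θ₀)) * (algebraMap ℚ_[p] ℂ_[p] (c j) *
          ((A j l : ℂ_[p]) * σ ((om E l : 𝓞 E) : E))) := by
      intro l
      rw [map_add, map_div₀, map_ofNat, map_sum, add_mul, Finset.sum_mul]
      congr 1
      · ring
      · refine Finset.sum_congr rfl fun j _ => ?_
        rw [map_div₀, map_mul, map_mul, map_ofNat, map_ratCast]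
        ring
    rw [Finset.sum_congr rfl fun l _ => h2 l, Finset.sum_add_distrib, ← Finset.mul_sum,
      Finset.sum_comm, add_mul]
    congr 1
    rw [Finset.mul_sum]
    refine Finset.sum_congr rfl fun j _ => ?_
    rw [← Finset.mul_sum, ← Finset.mul_sum, ← hAs]
    ring
  have hC0 : algebraMap ℚ_[p] ℂ_[p] θ₀ ≠ 0 := by
    rw [Ne, map_eq_zero]
    exact h0
  refine ⟨fun h => ?_, fun h => ?_⟩
  · rw [h1, h]
    have h3 : (1 / 2 + algebraMap ℚ_[p] ℂ_[p] θ₀ / (2 * algebraMap ℚ_[p] ℂ_[p] θ₀)) = 1 := by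
      field_simp
      norm_num
    rw [h3, one_mul]
  · have h4 : σ θ ^ 2 = algebraMap ℚ_[p] ℂ_[p] θ₀ ^ 2 := by
      rw [← map_pow, hθ, ← map_pow, hθ₀, map_intCast, map_intCast]
    rcases sq_eq_sq_iff_eq_or_eq_neg.1 h4 with h5 | h5
    · exact absurd h5 h
    · rw [h1, h5]
      have h3 : (1 / 2 + -algebraMap ℚ_[p] ℂ_[p] θ₀ / (2 * algebraMap ℚ_[p] ℂ_[p] θ₀)) = 0 := by
        field_simp
        norm_num
      rw [h3, zero_mul]

/-- descent of a relation for half of the embeddings -/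
lemma descent2 {L : ℂ_[p] → ℂ_[p]} (hL : IsIwasawaLog p L) {θ : E} {D : ℤ} (hθ : θ ^ 2 = D)
    {θ₀ : ℚ_[p]} (hθ₀ : θ₀ ^ 2 = D) (h0 : θ₀ ≠ 0) {r : ℕ} (ε y : Fin r → 𝓞 E)
    (hy : ∀ i, ε i = 1 + ((p : ℕ) : 𝓞 E) ^ 4 * y i) (a : Fin r → ℂ_[p]) (ha : a ≠ 0)
    (hrel : ∀ σ : E →+* ℂ_[p], σ θ = algebraMap ℚ_[p] ℂ_[p] θ₀ → ∑ i, a i * L (σ (ε i : E)) = 0) :
    ∃ b : Fin r → PadicInt p, b ≠ 0 ∧ ∀ σ : E →+* ℂ_[p], σ θ = algebraMap ℚ_[p] ℂ_[p] θ₀ →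
      ∑ i, algebraMap ℚ_[p] ℂ_[p] (b i : ℚ_[p]) * L (σ (ε i : E)) = 0 := by
  choose c hc using fun i => exists_c hL (ε i) (y i) (hy i)
  choose c' hc' using fun i => proj hθ hθ₀ h0 (c i)
  obtain ⟨b, hb, hb2⟩ := descent' c' a ha (fun σ => by
    by_cases h : σ θ = algebraMap ℚ_[p] ℂ_[p] θ₀
    · rw [← hrel σ h]
      refine Finset.sum_congr rfl fun i _ => ?_
      rw [(hc' i σ).1 h, hc i σ]
    · refine Finset.sum_eq_zero fun i _ => ?_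
      rw [(hc' i σ).2 h, mul_zero])
  refine ⟨b, hb, fun σ h => ?_⟩
  rw [← hb2 σ]
  refine Finset.sum_congr rfl fun i _ => ?_
  rw [(hc' i σ).1 h, hc i σ]

/-- the combinations are near `1` -/
lemma near_of_rel {L : ℂ_[2] → ℂ_[2]} (hL : IsIwasawaLog 2 L) {E : Type} [Field E] [NumberField E]
    {r : ℕ} (ε : Fin r → (𝓞 E)ˣ) (hε : ∀ i, ε i ∈ U4 E 2) (b : Fin r → ℤ_[2]) (σ : E →+* ℂ_[2])
    (hrel : ∑ i, algebraMap ℚ_[2] ℂ_[2] (b i : ℚ_[2]) * L (σ ((ε i : 𝓞 E) : E)) = 0) (N : ℕ) :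
    ∃ m : Fin r → ℤ, (∀ i, (2 : ℤ_[2]) ^ N ∣ b i - m i) ∧
      ‖σ (∏ i, ((ε i : 𝓞 E) : E) ^ m i) - 1‖ ≤ (1 / 2 : ℝ) ^ (N + 2) := by
  set C : ℝ := ∑ i, ‖L (σ ((ε i : 𝓞 E) : E))‖ with hC
  have hC0 : 0 ≤ C := Finset.sum_nonneg fun i _ => norm_nonneg _
  obtain ⟨K, hK⟩ : ∃ K : ℕ, 2 * C ≤ 2 ^ K := (pow_unbounded_of_one_lt (2 * C) (by norm_num)).imp
    fun _ h => h.le
  choose m hm using fun i => exists_int (b i) (N + 2 + K)
  refine ⟨m, fun i => (pow_dvd_pow _ (by omega)).trans (hm i), ?_⟩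
  set u : (𝓞 E)ˣ := ∏ i, ε i ^ m i with hu
  have hu4 : u ∈ U4 E 2 := Subgroup.prod_mem _ fun i _ => Subgroup.zpow_mem _ (hε i) _
  have hue : ∏ i, ((ε i : 𝓞 E) : E) ^ m i = ((u : 𝓞 E) : E) := by
    let F : (𝓞 E)ˣ →* Eˣ := Units.map (algebraMap (𝓞 E) E).toMonoidHom
    have h1 : F u = ∏ i, F (ε i) ^ m i := by
      rw [hu, map_prod]
      exact Finset.prod_congr rfl fun i _ => map_zpow F _ _
    have h2 := congrArg Units.val h1
    rw [Units.coe_prod] at h2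
    simp only [Units.val_zpow_eq_zpow_val] at h2
    exact h2.symm
  rw [hue]
  obtain ⟨v, hv⟩ := (mem_U4 u).1 hu4
  have hσu : σ ((u : 𝓞 E) : E) = 1 + σ (((u : 𝓞 E) - 1 : 𝓞 E) : E) := by
    have h5 : σ (((u : 𝓞 E) - 1 : 𝓞 E) : E) = σ ((u : 𝓞 E) : E) - 1 := by
      simp only [map_sub, map_one]
    rw [h5]
    ring
  have h2 : ‖σ (((u : 𝓞 E) - 1 : 𝓞 E) : E)‖ ≤ 1 / 8 := by
    rw [hv]
    have h3 : σ ((((2 : ℕ) : 𝓞 E) ^ 4 * v : 𝓞 E) : E) = ((2 : ℕ) : ℂ_[2]) ^ 4 * σ (v : E) := by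
      simp only [map_mul, map_pow, map_natCast]
    rw [h3, norm_mul, norm_pow, norm_p]
    have h4 := norm_emb_le σ v
    calc (((2 : ℕ) : ℝ)⁻¹) ^ 4 * ‖σ (v : E)‖ ≤ (2⁻¹) ^ 4 * 1 := by
            push_cast
            gcongr
      _ ≤ 1 / 8 := by norm_num
  have h3 := dist_le hL h2
  rw [← hσu] at h3
  rw [hσu, add_sub_cancel_left]
  refine h3.trans ?_
  have h4 : L (σ ((u : 𝓞 E) : E)) = ∑ i, algebraMap ℚ_[2] ℂ_[2]
      ((((m i : ℤ) : ℤ_[2]) - b i : ℤ_[2]) : ℚ_[2]) * L (σ ((ε i : 𝓞 E) : E)) := by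
    have h5 : logHom hL σ (Additive.ofMul u) = ∑ i, (m i) • logHom hL σ
        (Additive.ofMul (ε i)) := by
      rw [hu, ofMul_prod, map_sum]
      refine Finset.sum_congr rfl fun i _ => ?_
      rw [ofMul_zpow, map_zsmul]
    have h6 : L (σ ((u : 𝓞 E) : E)) = logHom hL σ (Additive.ofMul u) := rfl
    rw [h6, h5, ← sub_zero (∑ i, (m i) • logHom hL σ (Additive.ofMul (ε i))), ← hrel,
      ← Finset.sum_sub_distrib]
    refine Finset.sum_congr rfl fun i _ => ?_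
    have e1 : ((((m i : ℤ) : ℤ_[2]) - b i : ℤ_[2]) : ℚ_[2]) = (m i : ℚ_[2]) - (b i : ℚ_[2]) := by
      push_cast
      rfl
    rw [e1, map_sub, map_intCast, sub_mul, zsmul_eq_mul]
    rfl
  have h5 : ‖L (σ ((u : 𝓞 E) : E))‖ ≤ (1 / 2) ^ (N + 2 + K) * C := by
    rw [h4, hC, Finset.mul_sum]
    refine norm_sum_le_of_le _ fun i _ => ?_
    rw [norm_mul, norm_algebraMap']
    refine mul_le_mul_of_nonneg_right ?_ (norm_nonneg _)
    obtain ⟨z, hz⟩ := hm i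
    have h6 : ((m i : ℤ) : ℤ_[2]) - b i = -((2 : ℤ_[2]) ^ (N + 2 + K) * z) := by
      rw [← hz]
      ring
    rw [h6]
    have h7 : ‖(((-((2 : ℤ_[2]) ^ (N + 2 + K) * z) : ℤ_[2])) : ℚ_[2])‖ =
        ‖(-((2 : ℤ_[2]) ^ (N + 2 + K) * z) : ℤ_[2])‖ := rfl
    rw [h7, norm_neg, norm_mul, norm_pow]
    have h8 : ‖(2 : ℤ_[2])‖ = 1 / 2 := by
      have := PadicInt.norm_p (p := 2)
      push_cast at this
      rw [this]
      norm_num
    rw [h8]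
    have h9 := PadicInt.norm_le_one z
    have h10 : (0 : ℝ) ≤ (1 / 2) ^ (N + 2 + K) := by positivity
    nlinarith
  calc 2 * ‖L (σ ((u : 𝓞 E) : E))‖ ≤ 2 * ((1 / 2) ^ (N + 2 + K) * C) := by linarith
    _ = (1 / 2) ^ (N + 2) * ((1 / 2) ^ K * (2 * C)) := by rw [pow_add _ (N + 2)]; ring
    _ ≤ (1 / 2) ^ (N + 2) * ((1 / 2) ^ K * 2 ^ K) := by gcongr
    _ = (1 / 2) ^ (N + 2) := by rw [← mul_pow]; norm_num

end desc

end Pool.Agent.Z384
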