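import Pool.Agent.R384.Z.Sg

/-!
# `Σ`-Leopoldt over the `2`-extensions of `ℚ(√-d)` unramified outside `2`
-/

set_option autoImplicit false
set_option linter.unusedSectionVars false

namespace Pool.Agent.Z384

open Pool.Agent.Y715.Red Pool.Agent.Y715.Nr Pool.Agent.W237.RK
open Pool.Agent.Y715.Gi (QB KK GK i₀_mem gk_fix norm_two')
open Pool.Agent.Y715.Df (Cmp exists_cmp gh)
open Pool.Agent.R384 (dvd_cast exists_int eq_of_dvd)
open NumberField Module TensorProduct Pool.Agent.W289.SL Filter Topology Pool.Agent.Y419.LC.LcpP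

/-- an embedding with a given value at `√-d` -/
lemma exists_iota {d : ℕ} (hF : Fld d) {s : QB} (hs : s ^ 2 = -(d : QB)) {θ₀ : ℂ_[2]}
    (hθ₀ : θ₀ ^ 2 = -(d : ℂ_[2])) :
    ∃ (ι : QB →ₐ[ℚ] PadicAlgCl 2) (z : ℚ_[2]), ((ι s : PadicAlgCl 2) : ℂ_[2]) = θ₀ ∧
      z ^ 2 = -(d : ℚ_[2]) ∧ z ≠ 0 ∧ algebraMap ℚ_[2] ℂ_[2] z = θ₀ := by
  have key : ∀ ι : QB →ₐ[ℚ] PadicAlgCl 2, ((ι s : PadicAlgCl 2) : ℂ_[2]) = θ₀ →
      ∃ z : ℚ_[2], ((ι s : PadicAlgCl 2) : ℂ_[2]) = θ₀ ∧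
        z ^ 2 = -(d : ℚ_[2]) ∧ z ≠ 0 ∧ algebraMap ℚ_[2] ℂ_[2] z = θ₀ := by
    intro ι hι
    obtain ⟨z, hz⟩ := fix_mem (x := ι s) fun τ => two_fix hF.mod (ιs hs ι) τ
    have hz2 : z ^ 2 = -(d : ℚ_[2]) := by
      apply (algebraMap ℚ_[2] (PadicAlgCl 2)).injective
      rw [map_pow, hz, ιs hs ι, map_neg, map_natCast]
    refine ⟨z, hι, hz2, ?_, ?_⟩
    · rintro rfl
      have h1 : (d : ℚ_[2]) = 0 := by linear_combination hz2
      exact hF.ne_zero (by exact_mod_cast h1)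
    · rw [← hι, ← hz]
      rfl
  obtain ⟨ι⟩ : Nonempty (QB →ₐ[ℚ] PadicAlgCl 2) :=
    ⟨IsAlgClosed.lift (R := ℚ) (S := QB) (M := AlgebraicClosure ℚ_[2])⟩
  have h1 : (((ι s : PadicAlgCl 2) : ℂ_[2])) ^ 2 = θ₀ ^ 2 := by
    have h2 : (((ι s : PadicAlgCl 2) : ℂ_[2])) ^ 2 = algebraMap (PadicAlgCl 2) ℂ_[2] ((ι s) ^ 2) := by
      rw [map_pow]
      rfl
    rw [h2, ιs hs ι, hθ₀, map_neg, map_natCast]
  rcases sq_eq_sq_iff_eq_or_eq_neg.1 h1 with h2 | h2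
  · exact ⟨ι, key ι h2⟩
  · obtain ⟨c, hc⟩ := exists_conj hs hF.ne_zero
    refine ⟨ι.comp c.toAlgHom, key _ ?_⟩
    have h5 : (ι.comp c.toAlgHom) s = -ι s := by
      show ι (c s) = _
      rw [hc, map_neg]
    rw [h5]
    have h6 : (((-ι s : PadicAlgCl 2)) : ℂ_[2]) = -((ι s : PadicAlgCl 2) : ℂ_[2]) :=
      map_neg (algebraMap (PadicAlgCl 2) ℂ_[2]) (ι s)
    rw [h6, h2, neg_neg]

section main

variable {d : ℕ} (hF : Fld d) {k H M : Type} [Field k] [NumberField k] [Field H] [NumberField H]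
  [Field M] [NumberField M] [Algebra k H] [Algebra k M] [Algebra H M] [IsScalarTower k H M]
  [IsGalois k M]

include hF in
/-- **The independence of the logarithms.** -/
theorem ind_log (hk : Module.finrank ℚ k = 2) {θ : k} (hθ : θ ^ 2 = -(d : k)) {a' : ℕ}
    (ha' : Module.finrank k M = 2 ^ a')
    (hur : ∀ P : Ideal (𝓞 M), P.IsPrime → P ≠ ⊥ → (2 : 𝓞 M) ∉ P → P.ramificationIdx (𝓞 k) = 1)
    {θ₀ : ℂ_[2]} (hθ₀ : θ₀ ^ 2 = -(d : ℂ_[2])) {L : ℂ_[2] → ℂ_[2]} (hL : IsIwasawaLog 2 L)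
    {r : ℕ} (ε : Fin r → (𝓞 H)ˣ) (hε : ∀ i, ε i ∈ U4 H 2) (a : Fin r → ℂ_[2]) (ha : a ≠ 0)
    (hrel : ∀ σ : H →+* ℂ_[2], σ (algebraMap k H θ) = θ₀ →
      ∑ i, a i * L (σ ((ε i : 𝓞 H) : H)) = 0) :
    ∃ b : Fin r → ℤ_[2], b ≠ 0 ∧ ∃ e : ℕ, ∀ (N : ℕ) (m : Fin r → ℤ),
      (∀ i, (2 : ℤ_[2]) ^ N ∣ b i - m i) → ∃ w : (𝓞 H)ˣ, w ^ 2 ^ N = (∏ i, ε i ^ m i) ^ 2 ^ e := by
  -- the embedding into `QB`
  obtain ⟨j⟩ : Nonempty (M →ₐ[ℚ] QB) := ⟨IsAlgClosed.lift⟩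
  set s : QB := j (algebraMap k M θ) with hs0
  have hs : s ^ 2 = -(d : QB) := by
    rw [hs0, ← map_pow, ← map_pow, hθ, map_neg, map_natCast, map_neg, map_natCast]
  obtain ⟨N, hN, hNn, hNi, hNo, hNu⟩ := exists_grp hk hF.ne_zero hθ hs (j : M →+* QB) rfl ha' hur
  set f : H →+* QB := (j : M →+* QB).comp (algebraMap H M) with hf
  have hfs : f (algebraMap k H θ) = s := by
    rw [hf, RingHom.comp_apply, ← IsScalarTower.algebraMap_apply]
    rfl
  let HH : Subgroup (GK s) := {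
    carrier := {σ | ∀ x, σ (f x) = f x}
    mul_mem' := fun {σ τ} h1 h2 x => by rw [AlgEquiv.mul_apply, h2, h1]
    one_mem' := fun x => rfl
    inv_mem' := fun {σ} h x => by
      have h1 : σ⁻¹ (σ (f x)) = f x := by
        rw [← AlgEquiv.mul_apply, inv_mul_cancel, AlgEquiv.one_apply]
      rw [h x] at h1
      exact h1 }
  have hNH : N ≤ HH := fun σ hσ x => (hN σ).1 hσ _
  obtain ⟨ι₀, z, hι, hz2, hz0, hz⟩ := exists_iota hF hs hθ₀
  -- the descent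
  choose y hy using fun i => (mem_U4 (ε i)).1 (hε i)
  have hθH : (algebraMap k H θ) ^ 2 = ((-(d : ℤ) : ℤ) : H) := by
    rw [← map_pow, hθ, map_neg, map_natCast, Int.cast_neg, Int.cast_natCast]
  obtain ⟨b, hb, hbrel⟩ := descent2 hL hθH (θ₀ := z) (by rw [hz2]; push_cast; rfl) hz0
    (fun i => (ε i : 𝓞 H)) y (fun i => by rw [← hy i]; ring) a ha (by rw [hz]; exact hrel)
  refine ⟨b, hb, ?_⟩
  obtain ⟨ζ, hζ⟩ := exists_zt
  choose t ht0 ht using fun i => exists_rt (f ((ε i : 𝓞 H) : H))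
  have h0 : ∀ i, t i 0 ≠ 0 := by
    intro i
    rw [ht0, Ne, map_eq_zero]
    simp
  obtain ⟨e, he⟩ := glo hs hζ ht h0 hF hNH hNn hNi hNo hNu (fun σ i => by
      rw [ht0]
      exact σ.2 _) (fun p _ ι _ i => by
      rw [ht0]
      have h1 := Pool.Agent.W289.SL.norm_emb_unit
        ((algebraMap (PadicAlgCl p) ℂ_[p]).comp ((ι : QB →+* PadicAlgCl p).comp f)) (ε i)
      have h2 := PadicComplex.norm_extends p (ι (f ((ε i : 𝓞 H) : H)))
      rw [← h2]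
      exact h1) b ι₀ (by
    intro r' n
    set σ : H →+* ℂ_[2] := (algebraMap (PadicAlgCl 2) ℂ_[2]).comp
      (((ι₀.comp (gh r') : QB →ₐ[ℚ] PadicAlgCl 2) : QB →+* PadicAlgCl 2).comp f) with hσ
    have hσθ : σ (algebraMap k H θ) = θ₀ := by
      show algebraMap (PadicAlgCl 2) ℂ_[2] (ι₀ (r' (f (algebraMap k H θ)))) = θ₀
      rw [hfs, gk_fix]
      exact hι
    obtain ⟨m, hm, hm2⟩ := near_of_rel hL ε hε b σ (hbrel σ (by rw [hσθ, hz])) n
    refine ⟨m, hm, ?_⟩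
    have h1 : ∏ i, t i 0 ^ m i = f (∏ i, ((ε i : 𝓞 H) : H) ^ m i) := by
      rw [map_prod]
      refine Finset.prod_congr rfl fun i _ => ?_
      rw [ht0, map_zpow₀]
    rw [h1]
    have h2 := PadicComplex.norm_extends 2
      ((ι₀.comp (gh r')) (f (∏ i, ((ε i : 𝓞 H) : H) ^ m i)) - 1)
    rw [← h2]
    change ‖algebraMap (PadicAlgCl 2) ℂ_[2]
      ((ι₀.comp (gh r')) (f (∏ i, ((ε i : 𝓞 H) : H) ^ m i)) - 1)‖ ≤ _
    rw [map_sub, map_one]
    exact hm2)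
  refine ⟨e, fun n m hm => ?_⟩
  obtain ⟨h, hfix, hh⟩ := he n m hm
  obtain ⟨x, hx⟩ := fixed_mem hs f hfs (y := h) fun σ hσ => hfix ⟨σ, hσ⟩
  set v : (𝓞 H)ˣ := (∏ i, ε i ^ m i) ^ 2 ^ e with hv
  have hxv : x ^ 2 ^ n = ((v : 𝓞 H) : H) := by
    apply f.injective
    rw [map_pow, hx, hh]
    let F : (𝓞 H)ˣ →* QBˣ := Units.map (f.comp (algebraMap (𝓞 H) H)).toMonoidHom
    have h1 : F v = (∏ i, F (ε i) ^ m i) ^ 2 ^ e := by
      rw [hv, map_pow, map_prod]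
      congr 1
      exact Finset.prod_congr rfl fun i _ => map_zpow F _ _
    have h2 := congrArg Units.val h1
    rw [Units.val_pow_eq_pow_val, Units.coe_prod] at h2
    simp only [Units.val_zpow_eq_zpow_val] at h2
    have h3 : f ((v : 𝓞 H) : H) = ((F v : QBˣ) : QB) := rfl
    rw [h3, h2]
    congr 1
    exact Finset.prod_congr rfl fun i _ => by
      rw [ht0]
      rfl
  have hint : IsIntegral ℤ x := by
    refine IsIntegral.of_pow (n := 2 ^ n) (by positivity) ?_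
    rw [hxv]
    exact RingOfIntegers.isIntegral_coe _
  set X : 𝓞 H := ⟨x, hint⟩ with hX
  have hXv : X ^ 2 ^ n = v := by
    apply RingOfIntegers.ext
    rw [← hxv]
    rfl
  have hXu : IsUnit X := by
    have h1 : IsUnit (X ^ 2 ^ n) := by
      rw [hXv]
      exact v.isUnit
    exact (isUnit_pow_iff (by positivity)).1 h1
  obtain ⟨w, hw⟩ := hXu
  refine ⟨w, ?_⟩
  apply Units.ext
  rw [Units.val_pow_eq_pow_val, hw, hXv]

lemma exp_zero {r : ℕ} {b : Fin r → ℤ_[2]} {n e : ℕ} (hn : n ≠ 0)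
    (h : ∀ (N : ℕ) (m : Fin r → ℤ), (∀ i, (2 : ℤ_[2]) ^ N ∣ b i - m i) →
      ∀ i, (2 ^ N : ℤ) ∣ n * 2 ^ e * m i) : b = 0 := by
  funext i
  have h1 : (n : ℤ_[2]) * 2 ^ e * b i = 0 := by
    apply eq_of_dvd
    intro N
    choose m hm using fun i => exists_int (b i) N
    have h2 := (dvd_cast (n := N)).2 (h N m hm i)
    have h3 : (n : ℤ_[2]) * 2 ^ e * b i - 0 = n * 2 ^ e * (b i - m i) +
        ((n * 2 ^ e * m i : ℤ) : ℤ_[2]) := by
      push_cast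
      ring
    rw [h3]
    exact dvd_add (Dvd.dvd.mul_left (hm i) _) h2
  have h4 : (n : ℤ_[2]) * 2 ^ e ≠ 0 := by
    refine mul_ne_zero (by exact_mod_cast hn) (pow_ne_zero _ (by norm_num))
  exact (mul_eq_zero.1 h1).resolve_left h4

include hF in
/-- **The injectivity.** -/
theorem sgl (hk : Module.finrank ℚ k = 2) {θ : k} (hθ : θ ^ 2 = -(d : k)) {a' : ℕ}
    (ha' : Module.finrank k M = 2 ^ a')
    (hur : ∀ P : Ideal (𝓞 M), P.IsPrime → P ≠ ⊥ → (2 : 𝓞 M) ∉ P → P.ramificationIdx (𝓞 k) = 1)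
    {θ₀ : ℂ_[2]} (hθ₀ : θ₀ ^ 2 = -(d : ℂ_[2])) {L : ℂ_[2] → ℂ_[2]} (hL : IsIwasawaLog 2 L)
    (x : UM 2 H)
    (hx : ∀ σ : H →+* ℂ_[2], σ (algebraMap k H θ) = θ₀ → logLin hL σ x = 0) : x = 0 := by
  obtain ⟨n, hn, hnU⟩ := exists_pow_U4 H 2
  have hn' : (n : ℂ_[2]) ≠ 0 := by exact_mod_cast hn
  set ε : Fin (Units.rank H) → (𝓞 H)ˣ := fun i => (Units.fundSystem H i) ^ n with hε
  -- every element is a combination
  have hspan : ∀ x : UM 2 H, ∃ a : Fin (Units.rank H) → ℂ_[2],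
      x = ∑ i, a i ⊗ₜ[ℤ] Additive.ofMul (ε i) := by
    intro x
    induction x using TensorProduct.induction_on with
    | zero => exact ⟨0, by simp⟩
    | add x y hx hy =>
      obtain ⟨a, ha⟩ := hx
      obtain ⟨b, hb⟩ := hy
      refine ⟨a + b, ?_⟩
      rw [ha, hb, ← Finset.sum_add_distrib]
      refine Finset.sum_congr rfl fun i _ => ?_
      rw [Pi.add_apply, TensorProduct.add_tmul]
    | tmul c u =>
      obtain ⟨⟨ζ, e⟩, h, -⟩ := Units.exist_unique_eq_mul_prod H (Additive.toMul u)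
      simp only at h
      refine ⟨fun i => c * (e i : ℂ_[2]) / n, ?_⟩
      have h1 : u = Additive.ofMul (ζ : (𝓞 H)ˣ) +
          ∑ i, e i • Additive.ofMul (Units.fundSystem H i) := by
        have h2 : u = Additive.ofMul (Additive.toMul u) := rfl
        rw [h2, h, ofMul_mul, ofMul_prod]
        rfl
      obtain ⟨k, hk, hk1⟩ := isOfFinOrder_iff_pow_eq_one.1 (show IsOfFinOrder (ζ : (𝓞 H)ˣ) from ζ.2)
      rw [h1, TensorProduct.tmul_add, tmul_torsion c (Additive.ofMul (ζ : (𝓞 H)ˣ)) k hk.ne'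
        (by rw [← ofMul_pow, hk1, ofMul_one]), zero_add, TensorProduct.tmul_sum]
      refine Finset.sum_congr rfl fun i _ => ?_
      have h3 : Additive.ofMul (ε i) = (n : ℤ) • Additive.ofMul (Units.fundSystem H i) := by
        rw [natCast_zsmul]
        rfl
      rw [h3, tmul_zsmul, tmul_zsmul]
      congr 1
      push_cast
      field_simp
  obtain ⟨a, rfl⟩ := hspan x
  have ha : a = 0 := by
    by_contra ha
    obtain ⟨b, hb, e, he⟩ := ind_log hF hk hθ ha' hur hθ₀ hL ε (fun i => hnU _) a ha (by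
      intro σ hσ
      have h1 := hx σ hσ
      rw [map_sum] at h1
      exact h1)
    apply hb
    refine exp_zero (n := n) (e := e) hn fun N m hm i => ?_
    obtain ⟨w, hw⟩ := he N m hm
    obtain ⟨⟨ζ, l⟩, h, -⟩ := Units.exist_unique_eq_mul_prod H w
    simp only at h
    have h1 := (Units.exist_unique_eq_mul_prod H (w ^ 2 ^ N)).unique
      (y₁ := (ζ ^ 2 ^ N, fun i => (2 ^ N : ℤ) * l i))
      (y₂ := (1, fun i => (n : ℤ) * 2 ^ e * m i)) ?_ ?_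
    · have h2 := congrFun (Prod.mk.inj h1).2 i
      exact ⟨l i, h2.symm⟩
    · simp only
      rw [h, mul_pow, ← Finset.prod_pow]
      congr 1
      refine Finset.prod_congr rfl fun i _ => ?_
      rw [← zpow_natCast, ← zpow_mul, mul_comm]
      push_cast
      rfl
    · simp only
      rw [hw, ← Finset.prod_pow, OneMemClass.coe_one, one_mul]
      refine Finset.prod_congr rfl fun i _ => ?_
      show ((Units.fundSystem H i ^ n) ^ m i) ^ 2 ^ e = _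
      rw [← zpow_natCast, ← zpow_natCast, ← zpow_mul, ← zpow_mul]
      congr 1
      push_cast
      ring
  rw [ha]
  simp

end main

end Pool.Agent.Z384
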