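import Pool.Agent.R384.Z.Key
import Pool.Agent.R384.Z.Lat

/-!
# Vanishing over `ℚ(√-d)`
-/

set_option autoImplicit false
set_option linter.unusedSectionVars false

namespace Pool.Agent.Z384

open Pool.Agent.Y715.Red Pool.Agent.Y715.Nr Pool.Agent.W237.RK
open Pool.Agent.Y715.Gi (QB KK GK i₀_mem gk_fix)
open Pool.Agent.Y715.Df (Cmp exists_cmp)

open Polynomial in
/-- matrices with unipotent reduction -/
lemma pow_of_charpoly {X : Type*} [Fintype X] [DecidableEq X] {A : Matrix X X ℤ_[2]}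
    (h : A.charpoly.map (PadicInt.toZMod (p := 2)) = (Polynomial.X - 1) ^ Fintype.card X) :
    ∃ k, ∀ i j, (2 : ℤ_[2]) ∣ (A ^ 2 ^ k) i j - (1 : Matrix X X ℤ_[2]) i j := by
  set B : Matrix X X (ZMod 2) := (PadicInt.toZMod (p := 2)).mapMatrix A with hB
  have h1 : B.charpoly = (Polynomial.X - 1) ^ Fintype.card X := by
    rw [← h, hB]
    exact Matrix.charpoly_map A _
  refine ⟨Fintype.card X, ?_⟩
  have h2 : (Polynomial.X - 1 : (ZMod 2)[X]) ^ 2 ^ Fintype.card X =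
      Polynomial.X ^ 2 ^ Fintype.card X - 1 := by
    rw [sub_pow_char_pow, one_pow]
  have h3 : B.charpoly ∣ (Polynomial.X ^ 2 ^ Fintype.card X - 1 : (ZMod 2)[X]) := by
    rw [h1, ← h2]
    exact pow_dvd_pow _ Nat.lt_two_pow_self.le
  have h4 : B ^ 2 ^ Fintype.card X = 1 := by
    obtain ⟨q, hq⟩ := h3
    have h5 := congrArg (Polynomial.aeval B) hq
    rw [map_mul, Matrix.aeval_self_charpoly, zero_mul, map_sub, map_pow, aeval_X, map_one] at h5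
    exact sub_eq_zero.1 h5
  intro i j
  have h5 : PadicInt.toZMod (p := 2) ((A ^ 2 ^ Fintype.card X) i j - (1 : Matrix X X ℤ_[2]) i j) = 0 := by
    have h6 : (PadicInt.toZMod (p := 2)).mapMatrix (A ^ 2 ^ Fintype.card X) = 1 := by
      rw [map_pow]
      exact h4
    have h7 := congrFun (congrFun h6 i) j
    have h8 : (PadicInt.toZMod (p := 2)).mapMatrix (1 : Matrix X X ℤ_[2]) = 1 := map_one _
    have h9 := congrFun (congrFun h8 i) j
    rw [map_sub, sub_eq_zero]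
    exact h7.trans h9.symm
  have h6 : (A ^ 2 ^ Fintype.card X) i j - (1 : Matrix X X ℤ_[2]) i j ∈
      RingHom.ker (PadicInt.toZMod (p := 2)) := h5
  rw [PadicInt.ker_toZMod, PadicInt.maximalIdeal_eq_span_p, Ideal.mem_span_singleton] at h6
  exact_mod_cast h6

variable {s : QB} {d : ℕ} (hs : s ^ 2 = -(d : QB))
variable {X : Type*} [Fintype X] [DecidableEq X]

include hs in
/-- **The vanishing over `ℚ(√-d)`.** -/
theorem van (hF : Fld d) {A : GK s →* Matrix X X ℤ_[2]} (hA : ∀ i j, Continuous fun σ => A σ i j)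
    (hu : ∀ (p : ℕ) [Fact p.Prime] (ι : QB →ₐ[ℚ] PadicAlgCl p), p ≠ 2 →
      ∀ σ ∈ (II ι : Set (GK s)), A σ = 1)
    (hr : ∀ σ, ∃ k, ∀ i j, (2 : ℤ_[2]) ∣ (A σ ^ 2 ^ k) i j - (1 : Matrix X X ℤ_[2]) i j)
    {c : GK s → X → ℚ_[2]} (hc : Continuous c) (hcoc : ∀ σ τ, c (σ * τ) = c σ + av A σ (c τ))
    (ho : ∀ (p : ℕ) [Fact p.Prime] (ι : QB →ₐ[ℚ] PadicAlgCl p), p ≠ 2 →
      ∃ y, ∀ σ ∈ (II ι : Set (GK s)), c σ = av A σ y - y)
    (ι₀ : QB →ₐ[ℚ] PadicAlgCl 2) (h2 : ∃ y, ∀ σ ∈ (DD ι₀ : Set (GK s)), c σ = av A σ y - y) :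
    ∃ y, ∀ σ, c σ = av A σ y - y := by
  obtain ⟨y, hy⟩ := h2
  refine ⟨y, fun σ => ?_⟩
  rw [← sub_eq_zero]
  revert σ
  refine lat (A := A) hr
    ({σ | ∃ (p : ℕ) (_ : Fact p.Prime) (ι : QB →ₐ[ℚ] PadicAlgCl p), p ≠ 2 ∧ σ ∈ II ι} ∪ DD ι₀)
    ?_ (fun σ => c σ - (av A σ y - y)) (hc.sub ((av_cont hA y).sub continuous_const)) ?_ ?_
  · intro h hlc hm hZ
    exact key hs hF h hlc hm (fun p _ ι hp σ hσ => hZ σ (Or.inl ⟨p, inferInstance, ι, hp, hσ⟩)) ι₀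
      fun σ hσ => hZ σ (Or.inr hσ)
  · intro σ τ
    show c (σ * τ) - (av A (σ * τ) y - y) = c σ - (av A σ y - y) +
      av A σ (c τ - (av A τ y - y))
    rw [hcoc, av_mul, av_sub, av_sub]
    abel
  · rintro σ (⟨p, hp, ι, hp2, hσ⟩ | hσ)
    · obtain ⟨y', hy'⟩ := ho p ι hp2
      have h1 := hu p ι hp2 σ hσ
      show c σ - (av A σ y - y) = 0
      rw [hy' σ hσ, av_of_one h1, av_of_one h1]
      abel
    · show c σ - (av A σ y - y) = 0
      rw [hy σ hσ, sub_self]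

include hs in
/-- there is an embedding for each of the two places above `2` -/
lemma exists_place (hF : Fld d) : ∃ ι : QB →ₐ[ℚ] PadicAlgCl 2, ‖ι ((1 + s) / 2)‖ < 1 := by
  obtain ⟨ι⟩ : Nonempty (QB →ₐ[ℚ] PadicAlgCl 2) :=
    ⟨IsAlgClosed.lift (R := ℚ) (S := QB) (M := AlgebraicClosure ℚ_[2])⟩
  have h8 := hF.mod
  obtain ⟨k, hk⟩ : ∃ k : ℕ, d + 1 = 8 * k := ⟨(d + 1) / 8, by omega⟩
  have hk' : (d : QB) + 1 = 8 * k := by exact_mod_cast congrArg (Nat.cast (R := QB)) hk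
  have h1 : (1 + s) / 2 * ((1 - s) / 2) = 2 * (k : QB) := by
    linear_combination hk' / 4 - hs / 4
  have h2 : ‖ι ((1 + s) / 2)‖ * ‖ι ((1 - s) / 2)‖ < 1 := by
    rw [← norm_mul, ← map_mul, h1, map_mul, map_natCast, map_ofNat, norm_mul,
      Pool.Agent.Y715.Gi.norm_two']
    have := int_le (F := PadicAlgCl 2) k
    linarith
  by_cases h3 : ‖ι ((1 + s) / 2)‖ < 1
  · exact ⟨ι, h3⟩
  · have h4 : ‖ι ((1 - s) / 2)‖ < 1 := by
      push Not at h3
      by_contra hcon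
      push Not at hcon
      nlinarith [norm_nonneg (ι ((1 + s) / 2))]
    obtain ⟨c, hc⟩ := exists_conj hs hF.ne_zero
    refine ⟨ι.comp c.toAlgHom, ?_⟩
    have h5 : (ι.comp c.toAlgHom) ((1 + s) / 2) = ι ((1 - s) / 2) := by
      show ι (c ((1 + s) / 2)) = _
      congr 1
      rw [map_div₀, map_add, map_one, map_ofNat, hc]
      ring
    rw [h5]
    exact h4

end Pool.Agent.Z384
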