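import Pool.Agent.R384.Z.Ind
import Pool.Agent.R384.Z.Van

/-!
# Vanishing over the `2`-extensions of `ℚ(√-d)` unramified outside `2`
-/

set_option autoImplicit false
set_option linter.unusedSectionVars false

namespace Pool.Agent.Z384

open Pool.Agent.Y715.Red Pool.Agent.Y715.Nr Pool.Agent.W237.RK
open Pool.Agent.Y715.Gi (QB KK GK i₀_mem gk_fix)
open Pool.Agent.Y715.Df (Cmp exists_cmp gh)

open scoped Classical

/-- the reduction modulo `2` of a matrix -/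
noncomputable def m2 {X : Type*} [Fintype X] [DecidableEq X] : Matrix X X ℤ_[2] →+* Matrix X X (ZMod 2) :=
  (PadicInt.toZMod (p := 2)).mapMatrix

lemma dvd_of_m2 {X : Type*} [Fintype X] [DecidableEq X] {A : Matrix X X ℤ_[2]} (h : m2 A = 1)
    (i j : X) : (2 : ℤ_[2]) ∣ A i j - (1 : Matrix X X ℤ_[2]) i j := by
  have h5 : PadicInt.toZMod (p := 2) (A i j - (1 : Matrix X X ℤ_[2]) i j) = 0 := by
    have h7 := congrFun (congrFun h i) j
    have h8 : m2 (1 : Matrix X X ℤ_[2]) = 1 := map_one _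
    have h9 := congrFun (congrFun h8 i) j
    rw [map_sub, sub_eq_zero]
    exact h7.trans h9.symm
  have h6 : A i j - (1 : Matrix X X ℤ_[2]) i j ∈ RingHom.ker (PadicInt.toZMod (p := 2)) := h5
  rw [PadicInt.ker_toZMod, PadicInt.maximalIdeal_eq_span_p, Ideal.mem_span_singleton] at h6
  exact_mod_cast h6

open Polynomial in
lemma m2_of_charpoly {X : Type*} [Fintype X] [DecidableEq X] {A : Matrix X X ℤ_[2]}
    (h : A.charpoly.map (PadicInt.toZMod (p := 2)) = (Polynomial.X - 1) ^ Fintype.card X) :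
    (m2 A) ^ 2 ^ Fintype.card X = 1 := by
  set B : Matrix X X (ZMod 2) := m2 A with hB
  have h1 : B.charpoly = (Polynomial.X - 1) ^ Fintype.card X := by
    rw [← h, hB]
    exact Matrix.charpoly_map A _
  have h2 : (Polynomial.X - 1 : (ZMod 2)[X]) ^ 2 ^ Fintype.card X =
      Polynomial.X ^ 2 ^ Fintype.card X - 1 := by
    rw [sub_pow_char_pow, one_pow]
  have h3 : B.charpoly ∣ (Polynomial.X ^ 2 ^ Fintype.card X - 1 : (ZMod 2)[X]) := by
    rw [h1, ← h2]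
    exact pow_dvd_pow _ Nat.lt_two_pow_self.le
  obtain ⟨q, hq⟩ := h3
  have h5 := congrArg (Polynomial.aeval B) hq
  rw [map_mul, Matrix.aeval_self_charpoly, zero_mul, map_sub, map_pow, aeval_X, map_one] at h5
  exact sub_eq_zero.1 h5

section grp

variable {G : Type*} [Group G] [TopologicalSpace G] {H N : Subgroup G} {X : Type*} [Fintype X]
  [DecidableEq X]

lemma smul_of_normal (hN : N.Normal) (hNH : N ≤ H) {n : G} (hn : n ∈ N) (x : G ⧸ H) :
    n⁻¹ • x = x := by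
  rw [← rr_mk x]
  show ((n⁻¹ * rr x : G) : G ⧸ H) = ((rr x : G) : G ⧸ H)
  rw [QuotientGroup.eq]
  apply hNH
  have h1 := hN.conj_mem n hn (rr x)⁻¹
  have e : (n⁻¹ * rr x)⁻¹ * rr x = (rr x)⁻¹ * n * (rr x)⁻¹⁻¹ := by group
  rw [e]
  exact h1

lemma kk_pow {n : G} {x : G ⧸ H} (hx : n⁻¹ • x = x) (m : ℕ) : kk (n ^ m) x = (kk n x) ^ m := by
  have hxm : ∀ m : ℕ, (n ^ m)⁻¹ • x = x := by
    intro m
    induction m with
    | zero => simp
    | succ m ih => rw [pow_succ, mul_inv_rev, mul_smul, ih, hx]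
  induction m with
  | zero =>
    apply Subtype.ext
    rw [pow_zero, pow_zero, kk_val, inv_one, one_smul]
    simp
  | succ m ih => rw [pow_succ, pow_succ, kk_mul, ih, hxm]

variable [Fintype (G ⧸ H)]

/-- the induced representation is residually unipotent -/
lemma ind_unip (hN : N.Normal) (hNH : N ≤ H) {a : ℕ} (hi : N.index = 2 ^ a)
    {ρ : H →* Matrix X X ℤ_[2]} (hr : ∀ σ, ∃ k, (m2 (ρ σ)) ^ 2 ^ k = 1) (g : G) :
    ∃ k, (m2 (ind ρ g)) ^ 2 ^ k = 1 := by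
  set n := g ^ 2 ^ a with hn
  have hnN : n ∈ N := by
    rw [hn, ← hi]
    exact Subgroup.pow_index_mem N g
  have hx := fun x : G ⧸ H => smul_of_normal hN hNH hnN x
  choose k hk using fun x : G ⧸ H => hr (kk n x)
  set K := ∑ x, k x with hK
  refine ⟨a + K, ?_⟩
  rw [pow_add, pow_mul, ← map_pow m2, ← map_pow (ind ρ), ← hn, ← map_pow m2, ← map_pow (ind ρ)]
  ext ⟨x, i⟩ ⟨y, j⟩
  show PadicInt.toZMod (indf ρ (n ^ 2 ^ K) (x, i) (y, j)) = (1 : Matrix _ _ (ZMod 2)) (x, i) (y, j)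
  have hxK : (n ^ 2 ^ K)⁻¹ • x = x := smul_of_normal hN hNH (N.pow_mem hnN _) x
  by_cases h : y = x
  · subst h
    have h1 := indf_eq ρ (n ^ 2 ^ K) y i j
    rw [hxK] at h1
    rw [h1, kk_pow (hx y)]
    have h2 : m2 (ρ (kk n y ^ 2 ^ K)) = 1 := by
      obtain ⟨l, hl⟩ : ∃ l, K = k y + l :=
        ⟨K - k y, by have := Finset.single_le_sum (f := k) (fun _ _ => Nat.zero_le _) (Finset.mem_univ y); omega⟩
      rw [map_pow, map_pow, hl, pow_add, pow_mul, hk, one_pow]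
    have h3 := congrFun (congrFun h2 i) j
    refine h3.trans ?_
    rw [Matrix.one_apply, Matrix.one_apply]
    simp
  · rw [indf_ne ρ _ (x, i) (y, j) (by rw [hxK]; exact h), map_zero, Matrix.one_apply, if_neg]
    intro h1
    exact h (congrArg Prod.fst h1).symm

/-- the induced representation and the induced cocycle on elements whose conjugates are trivial -/
lemma ind_one (hN : N.Normal) (hNH : N ≤ H) {n : G} (hn : n ∈ N) {ρ : H →* Matrix X X ℤ_[2]}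
    (h : ∀ x : G ⧸ H, ρ (kk n x) = 1) : ind ρ n = 1 := by
  ext ⟨x, i⟩ ⟨y, j⟩
  have hx := smul_of_normal hN hNH hn x
  by_cases h1 : y = x
  · subst h1
    have h2 := indf_eq ρ n y i j
    rw [hx] at h2
    rw [ind_apply, h2, h, Matrix.one_apply, Matrix.one_apply]
    simp
  · rw [ind_apply, indf_ne ρ _ (x, i) (y, j) (by rw [hx]; exact h1), Matrix.one_apply, if_neg]
    intro h2
    exact h1 (congrArg Prod.fst h2).symm

end grp

/-! ### Conjugation -/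

section conj

variable {s : QB} {p : ℕ} [Fact p.Prime]

lemma II_conj {ι : QB →ₐ[ℚ] PadicAlgCl p} {σ : GK s} (h : σ ∈ (II ι : Set (GK s))) (r : GK s) :
    r⁻¹ * σ * r ∈ (II (ι.comp (gh r)) : Set (GK s)) := by
  obtain ⟨τ, hτ, hin⟩ := h
  refine ⟨τ, fun z => ?_, hin⟩
  show τ (ι (r z)) = ι (r ((r⁻¹ * σ * r) z))
  rw [hτ, ← AlgEquiv.mul_apply, ← AlgEquiv.mul_apply]
  congr 2
  group

lemma DD_conj {ι : QB →ₐ[ℚ] PadicAlgCl p} {h r : GK s}
    (hh : r * h * r⁻¹ ∈ (DD ι : Set (GK s))) : h ∈ (DD (ι.comp (gh r)) : Set (GK s)) := by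
  obtain ⟨τ, hτ⟩ := hh
  refine ⟨τ, fun z => ?_⟩
  show τ (ι (r z)) = ι (r (h z))
  rw [hτ, ← AlgEquiv.mul_apply, ← AlgEquiv.mul_apply]
  congr 2
  group

/-- the decomposition group -/
def DDs (ι : QB →ₐ[ℚ] PadicAlgCl p) : Subgroup (GK s) where
  carrier := DD ι
  mul_mem' := by
    rintro σ σ' ⟨τ, h⟩ ⟨τ', h'⟩
    exact ⟨τ * τ', h.mul h'⟩
  one_mem' := ⟨1, fun _ => rfl⟩
  inv_mem' := by
    rintro σ ⟨τ, h⟩
    refine ⟨τ⁻¹, fun x => ?_⟩
    have h5 := h (σ⁻¹ x)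
    rw [← AlgEquiv.mul_apply σ σ⁻¹, mul_inv_cancel, AlgEquiv.one_apply] at h5
    rw [← h5, ← AlgEquiv.mul_apply τ⁻¹ τ, inv_mul_cancel, AlgEquiv.one_apply]

end conj

variable {s : QB} {d : ℕ} (hs : s ^ 2 = -(d : QB))
variable {X : Type*} [Fintype X] [DecidableEq X]

include hs in
/-- **The vanishing over the `2`-extensions of `ℚ(√-d)` unramified outside `2`.** -/
theorem tow (hF : Fld d) {H N : Subgroup (GK s)} (hNH : N ≤ H) (hNn : N.Normal)
    {a : ℕ} (hNi : N.index = 2 ^ a) (hNo : IsOpen (N : Set (GK s)))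
    (hur : ∀ (p : ℕ) [Fact p.Prime] (ι : QB →ₐ[ℚ] PadicAlgCl p), p ≠ 2 →
      ∀ σ ∈ (II ι : Set (GK s)), σ ∈ N)
    {ρ : H →* Matrix X X ℤ_[2]} (hρ : ∀ i j, Continuous fun σ => ρ σ i j)
    (hu : ∀ (p : ℕ) [Fact p.Prime] (ι : QB →ₐ[ℚ] PadicAlgCl p), p ≠ 2 →
      ∀ σ : H, (σ : GK s) ∈ (II ι : Set (GK s)) → ρ σ = 1)
    (hr : ∀ σ, ∃ k, (m2 (ρ σ)) ^ 2 ^ k = 1)
    {c : H → X → ℚ_[2]} (hc : Continuous c)
    (hcoc : ∀ σ τ, c (σ * τ) = c σ + av ρ σ (c τ))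
    (ho : ∀ (p : ℕ) [Fact p.Prime] (ι : QB →ₐ[ℚ] PadicAlgCl p), p ≠ 2 →
      ∃ y, ∀ σ : H, (σ : GK s) ∈ (II ι : Set (GK s)) → c σ = av ρ σ y - y)
    (ι₀ : QB →ₐ[ℚ] PadicAlgCl 2)
    (h2 : ∀ r : GK s, ∃ y, ∀ σ : H,
      (σ : GK s) ∈ (DD (ι₀.comp (gh r)) : Set (GK s)) → c σ = av ρ σ y - y) :
    ∃ y, ∀ σ, c σ = av ρ σ y - y := by
  have hNf : N.FiniteIndex := ⟨by rw [hNi]; positivity⟩
  have hHf : H.FiniteIndex := Subgroup.finiteIndex_of_le hNH
  have hHo : IsOpen (H : Set (GK s)) := Subgroup.isOpen_mono hNH hNo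
  have : Fintype (GK s ⧸ H) := Fintype.ofFinite _
  -- the restriction to the decomposition group
  obtain ⟨Y, hY⟩ := mackey (ρ := ρ) (c := c) hcoc (DDs ι₀) (fun x => by
    obtain ⟨y, hy⟩ := h2 (rr x)
    exact ⟨y, fun h hh => hy h (DD_conj hh)⟩)
  have key0 : ∀ g, indc c g - (av (ind ρ) g Y - Y) = 0 := by
    refine lat (A := ind ρ) (fun g => ?_)
      ({σ | ∃ (p : ℕ) (_ : Fact p.Prime) (ι : QB →ₐ[ℚ] PadicAlgCl p), p ≠ 2 ∧ σ ∈ II ι} ∪ DD ι₀)
      ?_ (fun g => indc c g - (av (ind ρ) g Y - Y))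
      ((indc_cont hHo hc).sub ((av_cont (fun x y => ind_cont hHo hρ x y) Y).sub continuous_const))
      ?_ ?_
    · obtain ⟨k, hk⟩ := ind_unip hNn hNH hNi hr g
      exact ⟨k, dvd_of_m2 (by rw [map_pow]; exact hk)⟩
    · intro h hlc hm hZ
      exact key hs hF h hlc hm (fun p _ ι hp σ hσ => hZ σ (Or.inl ⟨p, inferInstance, ι, hp, hσ⟩)) ι₀
        fun σ hσ => hZ σ (Or.inr hσ)
    · intro σ τ
      show indc c (σ * τ) - (av (ind ρ) (σ * τ) Y - Y) = indc c σ - (av (ind ρ) σ Y - Y) +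
        av (ind ρ) σ (indc c τ - (av (ind ρ) τ Y - Y))
      rw [indc_mul hcoc, av_mul, av_sub, av_sub]
      abel
    · rintro σ (⟨p, hp, ι, hp2, hσ⟩ | hσ)
      · have hσN : σ ∈ N := hur p ι hp2 σ hσ
        have hkk : ∀ x : GK s ⧸ H, (kk σ x : GK s) ∈ (II (ι.comp (gh (rr x))) : Set (GK s)) := by
          intro x
          rw [kk_val, smul_of_normal hNn hNH hσN x]
          exact II_conj hσ (rr x)
        have h1 : ind ρ σ = 1 := ind_one hNn hNH hσN fun x => hu p _ hp2 _ (hkk x)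
        have h3 : indc c σ = 0 := by
          funext ⟨x, i⟩
          show c (kk σ x) i = 0
          obtain ⟨y', hy'⟩ := ho p (ι.comp (gh (rr x))) hp2
          rw [hy' _ (hkk x), av_of_one (hu p _ hp2 _ (hkk x)), sub_self]
          rfl
        show indc c σ - (av (ind ρ) σ Y - Y) = 0
        rw [h3, av_of_one h1, sub_self, sub_zero]
      · show indc c σ - (av (ind ρ) σ Y - Y) = 0
        rw [hY σ hσ, sub_self]
  exact of_ind fun g => sub_eq_zero.1 (key0 g)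

end Pool.Agent.Z384
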